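import Pool.Agent.SC.Main

namespace Pool.Agent.SC

open SimpleGraph

variable {α β : Type*} [Primcodable α] [Primcodable β]

/-! ### Powers of coded graphs -/

theorem esep_comm {c : Code} {a b : ℕ} : esep c a b ↔ esep c b a := by
  unfold esep
  rw [ne_comm, or_comm]

/-- Code of the strong power. -/
noncomputable def powc (c : Code) (M : ℕ) : Code := mkc (c.1 ^ M) (fun x y => ¬ wsep c M x y)

theorem wsep_comm {c : Code} {M x y : ℕ} : wsep c M x y ↔ wsep c M y x := by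
  unfold wsep
  constructor
  · rintro ⟨i, hi, h⟩
    exact ⟨i, hi, esep_comm.1 h⟩
  · rintro ⟨i, hi, h⟩
    exact ⟨i, hi, esep_comm.1 h⟩

theorem indepNum_powc (c : Code) (hc : 0 < c.1) (M : ℕ) :
    (gr (powc c M)).indepNum = al (gr c) M := by
  have key : ∀ x y : ℕ, (x, y) ∈ (powc c M).2 ↔
      x < c.1 ^ M ∧ y < c.1 ^ M ∧ ¬ wsep c M x y := fun x y => mem_mkc
  have hsep : ∀ a b : Fin (powc c M).1, (gr (powc c M))ᶜ.Adj a b ↔ wsep c M a b := by
    intro a b
    have ha : (a : ℕ) < c.1 ^ M := a.2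
    have hb : (b : ℕ) < c.1 ^ M := b.2
    rw [sep_gr, key, key, wsep_comm (x := (b : ℕ))]
    simp only [ha, hb, true_and, or_self, not_not, and_iff_right_iff_imp]
    intro h e
    have h2 := (sep_wd hc M a b).2 h
    rw [e] at h2
    exact h2.ne rfl
  apply le_antisymm
  · refine indepNum_le_of_map (fun a => wd c.1 hc M (a : ℕ)) (fun a b h => ?_)
    rw [sep_wd]
    exact (hsep a b).1 h
  · choose num hlt hnum using fun u : Fin M → Fin c.1 => exists_wd hc u
    refine indepNum_le_of_map (B := gr (powc c M))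
      (fun u => (⟨num u, hlt u⟩ : Fin (powc c M).1)) (fun u v h => ?_)
    rw [hsep]
    change wsep c M (num u) (num v)
    rw [← sep_wd hc, hnum, hnum]
    exact h

theorem pr_powc {fc : α → Code} {fM : α → ℕ} (hc : Primrec fc) (hM : Primrec fM) :
    Primrec (fun a => powc (fc a) (fM a)) := by
  unfold powc
  refine pr_mkc (A := fun a x y => ¬ wsep (fc a) (fM a) x y)
    (pr_pow.comp (Primrec.fst.comp hc) hM) (PrimrecPred.not ?_)
  exact pp_wsep (hc.comp Primrec.fst) (hM.comp Primrec.fst)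
    (Primrec.fst.comp Primrec.snd) (Primrec.snd.comp Primrec.snd)

/-! ### Recursive enumerability and search -/

theorem cp_comp {p : β → Prop} (hp : PrimrecPred p) {f : α → β} (hf : Computable f) :
    ComputablePred (fun a => p (f a)) := by
  classical
  exact (hp.decide.to_comp.comp hf).computablePred

theorem re_exists {D : α → ℕ → Prop} (hD : ComputablePred (fun x : α × ℕ => D x.1 x.2)) :
    REPred (fun a => ∃ k, D a k) := by
  classical
  have h : Partrec (fun a => Nat.rfind fun n => Part.some (decide (D a n))) :=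
    Partrec.rfind hD.decide.partrec
  refine h.dom_re.of_eq (fun a => Nat.rfind_dom.trans ?_)
  constructor
  · rintro ⟨n, hn, -⟩
    refine ⟨n, ?_⟩
    simpa using hn
  · rintro ⟨n, hn⟩
    exact ⟨n, by simpa using hn, fun _ => trivial⟩

theorem Staged.re {p : α → Prop} (h : Staged p) : REPred p := by
  obtain ⟨Q, hQ, -, hQe⟩ := h
  exact (re_exists (D := Q) (PrimrecPred.computablePred hQ)).of_eq (fun a => (hQe a).symm)

/-- If the capacity is computable, strict upper bounds are recursively enumerable. -/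
theorem staged_upper (h : ThetaComputable) :
    Staged (fun x : Code × ℕ × ℕ => theta (gr x.1) ^ x.2.1 < x.2.2) := by
  obtain ⟨f, hf, hfa⟩ := h
  apply Staged.of_re
  have hD : ComputablePred (fun x : (Code × ℕ × ℕ) × ℕ =>
      ((f (x.1.1, x.2)).1 * 2 ^ x.2 + ((f (x.1.1, x.2)).2 + 1)) ^ x.1.2.1 <
        x.1.2.2 * (((f (x.1.1, x.2)).2 + 1) * 2 ^ x.2) ^ x.1.2.1) := by
    have hp : PrimrecPred (fun y : (ℕ × ℕ) × (ℕ × ℕ × ℕ) =>
        (y.1.1 * 2 ^ y.2.1 + (y.1.2 + 1)) ^ y.2.2.1 <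
          y.2.2.2 * ((y.1.2 + 1) * 2 ^ y.2.1) ^ y.2.2.1) := by
      have a1 : Primrec (fun y : (ℕ × ℕ) × (ℕ × ℕ × ℕ) => y.1.1) :=
        Primrec.fst.comp Primrec.fst
      have a2 : Primrec (fun y : (ℕ × ℕ) × (ℕ × ℕ × ℕ) => y.1.2 + 1) :=
        Primrec.succ.comp (Primrec.snd.comp Primrec.fst)
      have a3 : Primrec (fun y : (ℕ × ℕ) × (ℕ × ℕ × ℕ) => 2 ^ y.2.1) :=
        pr_pow.comp (Primrec.const 2) (Primrec.fst.comp Primrec.snd)
      have a4 : Primrec (fun y : (ℕ × ℕ) × (ℕ × ℕ × ℕ) => y.2.2.1) :=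
        Primrec.fst.comp (Primrec.snd.comp Primrec.snd)
      have a5 : Primrec (fun y : (ℕ × ℕ) × (ℕ × ℕ × ℕ) => y.2.2.2) :=
        Primrec.snd.comp (Primrec.snd.comp Primrec.snd)
      exact pp_lt (pr_pow.comp (Primrec.nat_add.comp (Primrec.nat_mul.comp a1 a3) a2) a4)
        (Primrec.nat_mul.comp a5 (pr_pow.comp (Primrec.nat_mul.comp a2 a3) a4))
    have hc : Computable (fun x : (Code × ℕ × ℕ) × ℕ =>
        (f (x.1.1, x.2), (x.2, x.1.2.1, x.1.2.2))) := by
      refine Computable.pair (hf.comp ?_) ?_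
      · exact (Primrec.pair (Primrec.fst.comp Primrec.fst) Primrec.snd).to_comp
      · exact (Primrec.pair Primrec.snd (Primrec.snd.comp Primrec.fst)).to_comp
    exact cp_comp hp hc
  refine (re_exists (D := fun (x : Code × ℕ × ℕ) k =>
      ((f (x.1, k)).1 * 2 ^ k + ((f (x.1, k)).2 + 1)) ^ x.2.1 <
        x.2.2 * (((f (x.1, k)).2 + 1) * 2 ^ k) ^ x.2.1) hD).of_eq ?_
  rintro ⟨c, n, a⟩
  -- reformulation of the condition
  have hiff : ∀ k, (((f (c, k)).1 * 2 ^ k + ((f (c, k)).2 + 1)) ^ n <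
        a * (((f (c, k)).2 + 1) * 2 ^ k) ^ n) ↔
      (((f (c, k)).1 : ℝ) / (((f (c, k)).2 : ℝ) + 1) + 1 / 2 ^ k) ^ n < a := by
    intro k
    have hpos : (0 : ℝ) < ((((f (c, k)).2 : ℝ) + 1) * 2 ^ k) ^ n := by positivity
    have h1 : ((f (c, k)).1 : ℝ) / (((f (c, k)).2 : ℝ) + 1) + 1 / 2 ^ k =
        (((f (c, k)).1 : ℝ) * 2 ^ k + (((f (c, k)).2 : ℝ) + 1)) /
          ((((f (c, k)).2 : ℝ) + 1) * 2 ^ k) := by
      field_simp
    rw [h1, div_pow, div_lt_iff₀ hpos]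
    exact_mod_cast Iff.rfl
  change (∃ k, (((f (c, k)).1 * 2 ^ k + ((f (c, k)).2 + 1)) ^ n <
    a * (((f (c, k)).2 + 1) * 2 ^ k) ^ n)) ↔ theta (gr c) ^ n < a
  simp only [hiff]
  constructor
  · rintro ⟨k, hk⟩
    refine lt_of_le_of_lt (pow_le_pow_left₀ (theta_nonneg _) ?_ n) hk
    have := (abs_le.1 (hfa c k)).1
    linarith
  · intro h
    have hcont : Filter.Tendsto (fun k : ℕ => (theta (gr c) + 2 * (1 / 2) ^ k) ^ n)
        Filter.atTop (nhds ((theta (gr c) + 2 * 0) ^ n)) := by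
      refine Filter.Tendsto.pow (Filter.Tendsto.const_add _ (Filter.Tendsto.const_mul _ ?_)) n
      exact tendsto_pow_atTop_nhds_zero_of_lt_one (by norm_num) (by norm_num)
    rw [mul_zero, add_zero] at hcont
    obtain ⟨k, hk⟩ := (hcont.eventually (gt_mem_nhds h)).exists
    refine ⟨k, lt_of_le_of_lt (pow_le_pow_left₀ (by positivity) ?_ n) hk⟩
    have h2 := (abs_le.1 (hfa c k)).2
    have h3 : (1 : ℝ) / 2 ^ k = (1 / 2) ^ k := by rw [div_pow, one_pow]
    rw [h3] at h2 ⊢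
    linarith

/-! ### Enumerating all the graphs on v vertices -/

/-- All pairs of numbers below v. -/
def pairs (v : ℕ) : List (ℕ × ℕ) :=
  (List.range v).flatMap (fun a => (List.range v).map (fun b => (a, b)))

theorem mem_pairs {v a b : ℕ} : (a, b) ∈ pairs v ↔ a < v ∧ b < v := by
  unfold pairs
  simp

theorem exists_gr {v : ℕ} (G : SimpleGraph (Fin v)) :
    ∃ L ∈ (pairs v).sublists', gr (v, L) = G := by
  classical
  refine ⟨(pairs v).filter (fun p => ∃ a b : Fin v, G.Adj a b ∧ (a : ℕ) = p.1 ∧ (b : ℕ) = p.2),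
    ?_, ?_⟩
  · rw [List.mem_sublists']
    exact List.filter_sublist
  · ext a b
    rw [gr_adj]
    have key : ∀ a b : Fin v, (((a : ℕ), (b : ℕ)) ∈ (pairs v).filter
        (fun p => ∃ a b : Fin v, G.Adj a b ∧ (a : ℕ) = p.1 ∧ (b : ℕ) = p.2)) ↔ G.Adj a b := by
      intro a b
      rw [List.mem_filter, mem_pairs]
      simp only [decide_eq_true_eq]
      constructor
      · rintro ⟨-, a', b', h, ha, hb⟩
        rwa [Fin.ext ha, Fin.ext hb] at h
      · intro h
        exact ⟨⟨a.2, b.2⟩, a, b, h, rfl, rfl⟩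
    change a ≠ b ∧ ((((a : ℕ), (b : ℕ)) ∈ (pairs v).filter
        (fun p => ∃ a b : Fin v, G.Adj a b ∧ (a : ℕ) = p.1 ∧ (b : ℕ) = p.2)) ∨
      (((b : ℕ), (a : ℕ)) ∈ (pairs v).filter
        (fun p => ∃ a b : Fin v, G.Adj a b ∧ (a : ℕ) = p.1 ∧ (b : ℕ) = p.2))) ↔ G.Adj a b
    rw [key, key, G.adj_comm b a, or_self]
    exact ⟨fun h => h.2, fun h => ⟨h.ne, h⟩⟩

theorem pr_sublists'' : Primrec (fun l : List (ℕ × ℕ) => l.sublists') := by
  have h : Primrec (fun l : List (ℕ × ℕ) => l.foldr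
      (fun a r => r ++ r.map (List.cons a)) [[]]) := by
    refine Primrec.list_foldr (f := fun l : List (ℕ × ℕ) => l) (g := fun _ => [[]])
      (h := fun _ (p : (ℕ × ℕ) × List (List (ℕ × ℕ))) => p.2 ++ p.2.map (List.cons p.1))
      Primrec.id (Primrec.const _) ?_
    refine Primrec.list_append.comp (Primrec.snd.comp Primrec.snd) ?_
    refine Primrec.list_map (Primrec.snd.comp Primrec.snd) ?_
    exact Primrec.list_cons.comp (Primrec.fst.comp (Primrec.snd.comp Primrec.fst)) Primrec.snd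
  refine h.of_eq (fun l => ?_)
  induction l with
  | nil => rfl
  | cons a l ih => rw [List.foldr_cons, List.sublists'_cons, ih]

theorem pr_pairs : Primrec pairs := by
  unfold pairs
  refine Primrec.list_flatMap Primrec.list_range ?_
  refine Primrec.list_map (Primrec.list_range.comp Primrec.fst) ?_
  exact Primrec.pair (Primrec.snd.comp Primrec.fst) Primrec.snd

theorem pp_search {Q : Code × ℕ → ℕ → Prop} (hQ : PrimrecRel Q) :
    PrimrecPred (fun x : ℕ × (ℕ × ℕ) => x.1 = 0 ∨ ∀ L ∈ (pairs x.1).sublists',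
      ∃ n < x.2.1, Q ((x.1, L), n + 1) x.2.2) := by
  refine PrimrecPred.or (pp_eq Primrec.fst (Primrec.const 0)) ?_
  have b1 : Primrec (fun z : ((ℕ × (ℕ × ℕ)) × List (ℕ × ℕ)) × ℕ => z.1.1.1) :=
    Primrec.fst.comp (Primrec.fst.comp Primrec.fst)
  have b2 : Primrec (fun z : ((ℕ × (ℕ × ℕ)) × List (ℕ × ℕ)) × ℕ => z.1.2) :=
    Primrec.snd.comp Primrec.fst
  have b3 : Primrec (fun z : ((ℕ × (ℕ × ℕ)) × List (ℕ × ℕ)) × ℕ => z.2 + 1) :=
    Primrec.succ.comp Primrec.snd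
  have b4 : Primrec (fun z : ((ℕ × (ℕ × ℕ)) × List (ℕ × ℕ)) × ℕ => z.1.1.2.2) :=
    Primrec.snd.comp (Primrec.snd.comp (Primrec.fst.comp Primrec.fst))
  have b5 : Primrec (fun z : ((ℕ × (ℕ × ℕ)) × List (ℕ × ℕ)) × ℕ =>
      (((z.1.1.1, z.1.2), z.2 + 1) : Code × ℕ)) := Primrec.pair (Primrec.pair b1 b2) b3
  have b6 : PrimrecPred (fun z : ((ℕ × (ℕ × ℕ)) × List (ℕ × ℕ)) × ℕ =>
      Q ((z.1.1.1, z.1.2), z.2 + 1) z.1.1.2.2) := PrimrecRel.comp hQ b5 b4
  have b7 : PrimrecPred (fun y : (ℕ × (ℕ × ℕ)) × List (ℕ × ℕ) =>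
      ∃ n < y.1.2.1, Q ((y.1.1, y.2), n + 1) y.1.2.2) :=
    pp_ex_lt (g := fun y : (ℕ × (ℕ × ℕ)) × List (ℕ × ℕ) => y.1.2.1)
      (R := fun (y : (ℕ × (ℕ × ℕ)) × List (ℕ × ℕ)) n =>
        Q ((y.1.1, y.2), n + 1) y.1.2.2) b6 (Primrec.fst.comp (Primrec.snd.comp Primrec.fst))
  exact pp_all_mem (l := fun x : ℕ × (ℕ × ℕ) => (pairs x.1).sublists')
    (R := fun x L => ∃ n < x.2.1, Q ((x.1, L), n + 1) x.2.2) b7
    (pr_sublists''.comp (pr_pairs.comp Primrec.fst))

/-- If the capacity is computable, then a computable blocklength suffices to approximate it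
within a factor two. -/
theorem rate_two (h : ThetaComputable) :
    ∃ B : ℕ → ℕ, Computable B ∧ ∀ (v : ℕ) (G : SimpleGraph (Fin v)), 0 < v →
      ∃ n : ℕ, 0 < n ∧ n ≤ B v ∧
        theta G ^ n < (2 : ℝ) ^ n * ((spow G (Fin n)).indepNum : ℝ) := by
  have hst : Staged (fun x : Code × ℕ => theta (gr x.1) ^ x.2 <
      ((2 ^ x.2 * (gr (powc x.1 x.2)).indepNum : ℕ) : ℝ)) := by
    have h1 : Primrec (fun x : Code × ℕ =>
        (x.1, x.2, 2 ^ x.2 * (gr (powc x.1 x.2)).indepNum)) := by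
      refine Primrec.pair Primrec.fst (Primrec.pair Primrec.snd ?_)
      exact Primrec.nat_mul.comp (pr_pow.comp (Primrec.const 2) Primrec.snd)
        (pr_indepNum.comp (pr_powc Primrec.fst Primrec.snd))
    exact Staged.comp (p := fun y : Code × ℕ × ℕ => theta (gr y.1) ^ y.2.1 < ((y.2.2 : ℕ) : ℝ))
      (f := fun x : Code × ℕ => (x.1, x.2, 2 ^ x.2 * (gr (powc x.1 x.2)).indepNum))
      (staged_upper h) h1
  obtain ⟨Q, hQ, hQm, hQe⟩ := hst
  have hR := pp_search hQ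
  have hex : ∀ v : ℕ, ∃ d : ℕ × ℕ, v = 0 ∨ ∀ L ∈ (pairs v).sublists',
      ∃ n < d.1, Q ((v, L), n + 1) d.2 := by
    intro v
    rcases Nat.eq_zero_or_pos v with hv | hv
    · exact ⟨(0, 0), Or.inl hv⟩
    have hne : Nonempty (Fin v) := ⟨⟨0, hv⟩⟩
    have h1 : ∀ L : List (ℕ × ℕ), ∃ n s, Q ((v, L), n + 1) s := by
      intro L
      have h2 := one_le_theta (gr (v, L))
      obtain ⟨n, hn⟩ := exists_lt_al (gr (v, L)) (x := theta (gr (v, L)) / 2)
        (by positivity) (by linarith)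
      refine ⟨n, (hQe _).1 ?_⟩
      change theta (gr (v, L)) ^ (n + 1) <
        ((2 ^ (n + 1) * (gr (powc (v, L) (n + 1))).indepNum : ℕ) : ℝ)
      rw [indepNum_powc (v, L) hv]
      rw [div_pow, div_lt_iff₀ (by positivity)] at hn
      push_cast
      linarith
    choose nf sf hf using h1
    classical
    refine ⟨((pairs v).sublists'.toFinset.sup (fun L => nf L + 1),
      (pairs v).sublists'.toFinset.sup sf), Or.inr (fun L hL => ?_)⟩
    have hL' : L ∈ (pairs v).sublists'.toFinset := List.mem_toFinset.2 hL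
    refine ⟨nf L, ?_, hQm _ _ _ (Finset.le_sup (f := sf) hL') (hf L)⟩
    exact Nat.lt_of_succ_le (Finset.le_sup (f := fun L => nf L + 1) hL')
  obtain ⟨f, hf, hfR⟩ := exists_computable_choice hR hex
  refine ⟨fun v => (f v).1, Computable.fst.comp hf, fun v G hv => ?_⟩
  obtain ⟨L, hL, rfl⟩ := exists_gr G
  rcases hfR v with h0 | h1
  · omega
  · obtain ⟨n, hn, hQn⟩ := h1 L hL
    refine ⟨n + 1, Nat.succ_pos n, hn, ?_⟩
    have h2 := (hQe _).2 ⟨_, hQn⟩
    change theta (gr (v, L)) ^ (n + 1) <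
        ((2 ^ (n + 1) * (gr (powc (v, L) (n + 1))).indepNum : ℕ) : ℝ) at h2
    rw [indepNum_powc (v, L) hv] at h2
    push_cast at h2
    exact h2

end Pool.Agent.SC
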