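import Pool.Agent.SC.Defs

namespace Pool.Agent.SC

open SimpleGraph

variable {V W X Y I J K : Type*}

theorem sep_spow {G : SimpleGraph V} {x y : I → V} :
    (spow G I)ᶜ.Adj x y ↔ ∃ i, Gᶜ.Adj (x i) (y i) := by
  rw [compl_adj]
  constructor
  · rintro ⟨hne, h⟩
    by_contra hcon
    push Not at hcon
    apply h
    refine ⟨hne, fun i => ?_⟩
    have := hcon i
    rw [compl_adj] at this
    by_contra h2
    push Not at h2
    exact this ⟨h2.1, h2.2⟩
  · rintro ⟨i, hi⟩
    rw [compl_adj] at hi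
    refine ⟨fun e => hi.1 (by rw [e]), fun h => ?_⟩
    rcases h.2 i with h | h
    · exact hi.1 h
    · exact hi.2 h

theorem card_le_attach [Finite Y] {B : SimpleGraph Y} (C : Finset X) (f : {x // x ∈ C} → Y)
    (h : ∀ x y : {x // x ∈ C}, x ≠ y → Bᶜ.Adj (f x) (f y)) : C.card ≤ B.indepNum := by
  classical
  have hinj : Function.Injective f := by
    intro x y hxy
    by_contra hne
    have := h x y hne
    rw [hxy] at this
    exact this.ne rfl
  have h1 : (C.attach.image f).card = C.card := by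
    rw [Finset.card_image_of_injective _ hinj, Finset.card_attach]
  rw [← h1]
  apply IsIndepSet.card_le_indepNum
  intro a ha b hb hab
  simp only [Finset.coe_image, Set.mem_image, Finset.mem_coe] at ha hb
  obtain ⟨x, -, rfl⟩ := ha
  obtain ⟨y, -, rfl⟩ := hb
  have hxy : x ≠ y := fun e => hab (by rw [e])
  exact ((compl_adj _ _ _).1 (h x y hxy)).2

theorem card_le [Finite Y] {B : SimpleGraph Y} (C : Finset X) (f : X → Y)
    (h : ∀ x ∈ C, ∀ y ∈ C, x ≠ y → Bᶜ.Adj (f x) (f y)) : C.card ≤ B.indepNum :=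
  card_le_attach C (fun x => f x) (fun x y hxy => h x x.2 y y.2 (fun e => hxy (Subtype.ext e)))

theorem exists_code [Finite V] (G : SimpleGraph V) :
    ∃ C : Finset V, C.card = G.indepNum ∧ ∀ x ∈ C, ∀ y ∈ C, x ≠ y → Gᶜ.Adj x y := by
  obtain ⟨s, hs⟩ := G.exists_isNIndepSet_indepNum
  refine ⟨s, hs.card_eq, fun x hx y hy hxy => ?_⟩
  rw [compl_adj]
  exact ⟨hxy, hs.isIndepSet hx hy hxy⟩

theorem indepNum_le_of_map [Finite V] [Finite W] {A : SimpleGraph V} {B : SimpleGraph W}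
    (f : V → W) (h : ∀ x y, Aᶜ.Adj x y → Bᶜ.Adj (f x) (f y)) : A.indepNum ≤ B.indepNum := by
  obtain ⟨C, hC, hC2⟩ := exists_code A
  rw [← hC]
  exact card_le C f (fun x hx y hy hxy => h x y (hC2 x hx y hy hxy))

/-- Cohomomorphism between strong powers. -/
theorem map_spow {A : SimpleGraph V} {B : SimpleGraph W}
    (f : V → W) (h : ∀ x y, Aᶜ.Adj x y → Bᶜ.Adj (f x) (f y)) (x y : I → V)
    (hxy : (spow A I)ᶜ.Adj x y) : (spow B I)ᶜ.Adj (fun i => f (x i)) (fun i => f (y i)) := by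
  rw [sep_spow] at hxy ⊢
  obtain ⟨i, hi⟩ := hxy
  exact ⟨i, h _ _ hi⟩

theorem indepNum_spow_le_of_surj [Finite V] [Finite I] [Finite J] {G : SimpleGraph V} (e : J → I)
    (he : Function.Surjective e) : (spow G I).indepNum ≤ (spow G J).indepNum := by
  refine indepNum_le_of_map (fun x j => x (e j)) (fun x y hxy => ?_)
  rw [sep_spow] at hxy ⊢
  obtain ⟨i, hi⟩ := hxy
  obtain ⟨j, rfl⟩ := he i
  exact ⟨j, hi⟩

theorem indepNum_spow_congr [Finite V] [Finite I] [Finite J] {G : SimpleGraph V} (e : I ≃ J) :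
    (spow G I).indepNum = (spow G J).indepNum :=
  le_antisymm (indepNum_spow_le_of_surj e.symm e.symm.surjective)
    (indepNum_spow_le_of_surj e e.surjective)

/-- Independence number of the n-th strong power. -/
noncomputable def al (G : SimpleGraph V) (n : ℕ) : ℕ := (spow G (Fin n)).indepNum

theorem indepNum_spow [Finite V] [Fintype I] (G : SimpleGraph V) :
    (spow G I).indepNum = al G (Fintype.card I) :=
  indepNum_spow_congr (Fintype.equivFin I)

theorem indepNum_spow' [Finite V] [Fintype I] (G : SimpleGraph V) (n : ℕ)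
    (h : Fintype.card I = n) : (spow G I).indepNum = al G n := by
  rw [indepNum_spow, h]

theorem al_zero [Finite V] (G : SimpleGraph V) : al G 0 = 1 := by
  apply le_antisymm
  · obtain ⟨C, hC, -⟩ := exists_code (spow G (Fin 0))
    unfold al
    rw [← hC]
    exact Finset.card_le_one_of_subsingleton C
  · have h : ({(fun i => i.elim0 : Fin 0 → V)} : Finset (Fin 0 → V)).card ≤
        (spow G (Fin 0)).indepNum :=
      card_le _ id (fun x hx y hy hxy => absurd (Subsingleton.elim x y) hxy)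
    rw [Finset.card_singleton] at h
    exact h

theorem al_add [Finite V] (G : SimpleGraph V) (a b : ℕ) : al G a * al G b ≤ al G (a + b) := by
  obtain ⟨C, hC, hC2⟩ := exists_code (spow G (Fin a))
  obtain ⟨D, hD, hD2⟩ := exists_code (spow G (Fin b))
  have h1 : (C ×ˢ D).card = al G a * al G b := by
    rw [Finset.card_product, hC, hD]; rfl
  have h2 : (spow G (Fin a ⊕ Fin b)).indepNum = al G (a + b) :=
    indepNum_spow' G _ (by simp)
  rw [← h1, ← h2]
  refine card_le _ (fun p => Sum.elim p.1 p.2) ?_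
  rintro ⟨x, x'⟩ hx ⟨y, y'⟩ hy hxy
  rw [Finset.mem_product] at hx hy
  rw [sep_spow]
  by_cases h : x = y
  · have h' : x' ≠ y' := fun e => hxy (by rw [h, e])
    obtain ⟨i, hi⟩ := sep_spow.1 (hD2 x' hx.2 y' hy.2 h')
    exact ⟨Sum.inr i, hi⟩
  · obtain ⟨i, hi⟩ := sep_spow.1 (hC2 x hx.1 y hy.1 h)
    exact ⟨Sum.inl i, hi⟩

theorem indepNum_curry [Finite V] [Finite I] [Finite K] (G : SimpleGraph V) :
    (spow (spow G I) K).indepNum = (spow G (K × I)).indepNum := by
  apply le_antisymm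
  · refine indepNum_le_of_map (fun x p => x p.1 p.2) (fun x y hxy => ?_)
    rw [sep_spow] at hxy ⊢
    obtain ⟨k, hk⟩ := hxy
    obtain ⟨i, hi⟩ := sep_spow.1 hk
    exact ⟨(k, i), hi⟩
  · refine indepNum_le_of_map (fun x k i => x (k, i)) (fun x y hxy => ?_)
    rw [sep_spow] at hxy
    obtain ⟨⟨k, i⟩, hi⟩ := hxy
    exact sep_spow.2 ⟨k, sep_spow.2 ⟨i, hi⟩⟩

theorem al_spow [Finite V] (G : SimpleGraph V) (a n : ℕ) :
    al (spow G (Fin a)) n = al G (n * a) := by
  unfold al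
  rw [indepNum_curry]
  exact indepNum_spow' G _ (by simp)

theorem pow_le_al_one [Finite V] (G : SimpleGraph V) (k : ℕ) : G.indepNum ^ k ≤ al G k := by
  obtain ⟨C, hC, hC2⟩ := exists_code G
  have h1 : (Fintype.piFinset (fun _ : Fin k => C)).card = G.indepNum ^ k := by
    rw [Fintype.card_piFinset_const, hC]
  rw [← h1]
  refine card_le _ id ?_
  intro x hx y hy hxy
  rw [sep_spow]
  obtain ⟨i, hi⟩ := Function.ne_iff.1 hxy
  rw [Fintype.mem_piFinset] at hx hy
  exact ⟨i, hC2 _ (hx i) _ (hy i) hi⟩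

theorem al_pow [Finite V] (G : SimpleGraph V) (a k : ℕ) : al G a ^ k ≤ al G (k * a) := by
  rw [← al_spow]
  exact pow_le_al_one _ k

theorem al_one_le [Finite V] [Nonempty V] (G : SimpleGraph V) (n : ℕ) : 1 ≤ al G n := by
  obtain ⟨v⟩ := ‹Nonempty V›
  have h : ({(fun _ => v : Fin n → V)} : Finset (Fin n → V)).card ≤
      (spow G (Fin n)).indepNum := by
    refine card_le _ id ?_
    intro x hx y hy hxy
    rw [Finset.mem_singleton] at hx hy
    exact absurd (hx.trans hy.symm) hxy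
  rw [Finset.card_singleton] at h
  exact h

theorem al_mono [Finite V] [Nonempty V] (G : SimpleGraph V) {a b : ℕ} (h : a ≤ b) :
    al G a ≤ al G b := by
  obtain ⟨c, rfl⟩ := Nat.exists_eq_add_of_le h
  calc al G a = al G a * 1 := (mul_one _).symm
    _ ≤ al G a * al G c := Nat.mul_le_mul_left _ (al_one_le G c)
    _ ≤ al G (a + c) := al_add G a c

theorem al_le_card [Fintype V] (G : SimpleGraph V) (n : ℕ) :
    al G n ≤ Fintype.card V ^ n := by
  obtain ⟨C, hC, -⟩ := exists_code (spow G (Fin n))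
  unfold al
  rw [← hC]
  calc C.card ≤ Fintype.card (Fin n → V) := Finset.card_le_univ C
    _ = Fintype.card V ^ n := by simp

theorem rpow_inv_le {a b : ℝ} (ha : 0 ≤ a) (hb : 0 ≤ b) {n : ℕ} (hn : n ≠ 0)
    (h : a ≤ b ^ n) : a ^ (1 / (n : ℝ)) ≤ b := by
  have h1 : a ^ (1 / (n : ℝ)) ≤ (b ^ n) ^ (1 / (n : ℝ)) :=
    Real.rpow_le_rpow ha h (by positivity)
  rw [one_div] at h1 ⊢
  rwa [Real.pow_rpow_inv_natCast hb hn] at h1

theorem le_pow_of_rpow_inv_le {a b : ℝ} (ha : 0 ≤ a) {n : ℕ} (hn : n ≠ 0)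
    (h : a ^ (1 / (n : ℝ)) ≤ b) : a ≤ b ^ n := by
  have h1 : (a ^ (1 / (n : ℝ))) ^ n ≤ b ^ n := pow_le_pow_left₀ (by positivity) h n
  rwa [one_div, Real.rpow_inv_natCast_pow ha hn] at h1

theorem term_le [Fintype V] (G : SimpleGraph V) (n : ℕ) :
    ((spow G (Fin (n + 1))).indepNum : ℝ) ^ (1 / ((n : ℝ) + 1)) ≤ Fintype.card V := by
  have h := rpow_inv_le (a := (al G (n + 1) : ℝ)) (b := (Fintype.card V : ℝ)) (by positivity)
    (by positivity) (Nat.succ_ne_zero n) (by exact_mod_cast al_le_card G (n + 1))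
  simpa [al] using h

theorem bdd [Finite V] (G : SimpleGraph V) : BddAbove (Set.range
    (fun n : ℕ => ((spow G (Fin (n + 1))).indepNum : ℝ) ^ (1 / ((n : ℝ) + 1)))) := by
  have := Fintype.ofFinite V
  refine ⟨Fintype.card V, ?_⟩
  rintro _ ⟨n, rfl⟩
  exact term_le G n

theorem theta_nonneg (G : SimpleGraph V) : 0 ≤ theta G :=
  Real.iSup_nonneg (fun n => by positivity)

/-- (T1) every power gives a lower bound. -/
theorem al_le_theta [Finite V] (G : SimpleGraph V) (n : ℕ) : (al G n : ℝ) ≤ theta G ^ n := by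
  rcases n with - | n
  · simp [al_zero]
  · have h := le_ciSup (bdd G) n
    apply le_pow_of_rpow_inv_le (by positivity) (Nat.succ_ne_zero n)
    have h2 : (1 / (((n + 1 : ℕ) : ℝ))) = 1 / ((n : ℝ) + 1) := by push_cast; ring
    rw [h2]
    exact h

theorem theta_le [Finite V] (G : SimpleGraph V) {b : ℝ} (hb : 0 ≤ b)
    (h : ∀ n : ℕ, (al G (n + 1) : ℝ) ≤ b ^ (n + 1)) : theta G ≤ b := by
  apply ciSup_le
  intro n
  have h2 : (1 / ((n : ℝ) + 1)) = (1 / (((n + 1 : ℕ) : ℝ))) := by push_cast; ring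
  rw [h2]
  exact rpow_inv_le (by positivity) hb (Nat.succ_ne_zero n) (h n)

/-- (T2) an exponential bound along the multiples of d. -/
theorem theta_pow_le [Finite V] (G : SimpleGraph V) {b : ℝ} (hb : 0 ≤ b) {d : ℕ} (hd : d ≠ 0)
    (h : ∀ L : ℕ, (al G (d * (L + 1)) : ℝ) ≤ b ^ (L + 1)) : theta G ^ d ≤ b := by
  have h1 : theta G ≤ b ^ (1 / (d : ℝ)) := by
    apply theta_le G (by positivity)
    intro n
    have h2 : ((al G (n + 1) : ℝ)) ^ d ≤ b ^ (n + 1) := by
      refine le_trans ?_ (h n)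
      exact_mod_cast al_pow G (n + 1) d
    have h3 : (al G (n + 1) : ℝ) ≤ (b ^ (n + 1)) ^ (1 / (d : ℝ)) := by
      have := Real.rpow_le_rpow (by positivity) h2 (show (0 : ℝ) ≤ 1 / (d : ℝ) by positivity)
      rwa [one_div, Real.pow_rpow_inv_natCast (by positivity) hd, ← one_div] at this
    calc (al G (n + 1) : ℝ) ≤ (b ^ (n + 1)) ^ (1 / (d : ℝ)) := h3
      _ = (b ^ (1 / (d : ℝ))) ^ (n + 1) := by
          rw [← Real.rpow_natCast, ← Real.rpow_natCast, ← Real.rpow_mul hb, ← Real.rpow_mul hb,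
            mul_comm]
  calc theta G ^ d ≤ (b ^ (1 / (d : ℝ))) ^ d := pow_le_pow_left₀ (theta_nonneg G) h1 d
    _ = b := by rw [one_div, Real.rpow_inv_natCast_pow hb hd]

/-- (T3) monotonicity. -/
theorem theta_mono [Finite V] [Finite W] {A : SimpleGraph V} {B : SimpleGraph W}
    (f : V → W) (h : ∀ x y, Aᶜ.Adj x y → Bᶜ.Adj (f x) (f y)) : theta A ≤ theta B := by
  apply theta_le A (theta_nonneg B)
  intro n
  refine le_trans ?_ (al_le_theta B (n + 1))
  have : al A (n + 1) ≤ al B (n + 1) :=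
    indepNum_le_of_map (fun x i => f (x i)) (fun x y hxy => map_spow f h x y hxy)
  exact_mod_cast this

theorem theta_congr [Finite V] [Finite W] {A : SimpleGraph V} {B : SimpleGraph W} (e : A ≃g B) :
    theta A = theta B := by
  apply le_antisymm
  · refine theta_mono e (fun x y hxy => ?_)
    rw [compl_adj] at hxy ⊢
    exact ⟨fun h => hxy.1 (e.injective h), fun h => hxy.2 (e.map_adj_iff.1 h)⟩
  · refine theta_mono e.symm (fun x y hxy => ?_)
    rw [compl_adj] at hxy ⊢
    exact ⟨fun h => hxy.1 (e.symm.injective h), fun h => hxy.2 (e.symm.map_adj_iff.1 h)⟩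

theorem indepNum_congr [Finite V] [Finite W] {A : SimpleGraph V} {B : SimpleGraph W}
    (e : A ≃g B) : A.indepNum = B.indepNum := by
  apply le_antisymm
  · refine indepNum_le_of_map e (fun x y hxy => ?_)
    rw [compl_adj] at hxy ⊢
    exact ⟨fun h => hxy.1 (e.injective h), fun h => hxy.2 (e.map_adj_iff.1 h)⟩
  · refine indepNum_le_of_map e.symm (fun x y hxy => ?_)
    rw [compl_adj] at hxy ⊢
    exact ⟨fun h => hxy.1 (e.symm.injective h), fun h => hxy.2 (e.symm.map_adj_iff.1 h)⟩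

theorem indepNum_le_theta [Finite V] (G : SimpleGraph V) : (G.indepNum : ℝ) ≤ theta G := by
  have h := al_le_theta G 1
  have h2 := pow_le_al_one G 1
  rw [pow_one] at h h2
  exact le_trans (by exact_mod_cast h2) h

/-- (T8) -/
theorem one_le_theta [Finite V] [Nonempty V] (G : SimpleGraph V) : 1 ≤ theta G := by
  have h := al_le_theta G 1
  rw [pow_one] at h
  exact le_trans (by exact_mod_cast al_one_le G 1) h

/-- (T7) -/
theorem exists_lt_al [Finite V] (G : SimpleGraph V) {x : ℝ} (hx : 0 ≤ x) (h : x < theta G) :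
    ∃ n : ℕ, x ^ (n + 1) < al G (n + 1) := by
  obtain ⟨n, hn⟩ := exists_lt_of_lt_ciSup h
  refine ⟨n, ?_⟩
  by_contra hcon
  push Not at hcon
  have h2 : (1 / ((n : ℝ) + 1)) = (1 / (((n + 1 : ℕ) : ℝ))) := by push_cast; ring
  rw [h2] at hn
  exact absurd (rpow_inv_le (by positivity) hx (Nat.succ_ne_zero n) hcon) (not_le.2 hn)

/-- The capacity of a subgraph of a power. -/
theorem theta_le_pow_of_map [Finite V] [Finite W] {A : SimpleGraph W} (G : SimpleGraph V)
    (M : ℕ) (f : W → (Fin M → V)) (h : ∀ x y, Aᶜ.Adj x y → (spow G (Fin M))ᶜ.Adj (f x) (f y)) :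
    theta A ≤ theta G ^ M := by
  refine le_trans (theta_mono f h) ?_
  apply theta_le _ (pow_nonneg (theta_nonneg G) M)
  intro n
  rw [al_spow, ← pow_mul, mul_comm M]
  exact al_le_theta G _

/-- (L4) -/
theorem exists_lower [Finite V] [Nonempty V] (G : SimpleGraph V) {x : ℝ} (hx : 0 ≤ x)
    (h : x < theta G) : ∃ c : ℝ, 0 < c ∧ ∀ k : ℕ, c * x ^ k ≤ al G k := by
  obtain ⟨n, hn⟩ := exists_lt_al G hx h
  set d := n + 1 with hd
  have hm : (1 : ℝ) ≤ max 1 x := le_max_left _ _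
  refine ⟨1 / (max 1 x) ^ d, by positivity, fun k => ?_⟩
  have h1 : x ^ k ≤ (x ^ d) ^ (k / d) * (max 1 x) ^ d := by
    calc x ^ k = x ^ (d * (k / d)) * x ^ (k % d) := by rw [← pow_add, Nat.div_add_mod]
      _ = (x ^ d) ^ (k / d) * x ^ (k % d) := by rw [pow_mul]
      _ ≤ (x ^ d) ^ (k / d) * (max 1 x) ^ d := by
          apply mul_le_mul_of_nonneg_left _ (by positivity)
          calc x ^ (k % d) ≤ (max 1 x) ^ (k % d) :=
                pow_le_pow_left₀ hx (le_max_right _ _) _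
            _ ≤ (max 1 x) ^ d := pow_le_pow_right₀ hm (Nat.mod_lt _ (by omega)).le
  have h2 : (x ^ d) ^ (k / d) ≤ al G k := by
    calc (x ^ d) ^ (k / d) ≤ ((al G d : ℕ) : ℝ) ^ (k / d) :=
          pow_le_pow_left₀ (by positivity) hn.le _
      _ ≤ (al G (k / d * d) : ℝ) := by exact_mod_cast al_pow G d (k / d)
      _ ≤ al G k := by exact_mod_cast al_mono G (Nat.div_mul_le_self k d)
  have hp : (0 : ℝ) < (max 1 x) ^ d := by positivity
  calc 1 / (max 1 x) ^ d * x ^ k ≤ 1 / (max 1 x) ^ d * ((x ^ d) ^ (k / d) * (max 1 x) ^ d) :=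
        mul_le_mul_of_nonneg_left h1 (by positivity)
    _ = (x ^ d) ^ (k / d) := by field_simp
    _ ≤ al G k := h2

/-- (L3) -/
theorem theta_le_of_const [Finite V] (G : SimpleGraph V) {b c : ℝ} (hb : 0 < b)
    (h : ∀ n : ℕ, (al G n : ℝ) ≤ c * b ^ n) : theta G ≤ b := by
  apply theta_le G hb.le
  intro n
  by_contra hcon
  push Not at hcon
  have hpos : (0 : ℝ) < b ^ (n + 1) := by positivity
  have hr : 1 < (al G (n + 1) : ℝ) / b ^ (n + 1) := by rwa [one_lt_div hpos]
  obtain ⟨k, hk⟩ := pow_unbounded_of_one_lt c hr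
  have h2 : ((al G (n + 1) : ℝ)) ^ k ≤ c * b ^ (k * (n + 1)) := by
    refine le_trans ?_ (h _)
    exact_mod_cast al_pow G (n + 1) k
  rw [div_pow, lt_div_iff₀ (by positivity), ← pow_mul, mul_comm (n + 1) k] at hk
  exact absurd h2 (not_le.2 hk)

end Pool.Agent.SC
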