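import Pool.Agent.SC.Final

namespace Pool.Agent.SC

open SimpleGraph

variable {V : Type*} {α : Type*} [Primcodable α]

/-- The strong product of G with an edgeless graph on j vertices and a complete graph on i
vertices. -/
def pad (G : SimpleGraph V) (j i : ℕ) : SimpleGraph ((V × Fin j) × Fin i) where
  Adj p q := p ≠ q ∧ p.1.2 = q.1.2 ∧ (p.1.1 = q.1.1 ∨ G.Adj p.1.1 q.1.1)
  symm := ⟨fun _ _ h => ⟨h.1.symm, h.2.1.symm, h.2.2.imp Eq.symm (fun e => e.symm)⟩⟩
  loopless := ⟨fun _ h => h.1 rfl⟩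

theorem sep_pad {G : SimpleGraph V} {j i : ℕ} {p q : (V × Fin j) × Fin i} :
    (pad G j i)ᶜ.Adj p q ↔ p.1.2 ≠ q.1.2 ∨ Gᶜ.Adj p.1.1 q.1.1 := by
  rw [compl_adj, compl_adj]
  unfold pad
  constructor
  · rintro ⟨h1, h2⟩
    by_contra hcon
    push Not at hcon
    obtain ⟨h3, h4⟩ := hcon
    apply h2
    refine ⟨h1, h3, ?_⟩
    by_contra h5
    push Not at h5
    exact h5.2 (h4 h5.1)
  · rintro (h | h)
    · exact ⟨fun e => h (by rw [e]), fun h2 => h h2.2.1⟩
    · refine ⟨fun e => h.1 (by rw [e]), ?_⟩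
      rintro ⟨-, -, h3 | h3⟩
      · exact h.1 h3
      · exact h.2 h3

theorem al_pad [Finite V] (G : SimpleGraph V) (j i : ℕ) (hi : 0 < i) (n : ℕ) :
    al (pad G j i) n = j ^ n * al G n := by
  classical
  have hcard : (Finset.univ : Finset (Fin n → Fin j)).card = j ^ n := by simp
  apply le_antisymm
  · obtain ⟨C, hC, hC2⟩ := exists_code (spow (pad G j i) (Fin n))
    have h1 : C.card ≤ al G n * (Finset.univ : Finset (Fin n → Fin j)).card := by
      refine Finset.card_le_mul_card_image_of_maps_to (f := fun x k => (x k).1.2)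
        (fun _ _ => Finset.mem_univ _) _ ?_
      intro a _
      refine card_le _ (fun x k => (x k).1.1) ?_
      intro x hx y hy hxy
      rw [Finset.mem_filter] at hx hy
      obtain ⟨k, hk⟩ := sep_spow.1 (hC2 x hx.1 y hy.1 hxy)
      rw [sep_pad] at hk
      rw [sep_spow]
      refine ⟨k, hk.resolve_left (fun h => h ?_)⟩
      have h1 := congrFun hx.2 k
      have h2 := congrFun hy.2 k
      exact h1.trans h2.symm
    rw [hcard, mul_comm] at h1
    unfold al at h1 ⊢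
    rw [← hC]
    exact h1
  · obtain ⟨D, hD, hD2⟩ := exists_code (spow G (Fin n))
    have h1 : (D ×ˢ (Finset.univ : Finset (Fin n → Fin j))).card = j ^ n * al G n := by
      rw [Finset.card_product, hcard, hD, mul_comm]
      rfl
    rw [← h1]
    refine card_le _ (fun p k => ((p.1 k, p.2 k), ⟨0, hi⟩)) ?_
    rintro ⟨x, a⟩ hx ⟨y, b⟩ hy hxy
    rw [Finset.mem_product] at hx hy
    rw [sep_spow]
    by_cases hab : a = b
    · have hne : x ≠ y := fun e => hxy (by rw [e, hab])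
      obtain ⟨k, hk⟩ := sep_spow.1 (hD2 x hx.1 y hy.1 hne)
      exact ⟨k, sep_pad.2 (Or.inr hk)⟩
    · obtain ⟨k, hk⟩ := Function.ne_iff.1 hab
      exact ⟨k, sep_pad.2 (Or.inl hk)⟩

theorem theta_pad [Finite V] (G : SimpleGraph V) (j i : ℕ) (hj : 0 < j) (hi : 0 < i) :
    theta (pad G j i) = j * theta G := by
  have hj' : (0 : ℝ) < j := by exact_mod_cast hj
  apply le_antisymm
  · apply theta_le _ (mul_nonneg hj'.le (theta_nonneg G))
    intro n
    rw [al_pad G j i hi, mul_pow]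
    push_cast
    exact mul_le_mul_of_nonneg_left (al_le_theta G _) (by positivity)
  · rw [← le_div_iff₀' hj']
    apply theta_le _ (div_nonneg (theta_nonneg _) hj'.le)
    intro n
    rw [div_pow, le_div_iff₀ (by positivity)]
    have h := al_le_theta (pad G j i) (n + 1)
    rw [al_pad G j i hi] at h
    push_cast at h
    linarith

theorem cayley_pad {G : SimpleGraph V} (h : IsCayley G) (j i : ℕ) (hj : 0 < j) (hi : 0 < i) :
    IsCayley (pad G j i) := by
  obtain ⟨Γ, i1, i2, S, ⟨e⟩⟩ := h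
  have hj' : NeZero j := ⟨hj.ne'⟩
  have hi' : NeZero i := ⟨hi.ne'⟩
  let ej : Fin j ≃ Multiplicative (ZMod j) :=
    (Fintype.equivOfCardEq (by simp [ZMod.card])).trans Multiplicative.ofAdd
  let ei : Fin i ≃ Multiplicative (ZMod i) :=
    (Fintype.equivOfCardEq (by simp [ZMod.card])).trans Multiplicative.ofAdd
  refine ⟨(Γ × Multiplicative (ZMod j)) × Multiplicative (ZMod i), inferInstance, ?_,
    {p | p.1.2 = 1 ∧ (p.1.1 = 1 ∨ p.1.1 ∈ S)}, ⟨⟨Equiv.prodCongr (Equiv.prodCongr e.toEquiv ej) ei,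
    ?_⟩⟩⟩
  · have : Finite (Multiplicative (ZMod j)) := Finite.of_equiv _ ej
    have : Finite (Multiplicative (ZMod i)) := Finite.of_equiv _ ei
    infer_instance
  · rintro ⟨⟨x1, a1⟩, b1⟩ ⟨⟨x2, a2⟩, b2⟩
    unfold cayley pad
    rw [SimpleGraph.fromRel_adj]
    simp only [Equiv.prodCongr_apply, Prod.map_apply, ne_eq, Prod.mk.injEq,
      EmbeddingLike.apply_eq_iff_eq, RelIso.coe_fn_toEquiv, Set.mem_ofPred_eq, Prod.fst_mul,
      Prod.snd_mul, Prod.fst_inv, Prod.snd_inv, mul_inv_eq_one]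
    have hG : G.Adj x1 x2 ↔ x1 ≠ x2 ∧ (e x1 * (e x2)⁻¹ ∈ S ∨ e x2 * (e x1)⁻¹ ∈ S) := by
      have hcay : ∀ a b : Γ, (cayley S).Adj a b ↔ a ≠ b ∧ (a * b⁻¹ ∈ S ∨ b * a⁻¹ ∈ S) := by
        intro a b
        unfold cayley
        rw [SimpleGraph.fromRel_adj]
      rw [← e.map_adj_iff, hcay]
      exact and_congr_left' (not_congr e.injective.eq_iff)
    rw [hG]
    constructor
    · rintro ⟨h1, ⟨h2, h3⟩ | ⟨h2, h3⟩⟩
      · refine ⟨h1, h2, ?_⟩
        by_cases hx : x1 = x2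
        · exact Or.inl hx
        · exact Or.inr ⟨hx, h3.elim (fun h => absurd h hx) Or.inl⟩
      · refine ⟨h1, h2.symm, ?_⟩
        by_cases hx : x1 = x2
        · exact Or.inl hx
        · exact Or.inr ⟨hx, h3.elim (fun h => absurd h.symm hx) Or.inr⟩
    · rintro ⟨h1, h2, h3 | ⟨h3, h4 | h4⟩⟩
      · exact ⟨h1, Or.inl ⟨h2, Or.inl h3⟩⟩
      · exact ⟨h1, Or.inl ⟨h2, Or.inr h4⟩⟩
      · exact ⟨h1, Or.inr ⟨h2.symm, Or.inr h4⟩⟩

/-- Code of pad. -/
noncomputable def padc (c : Code) (j i : ℕ) : Code :=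
  mkc (c.1 * j * i) (fun y z => ¬ (y / i % j ≠ z / i % j ∨ esep c (y / i / j) (z / i / j)))

theorem pr_padc {fc : α → Code} {fj fi : α → ℕ} (hc : Primrec fc) (hj : Primrec fj)
    (hi : Primrec fi) : Primrec (fun a => padc (fc a) (fj a) (fi a)) := by
  unfold padc
  refine pr_mkc (A := fun a y z => ¬ (y / fi a % fj a ≠ z / fi a % fj a ∨
    esep (fc a) (y / fi a / fj a) (z / fi a / fj a)))
    (Primrec.nat_mul.comp (Primrec.nat_mul.comp (Primrec.fst.comp hc) hj) hi)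
    (PrimrecPred.not (PrimrecPred.or (PrimrecPred.not ?_) ?_))
  · have h1 : Primrec (fun p : α × (ℕ × ℕ) => p.2.1 / fi p.1) :=
      Primrec.nat_div.comp (Primrec.fst.comp Primrec.snd) (hi.comp Primrec.fst)
    have h2 : Primrec (fun p : α × (ℕ × ℕ) => p.2.2 / fi p.1) :=
      Primrec.nat_div.comp (Primrec.snd.comp Primrec.snd) (hi.comp Primrec.fst)
    exact pp_eq (Primrec.nat_mod.comp h1 (hj.comp Primrec.fst))
      (Primrec.nat_mod.comp h2 (hj.comp Primrec.fst))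
  · have h1 : Primrec (fun p : α × (ℕ × ℕ) => p.2.1 / fi p.1) :=
      Primrec.nat_div.comp (Primrec.fst.comp Primrec.snd) (hi.comp Primrec.fst)
    have h2 : Primrec (fun p : α × (ℕ × ℕ) => p.2.2 / fi p.1) :=
      Primrec.nat_div.comp (Primrec.snd.comp Primrec.snd) (hi.comp Primrec.fst)
    exact pp_esep (hc.comp Primrec.fst) (Primrec.nat_div.comp h1 (hj.comp Primrec.fst))
      (Primrec.nat_div.comp h2 (hj.comp Primrec.fst))

theorem padc_aux (c : Code) (j i : ℕ) (y z : Fin (c.1 * j * i)) :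
    let e : Fin (c.1 * j * i) ≃ (Fin c.1 × Fin j) × Fin i :=
      finProdFinEquiv.symm.trans (Equiv.prodCongr finProdFinEquiv.symm (Equiv.refl _))
    (pad (gr c) j i)ᶜ.Adj (e y) (e z) ↔
      ((y : ℕ) / i % j ≠ (z : ℕ) / i % j ∨ esep c ((y : ℕ) / i / j) ((z : ℕ) / i / j)) := by
  intro e
  rw [sep_pad, sep_gr]
  have h1 : ∀ y : Fin (c.1 * j * i), (((e y).1.2 : Fin j) : ℕ) = (y : ℕ) / i % j := by
    intro y
    simp [e, finProdFinEquiv, Fin.divNat, Fin.modNat]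
  have h2 : ∀ y : Fin (c.1 * j * i), (((e y).1.1 : Fin c.1) : ℕ) = (y : ℕ) / i / j := by
    intro y
    simp [e, finProdFinEquiv, Fin.divNat, Fin.modNat]
  rw [h2, h2, Ne, Fin.ext_iff, h1, h1]
  rfl

/-- The graph coded by padc. -/
noncomputable def padc_iso (c : Code) (j i : ℕ) : gr (padc c j i) ≃g pad (gr c) j i where
  toEquiv := (finProdFinEquiv.symm.trans (Equiv.prodCongr finProdFinEquiv.symm (Equiv.refl _)) :
    Fin (c.1 * j * i) ≃ (Fin c.1 × Fin j) × Fin i)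
  map_rel_iff' := by
    intro a b
    have key : ∀ x y : ℕ, (x, y) ∈ (padc c j i).2 ↔
        x < c.1 * j * i ∧ y < c.1 * j * i ∧
          ¬ (x / i % j ≠ y / i % j ∨ esep c (x / i / j) (y / i / j)) := fun x y => mem_mkc
    have hcomm : ∀ x y : ℕ, (x / i % j ≠ y / i % j ∨ esep c (x / i / j) (y / i / j)) ↔
        (y / i % j ≠ x / i % j ∨ esep c (y / i / j) (x / i / j)) := by
      intro x y
      rw [ne_comm, esep_comm]
    rw [gr_adj, key, key, hcomm (b : ℕ)]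
    have h1 := padc_aux c j i a b
    have ha : (a : ℕ) < c.1 * j * i := a.2
    have hb : (b : ℕ) < c.1 * j * i := b.2
    dsimp only at h1
    rw [← h1]
    simp only [ha, hb, true_and, or_self]
    rw [compl_adj]
    constructor
    · intro h
      refine ⟨fun e => h.ne (by rw [e]), fun h2 => h2.2 h⟩
    · rintro ⟨h2, h3⟩
      by_contra h4
      exact h3 ⟨fun e => h2 (Equiv.injective _ e), h4⟩

theorem sqrt_of_rate {R : ℕ → ℕ} {C : GraphClass} {B : ℕ → ℕ} (hB : Computable B)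
    (h : BoundsRate R C B) :
    ∃ P : Code → Prop, ComputablePred P ∧ SolvesSqrt R C P := by
  refine ⟨fun x => ∀ n < B x.1 + 1, (gr (powc x n)).indepNum ^ 2 ≤ x.1 ^ n, ?_, ?_⟩
  · have hp : PrimrecPred (fun y : ℕ × Code =>
        ∀ n < y.1 + 1, (gr (powc y.2 n)).indepNum ^ 2 ≤ y.2.1 ^ n) := by
      refine pp_all_lt (R := fun (y : ℕ × Code) n =>
        (gr (powc y.2 n)).indepNum ^ 2 ≤ y.2.1 ^ n) ?_ (Primrec.succ.comp Primrec.fst)
      have a1 : Primrec (fun z : (ℕ × Code) × ℕ => z.1.2) := Primrec.snd.comp Primrec.fst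
      exact pp_le (pr_pow.comp (pr_indepNum.comp (pr_powc a1 Primrec.snd)) (Primrec.const 2))
        (pr_pow.comp (Primrec.fst.comp a1) Primrec.snd)
    have hc : Computable (fun x : Code => (B x.1, x)) :=
      Computable.pair (hB.comp Primrec.fst.to_comp) Computable.id
    exact cp_comp hp hc
  · intro c hc hC
    have hsq : ∀ n : ℕ, (Real.sqrt c.1 ^ n) ^ 2 = (c.1 : ℝ) ^ n := by
      intro n
      rw [← pow_mul, mul_comm, pow_mul, Real.sq_sqrt (Nat.cast_nonneg _)]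
    constructor
    · intro hth n _
      rw [indepNum_powc c hc]
      have h1 : (al (gr c) n : ℝ) ≤ Real.sqrt c.1 ^ n := al_pow_le (gr c) hth n
      have h2 : ((al (gr c) n : ℝ)) ^ 2 ≤ (c.1 : ℝ) ^ n := by
        rw [← hsq n]
        exact pow_le_pow_left₀ (by positivity) h1 2
      exact_mod_cast h2
    · intro hth hP
      obtain ⟨n, hn0, hn, hlt⟩ := h c.1 (gr c) hc hC
      have h1 : (gr (powc c n)).indepNum ^ 2 ≤ c.1 ^ n := hP n (Nat.lt_succ_of_le hn)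
      rw [indepNum_powc c hc] at h1
      have h1' : (((spow (gr c) (Fin n)).indepNum : ℝ)) ^ 2 ≤ (Real.sqrt c.1 ^ n) ^ 2 := by
        rw [hsq n]
        exact_mod_cast h1
      have h1'' : ((spow (gr c) (Fin n)).indepNum : ℝ) ≤ Real.sqrt c.1 ^ n :=
        le_of_pow_le_pow_left₀ (by norm_num) (by positivity) h1'
      have h2 : ((R c.1 : ℝ) * Real.sqrt c.1) ^ n ≤ theta (gr c) ^ n :=
        pow_le_pow_left₀ (by positivity) hth n
      have h3 : (R c.1 : ℝ) ^ n * ((spow (gr c) (Fin n)).indepNum : ℝ) ≤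
          ((R c.1 : ℝ) * Real.sqrt c.1) ^ n := by
        rw [mul_pow]
        exact mul_le_mul_of_nonneg_left h1'' (by positivity)
      linarith

theorem subpoly_sup {R : ℕ → ℕ} (h : Subpoly R) :
    Subpoly (fun u => (Finset.range (u ^ 4 + 1)).sup R) := by
  intro e
  obtain ⟨C, hC⟩ := h (4 * e)
  refine ⟨C + 1, fun u => ?_⟩
  obtain ⟨y, hy, hRy⟩ := Finset.exists_mem_eq_sup (Finset.range (u ^ 4 + 1)) ⟨0, by simp⟩ R
  rw [Finset.mem_range] at hy
  change ((Finset.range (u ^ 4 + 1)).sup R) ^ e ≤ (C + 1) * (u + 1)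
  rw [hRy]
  have h1 : (R y ^ e) ^ 4 ≤ ((C + 1) * (u + 1)) ^ 4 := by
    calc (R y ^ e) ^ 4 = R y ^ (4 * e) := by rw [← pow_mul, mul_comm]
      _ ≤ C * (y + 1) := hC y
      _ ≤ (C + 1) ^ 4 * (u + 1) ^ 4 := by
          apply Nat.mul_le_mul
          · calc C ≤ C + 1 := Nat.le_succ C
              _ ≤ (C + 1) ^ 4 := Nat.le_self_pow (by norm_num) _
          · have : y ≤ u ^ 4 := Nat.lt_succ_iff.1 hy
            have h2 : u ^ 4 + 1 ≤ (u + 1) ^ 4 := by
              ring_nf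
              nlinarith [Nat.zero_le u, Nat.zero_le (u ^ 2), Nat.zero_le (u ^ 3)]
            omega
      _ = ((C + 1) * (u + 1)) ^ 4 := by rw [mul_pow]
  exact le_of_pow_le_pow_left₀ (by norm_num) (Nat.zero_le _) h1

theorem computable_of_sqrt {R : ℕ → ℕ} (hR : Computable R) (hRs : Subpoly R)
    {P : Code → Prop} (hP : REPred P) (h : SolvesSqrt R cayleyGraphs P) :
    ThetaComputable := by
  have a1 : Primrec (fun x : Code × ℕ × ℕ × ℕ × ℕ × ℕ => x.1) := Primrec.fst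
  have a2 : Primrec (fun x : Code × ℕ × ℕ × ℕ × ℕ × ℕ => x.2.1) := Primrec.fst.comp Primrec.snd
  have a3 : Primrec (fun x : Code × ℕ × ℕ × ℕ × ℕ × ℕ => x.2.2.1) :=
    Primrec.fst.comp (Primrec.snd.comp Primrec.snd)
  have a4 : Primrec (fun x : Code × ℕ × ℕ × ℕ × ℕ × ℕ => x.2.2.2.1) :=
    Primrec.fst.comp (Primrec.snd.comp (Primrec.snd.comp Primrec.snd))
  have a5 : Primrec (fun x : Code × ℕ × ℕ × ℕ × ℕ × ℕ => x.2.2.2.2.1) :=
    Primrec.fst.comp (Primrec.snd.comp (Primrec.snd.comp (Primrec.snd.comp Primrec.snd)))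
  have a6 : Primrec (fun x : Code × ℕ × ℕ × ℕ × ℕ × ℕ => x.2.2.2.2.2) :=
    Primrec.snd.comp (Primrec.snd.comp (Primrec.snd.comp (Primrec.snd.comp Primrec.snd)))
  have hj0 : Primrec (fun x : Code × ℕ × ℕ × ℕ × ℕ × ℕ => jc x.1 x.2.1 x.2.2.1 x.2.2.2.1 0) :=
    pr_jc a1 a2 a3 a4 (Primrec.const 0)
  have hj : Primrec (fun x : Code × ℕ × ℕ × ℕ × ℕ × ℕ =>
      padc (jc x.1 x.2.1 x.2.2.1 x.2.2.2.1 0) (jc x.1 x.2.1 x.2.2.1 x.2.2.2.1 0).1
        (x.2.2.2.2.1 ^ 2)) :=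
    pr_padc hj0 (Primrec.fst.comp hj0) (pr_pow.comp a5 (Primrec.const 2))
  have hU : Staged (fun x : Code × ℕ × ℕ × ℕ × ℕ × ℕ =>
      0 < x.2.2.2.2.1 ∧
        P (padc (jc x.1 x.2.1 x.2.2.1 x.2.2.2.1 0) (jc x.1 x.2.1 x.2.2.1 x.2.2.2.1 0).1
          (x.2.2.2.2.1 ^ 2)) ∧
        R (padc (jc x.1 x.2.1 x.2.2.1 x.2.2.2.1 0) (jc x.1 x.2.1 x.2.2.1 x.2.2.2.1 0).1
          (x.2.2.2.2.1 ^ 2)).1 * x.2.2.2.2.1 ≤ x.2.2.2.2.2) := by
    refine Staged.and (Staged.of_pp (pp_lt (Primrec.const 0) a5)) (Staged.and ?_ ?_)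
    · exact Staged.comp (p := P) (f := fun x : Code × ℕ × ℕ × ℕ × ℕ × ℕ =>
        padc (jc x.1 x.2.1 x.2.2.1 x.2.2.2.1 0) (jc x.1 x.2.1 x.2.2.1 x.2.2.2.1 0).1
          (x.2.2.2.2.1 ^ 2)) (Staged.of_re hP) hj
    · exact staged_R hR (Primrec.fst.comp hj) a5 a6
  -- facts about the padded graph
  have facts : ∀ (c : Code) (n t w m : ℕ), 0 < c.1 → 0 < m →
      0 < (padc (jc c n t w 0) (jc c n t w 0).1 (m ^ 2)).1 ∧
      IsCayley (gr (padc (jc c n t w 0) (jc c n t w 0).1 (m ^ 2))) ∧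
      theta (gr (padc (jc c n t w 0) (jc c n t w 0).1 (m ^ 2))) =
        (jc c n t w 0).1 * theta (gr (jc c n t w 0)) ∧
      Real.sqrt (padc (jc c n t w 0) (jc c n t w 0).1 (m ^ 2)).1 = (jc c n t w 0).1 * m := by
    intro c n t w m hc hm
    have hpos := jc_pos c n t w 0
    have hm2 : 0 < m ^ 2 := by positivity
    refine ⟨?_, ?_, ?_, ?_⟩
    · change 0 < (jc c n t w 0).1 * (jc c n t w 0).1 * m ^ 2
      positivity
    · exact (cayley_pad (cayley_jc_zero c hc n t w) _ _ hpos hm2).congr (padc_iso _ _ _).symm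
    · rw [theta_congr (padc_iso _ _ _), theta_pad _ _ _ hpos hm2]
    · change Real.sqrt (((jc c n t w 0).1 * (jc c n t w 0).1 * m ^ 2 : ℕ) : ℝ) = _
      have : (((jc c n t w 0).1 * (jc c n t w 0).1 * m ^ 2 : ℕ) : ℝ) =
          (((jc c n t w 0).1 : ℝ) * m) ^ 2 := by push_cast; ring
      rw [this, Real.sqrt_sq (by positivity)]
  refine gen hU (subpoly_sup hRs) ?_ ?_
  · rintro c n t w m b hc ⟨hm, hPm, hRm⟩
    obtain ⟨f1, f2, f3, f4⟩ := facts c n t w m hc hm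
    have h1 := (h _ f1 f2).2
    rw [f3, f4] at h1
    have hpos : (0 : ℝ) < (jc c n t w 0).1 := by exact_mod_cast jc_pos c n t w 0
    have h2 : ((jc c n t w 0).1 : ℝ) * theta (gr (jc c n t w 0)) <
        (R (padc (jc c n t w 0) (jc c n t w 0).1 (m ^ 2)).1 : ℝ) * ((jc c n t w 0).1 * m) := by
      by_contra hcon
      exact h1 (not_lt.1 hcon) hPm
    have h3 : theta (gr (jc c n t w 0)) <
        (R (padc (jc c n t w 0) (jc c n t w 0).1 (m ^ 2)).1 : ℝ) * m := by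
      have h4 : ((jc c n t w 0).1 : ℝ) * theta (gr (jc c n t w 0)) < ((jc c n t w 0).1 : ℝ) *
          ((R (padc (jc c n t w 0) (jc c n t w 0).1 (m ^ 2)).1 : ℝ) * m) := by
        refine lt_of_lt_of_eq h2 ?_
        ring
      exact lt_of_mul_lt_mul_left h4 hpos.le
    refine le_trans h3.le ?_
    exact_mod_cast hRm
  · intro c n t w m b hc hm hth hb
    obtain ⟨f1, f2, f3, f4⟩ := facts c n t w m hc hm
    refine ⟨hm, ?_, ?_⟩
    · refine (h _ f1 f2).1 ?_
      rw [f3, f4]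
      exact mul_le_mul_of_nonneg_left hth (by positivity)
    · refine le_trans (Nat.mul_le_mul_right m ?_) (hb ((plist n).length ^ t + m) le_rfl)
      apply Finset.le_sup (f := R)
      rw [Finset.mem_range]
      apply Nat.lt_succ_of_le
      change (jc c n t w 0).1 * (jc c n t w 0).1 * m ^ 2 ≤ ((plist n).length ^ t + m) ^ 4
      have h1 : (jc c n t w 0).1 ≤ (plist n).length ^ t + m := by
        rw [jc_size]
        omega
      have h2 : m ≤ (plist n).length ^ t + m := Nat.le_add_left _ _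
      calc (jc c n t w 0).1 * (jc c n t w 0).1 * m ^ 2
          ≤ ((plist n).length ^ t + m) * ((plist n).length ^ t + m) *
            ((plist n).length ^ t + m) ^ 2 :=
            Nat.mul_le_mul (Nat.mul_le_mul h1 h1) (Nat.pow_le_pow_left h2 2)
        _ = ((plist n).length ^ t + m) ^ 4 := by ring

/-- The equivalences. -/
theorem tfae_main {R : ℕ → ℕ} (hR : Computable R) (hR2 : ∀ v, 2 ≤ R v) (hRs : Subpoly R) :
    List.TFAE [ThetaComputable,
      ∃ P : Code × ℕ → Prop, ComputablePred P ∧ SolvesThreshold R allGraphs P,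
      ∃ P : Code × ℕ → Prop, REPred P ∧ SolvesThreshold R cayleyGraphs P,
      ∃ P : Code → Prop, ComputablePred P ∧ SolvesSqrt R allGraphs P,
      ∃ P : Code → Prop, REPred P ∧ SolvesSqrt R cayleyGraphs P,
      ∃ P : Code → Prop, ComputablePred P ∧ SolvesIndep R allGraphs P,
      ∃ P : Code → Prop, REPred P ∧ SolvesIndep R cayleyJoins P,
      ∃ B : ℕ → ℕ, Computable B ∧ BoundsRate R allGraphs B,
      ∃ B : ℕ → ℕ, Computable B ∧ BoundsRate R cayleyGraphs B,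
      ∃ B : ℕ → ℕ, Computable B ∧ BoundsFirstGain R allGraphs B,
      ∃ B : ℕ → ℕ, Computable B ∧ BoundsFirstGain R cayleyJoins B] := by
  tfae_have 1 → 8 := fun h => rate_of_computable h hR2
  tfae_have 8 → 2 := fun ⟨B, hB, h⟩ => threshold_of_rate hB h
  tfae_have 2 → 3 := fun ⟨P, hP, h⟩ => ⟨P, hP.to_re, fun c m hc hm _ => h c m hc hm trivial⟩
  tfae_have 3 → 1 := fun ⟨P, hP, h⟩ => computable_of_threshold hR hRs hP h
  tfae_have 8 → 4 := fun ⟨B, hB, h⟩ => sqrt_of_rate hB h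
  tfae_have 4 → 5 := fun ⟨P, hP, h⟩ => ⟨P, hP.to_re, fun c hc _ => h c hc trivial⟩
  tfae_have 5 → 1 := fun ⟨P, hP, h⟩ => computable_of_sqrt hR hRs hP h
  tfae_have 8 → 9 := fun ⟨B, hB, h⟩ => ⟨B, hB, fun v G hv _ => h v G hv trivial⟩
  tfae_have 9 → 3 := fun ⟨B, hB, h⟩ => by
    obtain ⟨P, hP, h2⟩ := threshold_of_rate hB h
    exact ⟨P, hP.to_re, h2⟩
  tfae_have 8 → 10 := fun ⟨B, hB, h⟩ => ⟨B, hB, h.gain⟩
  tfae_have 10 → 11 := fun ⟨B, hB, h⟩ => ⟨B, hB, fun v G hv _ => h v G hv trivial⟩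
  tfae_have 10 → 6 := fun ⟨B, hB, h⟩ => indep_of_gain hB h
  tfae_have 6 → 7 := fun ⟨P, hP, h⟩ => ⟨P, hP.to_re, fun c hc _ => h c hc trivial⟩
  tfae_have 11 → 7 := fun ⟨B, hB, h⟩ => by
    obtain ⟨P, hP, h2⟩ := indep_of_gain hB h
    exact ⟨P, hP.to_re, h2⟩
  tfae_have 7 → 1 := fun ⟨P, hP, h⟩ => computable_of_indep hR hRs hP h
  tfae_finish

end Pool.Agent.SC
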