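import Pool.Agent.SC.Basic

namespace Pool.Agent.SC

open SimpleGraph

variable {V W X Y I J K : Type*}

@[simp] theorem joinE_ll {G : SimpleGraph V} {m : ℕ} {v w : V} :
    (joinE G m).Adj (Sum.inl v) (Sum.inl w) ↔ G.Adj v w := Iff.rfl

@[simp] theorem joinE_lr {G : SimpleGraph V} {m : ℕ} {v : V} {j : Fin m} :
    (joinE G m).Adj (Sum.inl v) (Sum.inr j) ↔ True := Iff.rfl

@[simp] theorem joinE_rl {G : SimpleGraph V} {m : ℕ} {v : V} {j : Fin m} :
    (joinE G m).Adj (Sum.inr j) (Sum.inl v) ↔ True := Iff.rfl

@[simp] theorem joinE_rr {G : SimpleGraph V} {m : ℕ} {i j : Fin m} :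
    (joinE G m).Adj (Sum.inr i) (Sum.inr j) ↔ False := Iff.rfl

theorem sep_joinE {G : SimpleGraph V} {m : ℕ} {a b : V ⊕ Fin m} :
    (joinE G m)ᶜ.Adj a b ↔
      (∃ v w, a = Sum.inl v ∧ b = Sum.inl w ∧ Gᶜ.Adj v w) ∨
      (∃ i j, a = Sum.inr i ∧ b = Sum.inr j ∧ i ≠ j) := by
  rw [compl_adj]
  rcases a with a | a <;> rcases b with b | b <;> simp [compl_adj]

theorem theta_le_joinE [Finite V] (G : SimpleGraph V) (m : ℕ) : theta G ≤ theta (joinE G m) :=
  theta_mono Sum.inl (fun x y h => sep_joinE.2 (Or.inl ⟨x, y, rfl, rfl, h⟩))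

theorem le_indepNum_joinE [Finite V] (G : SimpleGraph V) (m : ℕ) :
    m ≤ (joinE G m).indepNum := by
  have h : (Finset.univ : Finset (Fin m)).card ≤ (joinE G m).indepNum := by
    refine card_le _ (fun i => Sum.inr i) ?_
    intro x _ y _ hxy
    exact sep_joinE.2 (Or.inr ⟨x, y, rfl, rfl, hxy⟩)
  simpa using h

theorem indepNum_joinE [Finite V] (G : SimpleGraph V) (m : ℕ) :
    (joinE G m).indepNum = max G.indepNum m := by
  classical
  apply le_antisymm
  · obtain ⟨C, hC, hC2⟩ := exists_code (joinE G m)
    rw [← hC]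
    by_cases hl : ∃ v, Sum.inl v ∈ C
    · obtain ⟨v0, hv0⟩ := hl
      have hall : ∀ a ∈ C, ∃ v, a = Sum.inl v := by
        intro a ha
        rcases a with a | a
        · exact ⟨a, rfl⟩
        · exfalso
          have := hC2 _ hv0 _ ha (by simp)
          rw [sep_joinE] at this
          simp at this
      refine le_trans ?_ (le_max_left _ _)
      refine card_le C (fun a => Sum.elim id (fun _ => v0) a) ?_
      intro x hx y hy hxy
      obtain ⟨v, rfl⟩ := hall x hx
      obtain ⟨w, rfl⟩ := hall y hy
      have := hC2 _ hx _ hy hxy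
      rw [sep_joinE] at this
      simpa using this
    · refine le_trans ?_ (le_max_right _ _)
      have hall : ∀ a ∈ C, ∃ j, a = Sum.inr j := by
        intro a ha
        rcases a with a | a
        · exact absurd ⟨a, ha⟩ hl
        · exact ⟨a, rfl⟩
      have : C ⊆ Finset.univ.image (fun j : Fin m => (Sum.inr j : V ⊕ Fin m)) := by
        intro a ha
        obtain ⟨j, rfl⟩ := hall a ha
        simp
      calc C.card ≤ _ := Finset.card_le_card this
        _ ≤ (Finset.univ : Finset (Fin m)).card := Finset.card_image_le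
        _ = m := by simp
  · exact max_le (indepNum_le_of_map Sum.inl
      (fun x y h => sep_joinE.2 (Or.inl ⟨x, y, rfl, rfl, h⟩))) (le_indepNum_joinE G m)

/-- The filling inequality. -/
theorem fill [Finite V] [Nonempty V] (G : SimpleGraph V) (m M : ℕ) {x c : ℝ} (hx : 0 ≤ x)
    (hxm : x ≤ m) (hc : 0 < c) (hlow : ∀ k : ℕ, c * x ^ k ≤ al G k) :
    (al (joinE G m) M : ℝ) * (c * x ^ M) ≤ al G M * (m : ℝ) ^ M := by
  classical
  have := Fintype.ofFinite V
  obtain ⟨v0⟩ := ‹Nonempty V›
  obtain ⟨C, hC, hC2⟩ := exists_code (spow (joinE G m) (Fin M))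
  -- the right positions
  let R : (Fin M → V ⊕ Fin m) → Finset (Fin M) :=
    fun w => Finset.univ.filter (fun i => (w i).isRight)
  -- codes on the right positions
  have hD : ∀ S : Finset (Fin M), ∃ D : Finset (Fin M → V), D.card = al G S.card ∧
      ∀ x ∈ D, ∀ y ∈ D, x ≠ y → ∃ i ∈ S, Gᶜ.Adj (x i) (y i) := by
    intro S
    obtain ⟨D, hD, hD2⟩ := exists_code (spow G S)
    have hcard : D.card = al G S.card := by
      rw [hD, indepNum_spow]
      simp
    refine ⟨D.image (fun u i => if h : i ∈ S then u ⟨i, h⟩ else v0), ?_, ?_⟩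
    · rw [Finset.card_image_of_injOn, hcard]
      intro u _ w _ huw
      funext ⟨i, hi⟩
      have := congrFun huw i
      simpa [hi] using this
    · intro x hx y hy hxy
      rw [Finset.mem_image] at hx hy
      obtain ⟨u, hu, rfl⟩ := hx
      obtain ⟨w, hw, rfl⟩ := hy
      have huw : u ≠ w := fun e => hxy (by rw [e])
      obtain ⟨⟨i, hi⟩, h⟩ := sep_spow.1 (hD2 u hu w hw huw)
      exact ⟨i, hi, by simpa [hi] using h⟩
  choose D hDc hDs using hD
  let Yf : (Fin M → V ⊕ Fin m) → Finset (Fin M → Fin m) :=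
    fun w => Fintype.piFinset (fun i => Sum.elim (fun _ => Finset.univ) (fun j => {j}) (w i))
  have hYcard : ∀ w, (Yf w).card = m ^ (M - (R w).card) := by
    intro w
    rw [Fintype.card_piFinset]
    have h1 : ∀ i, (Sum.elim (fun _ => (Finset.univ : Finset (Fin m))) (fun j => {j}) (w i)).card
        = if (w i).isRight then 1 else m := by
      intro i
      rcases w i with a | a <;> simp
    rw [Finset.prod_congr rfl (fun i _ => h1 i), Finset.prod_ite]
    simp only [Finset.prod_const_one, one_mul, Finset.prod_const]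
    congr 1
    have h2 := Finset.card_filter_add_card_filter_not (s := (Finset.univ : Finset (Fin M)))
      (fun i => (w i).isRight = true)
    rw [Finset.card_univ, Fintype.card_fin] at h2
    change _ + _ = M at h2
    simp only [R]
    omega
  let T : Finset (Σ _ : (Fin M → V ⊕ Fin m), (Fin M → V) × (Fin M → Fin m)) :=
    C.sigma (fun w => D (R w) ×ˢ Yf w)
  have hTcard : T.card = ∑ w ∈ C, al G (R w).card * m ^ (M - (R w).card) := by
    rw [Finset.card_sigma]
    refine Finset.sum_congr rfl (fun w _ => ?_)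
    rw [Finset.card_product, hDc, hYcard]
  have hTle : T.card ≤ al G M * (Finset.univ : Finset (Fin M → Fin m)).card := by
    refine Finset.card_le_mul_card_image_of_maps_to (f := fun t => t.2.2)
      (fun _ _ => Finset.mem_univ _) _ ?_
    intro y _
    refine card_le _ (fun t => fun i => Sum.elim id (fun _ => t.2.1 i) (t.1 i)) ?_
    rintro ⟨w, u, y1⟩ h1 ⟨w', u', y2⟩ h2 hne
    simp only [Finset.mem_filter, T, Finset.mem_sigma, Finset.mem_product] at h1 h2
    obtain ⟨⟨hw, hu, hy1⟩, rfl⟩ := h1
    obtain ⟨⟨hw', hu', hy2⟩, rfl⟩ := h2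
    rw [sep_spow]
    by_cases hww : w = w'
    · subst hww
      have huu : u ≠ u' := fun e => hne (by rw [e])
      obtain ⟨i, hi, hsep⟩ := hDs _ u hu u' hu' huu
      refine ⟨i, ?_⟩
      simp only [R, Finset.mem_filter, Finset.mem_univ, true_and] at hi
      rcases hwi : w i with a | a
      · rw [hwi] at hi
        simp at hi
      · simpa [hwi] using hsep
    · obtain ⟨i, hi⟩ := sep_spow.1 (hC2 w hw w' hw' hww)
      rw [sep_joinE] at hi
      rcases hi with ⟨v, v', e, e', hs⟩ | ⟨j, j', e, e', hj⟩
      · exact ⟨i, by simpa [e, e'] using hs⟩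
      · exfalso
        have a1 := Fintype.mem_piFinset.1 hy1 i
        have a2 := Fintype.mem_piFinset.1 hy2 i
        simp only [e, e', Sum.elim_inr, Finset.mem_singleton] at a1 a2
        exact hj (a1.symm.trans a2)
  have hsum : (C.card : ℝ) * (c * x ^ M) ≤ (T.card : ℝ) := by
    rw [hTcard]
    push_cast
    rw [← nsmul_eq_mul]
    refine Finset.card_nsmul_le_sum _ _ _ (fun w _ => ?_)
    have hle : (R w).card ≤ M := by
      have := Finset.card_le_univ (R w)
      simpa using this
    calc c * x ^ M = (c * x ^ (R w).card) * x ^ (M - (R w).card) := by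
          rw [mul_assoc, ← pow_add, Nat.add_sub_cancel' hle]
      _ ≤ (al G (R w).card : ℝ) * (m : ℝ) ^ (M - (R w).card) :=
          mul_le_mul (hlow _) (pow_le_pow_left₀ hx hxm _) (by positivity) (by positivity)
  have hCc : (C.card : ℝ) = al (joinE G m) M := by rw [hC]; rfl
  rw [← hCc]
  refine le_trans hsum ?_
  have h3 : (T.card : ℝ) ≤ ((al G M * (Finset.univ : Finset (Fin M → Fin m)).card : ℕ) : ℝ) := by
    exact_mod_cast hTle
  refine le_trans h3 ?_
  simp

theorem theta_joinE_zero [Finite V] (G : SimpleGraph V) : theta (joinE G 0) ≤ theta G := by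
  refine theta_mono (fun a => Sum.elim id (fun j => j.elim0) a) ?_
  intro x y h
  rw [sep_joinE] at h
  rcases h with ⟨v, w, rfl, rfl, h⟩ | ⟨i, j, rfl, rfl, -⟩
  · exact h
  · exact i.elim0

/-- **Join lemma.** -/
theorem theta_joinE [Finite V] [Nonempty V] (G : SimpleGraph V) (m : ℕ) :
    theta (joinE G m) = max (theta G) m := by
  apply le_antisymm
  · rcases Nat.eq_zero_or_pos m with rfl | hm
    · exact le_trans (theta_joinE_zero G) (le_max_left _ _)
    have hm' : (0 : ℝ) < m := by exact_mod_cast hm
    have hth := one_le_theta G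
    -- bound for every 0 < x < theta, x ≤ m
    have key : ∀ x : ℝ, 0 < x → x < theta G → x ≤ m → theta (joinE G m) ≤ theta G * m / x := by
      intro x hx hxt hxm
      obtain ⟨c, hc, hlow⟩ := exists_lower G hx.le hxt
      refine theta_le_of_const (c := 1 / c) _ (by positivity) (fun M => ?_)
      have h1 := fill G m M hx.le hxm hc hlow
      have h2 : (al (joinE G m) M : ℝ) * (c * x ^ M) ≤ theta G ^ M * (m : ℝ) ^ M :=
        le_trans h1 (mul_le_mul_of_nonneg_right (al_le_theta G M) (by positivity))
      rw [← le_div_iff₀ (by positivity)] at h2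
      refine le_trans h2 (le_of_eq ?_)
      rw [div_pow, mul_pow]
      field_simp
    rcases lt_or_ge (m : ℝ) (theta G) with h | h
    · have := key m hm' h le_rfl
      rw [mul_div_assoc, div_self hm'.ne', mul_one] at this
      exact le_trans this (le_max_left _ _)
    · refine le_trans ?_ (le_max_right _ _)
      apply le_of_forall_pos_le_add
      intro e he
      -- choose x = theta * m / (m + e)
      have hx : 0 < theta G * m / (m + e) := by positivity
      have hxt : theta G * m / (m + e) < theta G := by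
        rw [div_lt_iff₀ (by positivity)]
        nlinarith
      have := key _ hx hxt (le_trans hxt.le h)
      refine le_trans this (le_of_eq ?_)
      have : theta G ≠ 0 := by positivity
      field_simp
  · refine max_le (theta_le_joinE G m) ?_
    refine le_trans ?_ (indepNum_le_theta _)
    exact_mod_cast le_indepNum_joinE G m

end Pool.Agent.SC
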