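import Pool.Agent.SC.Coding

namespace Pool.Agent.SC

open SimpleGraph

variable {V W K : Type*}

theorem IsCayley.congr {A : SimpleGraph V} {B : SimpleGraph W} (e : A ≃g B) (h : IsCayley A) :
    IsCayley B := by
  obtain ⟨Γ, i1, i2, S, ⟨f⟩⟩ := h
  exact ⟨Γ, i1, i2, S, ⟨e.symm.trans f⟩⟩

/-- Isomorphic graphs have isomorphic joins. -/
def joinE_congr {A : SimpleGraph V} {B : SimpleGraph W} (e : A ≃g B) (m : ℕ) :
    joinE A m ≃g joinE B m where
  toEquiv := Equiv.sumCongr e.toEquiv (Equiv.refl _)
  map_rel_iff' := by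
    intro a b
    rcases a with a | a <;> rcases b with b | b
    · exact e.map_adj_iff
    · simp [joinE]
    · simp [joinE]
    · simp [joinE]

/-- Joining with the empty graph changes nothing. -/
def joinE_zero (A : SimpleGraph V) : joinE A 0 ≃g A where
  toEquiv := Equiv.sumEmpty V (Fin 0)
  map_rel_iff' := by
    intro a b
    rcases a with a | a
    · rcases b with b | b
      · simp [joinE]
      · exact b.elim0
    · exact a.elim0

/-! ### Numbering the group -/

/-- The permutation with number x, as a function. -/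
def wdd (n x : ℕ) : Fin n → Fin n := fun i => ⟨x / n ^ (i : ℕ) % n, Nat.mod_lt _ (Fin.pos i)⟩

theorem wdd_eq {n x : ℕ} (hx : x < n ^ n) : wdd n x = finFunctionFinEquiv.symm ⟨x, hx⟩ := by
  funext i
  apply Fin.ext
  rfl

theorem mem_plist {n x : ℕ} : x ∈ plist n ↔ x < n ^ n ∧ isPermN n x := by
  unfold plist
  simp

theorem wdd_inj {n x : ℕ} (h : isPermN n x) : Function.Injective (wdd n x) := by
  intro i j hij
  apply Fin.ext
  exact h i i.2 j j.2 (congrArg Fin.val hij)

theorem nodup_plist (n : ℕ) : (plist n).Nodup := by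
  unfold plist
  exact List.Nodup.filter _ List.nodup_range

noncomputable def pidx (n : ℕ) : Fin (plist n).length ≃ Equiv.Perm (Fin n) :=
  Equiv.ofBijective
    (fun i => Equiv.ofBijective (wdd n ((plist n).get i))
      (Finite.injective_iff_bijective.1 (wdd_inj (mem_plist.1 ((plist n).get_mem i)).2)))
    (by
      constructor
      · intro i j hij
        have h1 : wdd n ((plist n).get i) = wdd n ((plist n).get j) :=
          congrArg (fun σ : Equiv.Perm (Fin n) => (σ : Fin n → Fin n)) hij
        rw [wdd_eq (mem_plist.1 ((plist n).get_mem i)).1,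
          wdd_eq (mem_plist.1 ((plist n).get_mem j)).1] at h1
        have h2 := finFunctionFinEquiv.symm.injective h1
        exact (List.nodup_iff_injective_get.1 (nodup_plist n)) (congrArg Fin.val h2)
      · intro σ
        have h1 : wdd n ((finFunctionFinEquiv (σ : Fin n → Fin n) : Fin (n ^ n)) : ℕ) = σ := by
          rw [wdd_eq (Fin.is_lt _)]
          exact finFunctionFinEquiv.symm_apply_apply _
        have hmem : ((finFunctionFinEquiv (σ : Fin n → Fin n) : Fin (n ^ n)) : ℕ) ∈ plist n := by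
          rw [mem_plist]
          refine ⟨Fin.is_lt _, fun i hi j hj hij => ?_⟩
          have h2 : wdd n ((finFunctionFinEquiv (σ : Fin n → Fin n) : Fin (n ^ n)) : ℕ) ⟨i, hi⟩ =
              wdd n ((finFunctionFinEquiv (σ : Fin n → Fin n) : Fin (n ^ n)) : ℕ) ⟨j, hj⟩ :=
            Fin.ext hij
          rw [h1] at h2
          exact congrArg Fin.val (σ.injective h2)
        obtain ⟨i, hi⟩ := List.get_of_mem hmem
        refine ⟨i, ?_⟩
        apply DFunLike.coe_injective
        change wdd n ((plist n).get i) = σ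
        rw [hi, h1])

theorem pidx_coe (n : ℕ) (i : Fin (plist n).length) :
    (pidx n i : Fin n → Fin n) = wdd n ((plist n).get i) := rfl

theorem plen_pos (n : ℕ) : 0 < (plist n).length := Fin.pos ((pidx n).symm 1)

/-- Numbering of the t-th power of the symmetric group. -/
noncomputable def bidx (n t : ℕ) :
    Fin ((plist n).length ^ t) ≃ (Fin t → Equiv.Perm (Fin n)) :=
  finFunctionFinEquiv.symm.trans (Equiv.piCongrRight (fun _ => pidx n))

theorem bidx_val (n t : ℕ) (x : Fin ((plist n).length ^ t)) (s : Fin t) (k : Fin n) :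
    ((bidx n t x s k : Fin n) : ℕ) = pdig n x s k := by
  have h1 : bidx n t x s = pidx n ((finFunctionFinEquiv.symm x : Fin t → _) s) := rfl
  rw [h1, pidx_coe]
  have h2 : (((finFunctionFinEquiv.symm x : Fin t → Fin (plist n).length) s :
      Fin (plist n).length) : ℕ) = (x : ℕ) / (plist n).length ^ (s : ℕ) % (plist n).length := rfl
  unfold pdig
  rw [← h2, List.getD_eq_getElem _ _ (Fin.is_lt _)]
  rfl

/-- The word with number w, in blocks. -/
def wd2 (c : Code) (hc : 0 < c.1) (n t w : ℕ) : Fin t → Fin n → Fin c.1 :=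
  fun s k => ⟨w / c.1 ^ ((k : ℕ) + n * (s : ℕ)) % c.1, Nat.mod_lt _ hc⟩

theorem exists_wd2 {c : Code} (hc : 0 < c.1) {n t : ℕ} (u : Fin t → Fin n → Fin c.1) :
    ∃ w < c.1 ^ (t * n), wd2 c hc n t w = u := by
  obtain ⟨w, hw, h⟩ := exists_wd hc
    (fun p : Fin (t * n) => u (finProdFinEquiv.symm p).1 (finProdFinEquiv.symm p).2)
  refine ⟨w, hw, ?_⟩
  funext s k
  have h1 := congrFun h (finProdFinEquiv (s, k))
  rw [Equiv.symm_apply_apply] at h1
  rw [← h1]
  apply Fin.ext
  rfl

/-- The Cayley graph on the numbers of the group elements. -/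
noncomputable def lcay (c : Code) (hc : 0 < c.1) (n t w : ℕ) :
    SimpleGraph (Fin ((plist n).length ^ t)) :=
  (bcay (gr c) (wd2 c hc n t w)).comap (bidx n t)

noncomputable def lcay_iso (c : Code) (hc : 0 < c.1) (n t w : ℕ) :
    lcay c hc n t w ≃g bcay (gr c) (wd2 c hc n t w) where
  toEquiv := bidx n t
  map_rel_iff' := by
    intro a b
    exact Iff.rfl

theorem lcay_adj {c : Code} {hc : 0 < c.1} {n t w : ℕ} {i j : Fin ((plist n).length ^ t)} :
    (lcay c hc n t w).Adj i j ↔ i ≠ j ∧ ¬ bsep c n t w i j := by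
  have h1 : (lcay c hc n t w).Adj i j ↔ i ≠ j ∧ ¬ (lcay c hc n t w)ᶜ.Adj i j := by
    rw [compl_adj]
    constructor
    · intro h
      exact ⟨h.ne, fun h2 => h2.2 h⟩
    · rintro ⟨h2, h3⟩
      by_contra h4
      exact h3 ⟨h2, h4⟩
  have h2 : (lcay c hc n t w)ᶜ.Adj i j ↔ bsep c n t w i j := by
    have h3 : (lcay c hc n t w)ᶜ.Adj i j ↔
        (bcay (gr c) (wd2 c hc n t w))ᶜ.Adj (bidx n t i) (bidx n t j) := by
      rw [compl_adj, compl_adj]
      exact and_congr (not_congr (bidx n t).injective.eq_iff.symm) Iff.rfl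
    rw [h3, sep_bcay]
    constructor
    · rintro ⟨s, k, h⟩
      rw [sep_gr] at h
      refine ⟨s, s.2, k, k.2, ?_⟩
      rw [← bidx_val, ← bidx_val]
      exact h
    · rintro ⟨s, hs, k, hk, h⟩
      refine ⟨⟨s, hs⟩, ⟨k, hk⟩, ?_⟩
      rw [sep_gr]
      have e1 := bidx_val n t i ⟨s, hs⟩ ⟨k, hk⟩
      have e2 := bidx_val n t j ⟨s, hs⟩ ⟨k, hk⟩
      unfold wd2
      simp only [e1, e2]
      exact h
  rw [h1, h2]

theorem bsep_comm {c : Code} {n t w x y : ℕ} : bsep c n t w x y ↔ bsep c n t w y x := by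
  have h : ∀ a b, esep c a b → esep c b a := by
    intro a b h
    exact ⟨h.1.symm, fun h2 => h.2 h2.symm⟩
  unfold bsep
  constructor
  · rintro ⟨s, hs, k, hk, h1⟩
    exact ⟨s, hs, k, hk, h _ _ h1⟩
  · rintro ⟨s, hs, k, hk, h1⟩
    exact ⟨s, hs, k, hk, h _ _ h1⟩

theorem jc_core (c : Code) (hc : 0 < c.1) (n t w p : ℕ)
    (a b : Fin ((plist n).length ^ t) ⊕ Fin p) :
    ((finSumFinEquiv a : Fin ((plist n).length ^ t + p)) ≠ finSumFinEquiv b ∧
      ((((finSumFinEquiv a : Fin ((plist n).length ^ t + p)) : ℕ) <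
          (plist n).length ^ t + p ∧
        ((finSumFinEquiv b : Fin ((plist n).length ^ t + p)) : ℕ) <
          (plist n).length ^ t + p ∧
        jadj c n t w
          ((finSumFinEquiv a : Fin ((plist n).length ^ t + p)) : ℕ)
          ((finSumFinEquiv b : Fin ((plist n).length ^ t + p)) : ℕ)) ∨
      (((finSumFinEquiv b : Fin ((plist n).length ^ t + p)) : ℕ) <
          (plist n).length ^ t + p ∧
        ((finSumFinEquiv a : Fin ((plist n).length ^ t + p)) : ℕ) <
          (plist n).length ^ t + p ∧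
        jadj c n t w
          ((finSumFinEquiv b : Fin ((plist n).length ^ t + p)) : ℕ)
          ((finSumFinEquiv a : Fin ((plist n).length ^ t + p)) : ℕ)))) ↔
    (joinE (lcay c hc n t w) p).Adj a b := by
  have hlt : ∀ x : Fin ((plist n).length ^ t + p), (x : ℕ) < (plist n).length ^ t + p :=
    fun x => x.2
  simp only [hlt, true_and]
  unfold jadj
  rcases a with a | a <;> rcases b with b | b
  · rw [joinE_ll, lcay_adj]
    rw [Ne, finSumFinEquiv.injective.eq_iff, Sum.inl.injEq]
    have ha := a.2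
    have hb := b.2
    simp only [finSumFinEquiv_apply_left, Fin.val_castAdd, ha, hb, true_and, not_le.2 ha,
      not_le.2 hb, or_false]
    rw [bsep_comm (x := (b : ℕ)), or_self]
  · have ha := a.2
    simp only [finSumFinEquiv_apply_left, finSumFinEquiv_apply_right, Fin.val_castAdd,
      Fin.val_natAdd, joinE_lr, ha]
    refine iff_of_true ⟨fun e => ?_, ?_⟩ trivial
    · have := congrArg Fin.val e
      simp at this
      omega
    · left
      right
      simp
  · have hb := b.2
    simp only [finSumFinEquiv_apply_left, finSumFinEquiv_apply_right, Fin.val_castAdd,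
      Fin.val_natAdd, joinE_rl, hb]
    refine iff_of_true ⟨fun e => ?_, ?_⟩ trivial
    · have := congrArg Fin.val e
      simp at this
      omega
    · right
      right
      simp
  · simp

/-- The graph coded by jc. -/
noncomputable def jc_iso' (c : Code) (hc : 0 < c.1) (n t w p : ℕ) :
    joinE (lcay c hc n t w) p ≃g gr (jc c n t w p) where
  toEquiv := finSumFinEquiv
  map_rel_iff' := by
    intro a b
    have key : ∀ x y : ℕ, (x, y) ∈ (jc c n t w p).2 ↔
        x < (plist n).length ^ t + p ∧ y < (plist n).length ^ t + p ∧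
          jadj c n t w x y := fun x y => mem_mkc
    rw [gr_adj, key, key]
    exact jc_core c hc n t w p a b

theorem blen_pos (n t : ℕ) : 0 < (plist n).length ^ t := pow_pos (plen_pos n) t

theorem theta_jc (c : Code) (hc : 0 < c.1) (n t w p : ℕ) :
    theta (gr (jc c n t w p)) = max (theta (gr (jc c n t w 0))) p := by
  have hne : Nonempty (Fin ((plist n).length ^ t)) := ⟨⟨0, blen_pos n t⟩⟩
  rw [← theta_congr (jc_iso' c hc n t w p), ← theta_congr (jc_iso' c hc n t w 0), theta_joinE,
    theta_joinE]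
  congr 1
  simp only [Nat.cast_zero]
  exact (max_eq_left (theta_nonneg _)).symm

theorem indepNum_jc (c : Code) (hc : 0 < c.1) (n t w p : ℕ) :
    (gr (jc c n t w p)).indepNum = max (gr (jc c n t w 0)).indepNum p := by
  rw [← indepNum_congr (jc_iso' c hc n t w p), ← indepNum_congr (jc_iso' c hc n t w 0),
    indepNum_joinE, indepNum_joinE]
  simp

theorem theta_jc_zero (c : Code) (hc : 0 < c.1) (n t w : ℕ) :
    theta (gr (jc c n t w 0)) = theta (bcay (gr c) (wd2 c hc n t w)) := by
  rw [← theta_congr (jc_iso' c hc n t w 0), theta_congr (joinE_zero (lcay c hc n t w)),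
    theta_congr (lcay_iso c hc n t w)]

theorem cayley_jc_zero (c : Code) (hc : 0 < c.1) (n t w : ℕ) : IsCayley (gr (jc c n t w 0)) := by
  have h : IsCayley (bcay (gr c) (wd2 c hc n t w)) := bcay_isCayley _ _ _ _
  exact ((h.congr (lcay_iso c hc n t w).symm).congr (joinE_zero _).symm).congr
    (jc_iso' c hc n t w 0)

theorem cayleyJoin_jc (c : Code) (hc : 0 < c.1) (n t w p : ℕ) :
    IsCayleyJoin (gr (jc c n t w p)) := by
  refine ⟨_, p, lcay c hc n t w, ?_, ⟨(jc_iso' c hc n t w p).symm⟩⟩
  have h : IsCayley (bcay (gr c) (wd2 c hc n t w)) := bcay_isCayley _ _ _ _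
  exact h.congr (lcay_iso c hc n t w).symm

theorem jc_size (c : Code) (n t w p : ℕ) : (jc c n t w p).1 = (plist n).length ^ t + p := rfl

theorem jc_pos (c : Code) (n t w p : ℕ) : 0 < (jc c n t w p).1 := by
  rw [jc_size]
  have := blen_pos n t
  omega

theorem theta_jc_le (c : Code) (hc : 0 < c.1) (n t w : ℕ) :
    theta (gr (jc c n t w 0)) ≤ theta (gr c) ^ (t * n) := by
  rw [theta_jc_zero c hc]
  exact theta_bcay_le _ _ _ _

end Pool.Agent.SC
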