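import Mathlib

namespace Pool.Agent.SC

open Primrec

variable {α β γ : Type*} [Primcodable α] [Primcodable β] [Primcodable γ]

theorem pr_pow : Primrec₂ (fun a b : ℕ => a ^ b) :=
  Primrec₂.unpaired'.1 Nat.Primrec.pow

theorem pp_all_mem {l : α → List β} {R : α → β → Prop}
    (hR : PrimrecPred (fun x : α × β => R x.1 x.2)) (hl : Primrec l) :
    PrimrecPred (fun a => ∀ x ∈ l a, R a x) := by
  have h1 : PrimrecRel (fun (x : β) (a : α) => R a x) :=
    hR.comp (Primrec.pair Primrec.snd Primrec.fst)
  exact h1.forall_mem_list.comp hl Primrec.id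

theorem pp_ex_mem {l : α → List β} {R : α → β → Prop}
    (hR : PrimrecPred (fun x : α × β => R x.1 x.2)) (hl : Primrec l) :
    PrimrecPred (fun a => ∃ x ∈ l a, R a x) := by
  have h1 : PrimrecRel (fun (x : β) (a : α) => R a x) :=
    hR.comp (Primrec.pair Primrec.snd Primrec.fst)
  exact h1.exists_mem_list.comp hl Primrec.id

theorem pp_all_lt {g : α → ℕ} {R : α → ℕ → Prop}
    (hR : PrimrecPred (fun x : α × ℕ => R x.1 x.2)) (hg : Primrec g) :
    PrimrecPred (fun a => ∀ x < g a, R a x) :=
  (pp_all_mem hR (Primrec.list_range.comp hg)).of_eq (by simp)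

theorem pp_ex_lt {g : α → ℕ} {R : α → ℕ → Prop}
    (hR : PrimrecPred (fun x : α × ℕ => R x.1 x.2)) (hg : Primrec g) :
    PrimrecPred (fun a => ∃ x < g a, R a x) :=
  (pp_ex_mem hR (Primrec.list_range.comp hg)).of_eq (by simp)

theorem pp_imp {p q : α → Prop} (hp : PrimrecPred p) (hq : PrimrecPred q) :
    PrimrecPred (fun a => p a → q a) :=
  (hp.not.or hq).of_eq (fun a => by tauto)

theorem pp_mem {f : α → β} {l : α → List β} (hf : Primrec f) (hl : Primrec l) :
    PrimrecPred (fun a => f a ∈ l a) := by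
  have h : PrimrecPred (fun a => ∃ x ∈ l a, f a = x) :=
    pp_ex_mem (R := fun a x => f a = x)
      (Primrec.eq.comp (hf.comp Primrec.fst) Primrec.snd) hl
  exact h.of_eq (fun a => by simp)

theorem pp_eq {f g : α → β} (hf : Primrec f) (hg : Primrec g) :
    PrimrecPred (fun a => f a = g a) := Primrec.eq.comp hf hg

theorem pp_le {f g : α → ℕ} (hf : Primrec f) (hg : Primrec g) :
    PrimrecPred (fun a => f a ≤ g a) := Primrec.nat_le.comp hf hg

theorem pp_lt {f g : α → ℕ} (hf : Primrec f) (hg : Primrec g) :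
    PrimrecPred (fun a => f a < g a) := Primrec.nat_lt.comp hf hg

theorem pr_filter {l : α → List β} {R : α → β → Prop} (inst : ∀ a, DecidablePred (R a))
    (hR : PrimrecPred (fun x : α × β => R x.1 x.2)) (hl : Primrec l) :
    Primrec (fun a => (l a).filter (fun x => R a x)) := by
  classical
  have h1 : PrimrecRel (fun (x : β) (a : α) => R a x) :=
    hR.comp (Primrec.pair Primrec.snd Primrec.fst)
  refine (h1.listFilter.comp hl Primrec.id).of_eq (fun a => List.filter_congr (fun x _ => ?_))
  simp

theorem pr_sublists' : Primrec (fun l : List ℕ => l.sublists') := by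
  have h : Primrec (fun l : List ℕ => l.foldr
      (fun a r => r ++ r.map (List.cons a)) [[]]) := by
    refine Primrec.list_foldr (f := fun l : List ℕ => l) (g := fun _ => [[]])
      (h := fun _ (p : ℕ × List (List ℕ)) => p.2 ++ p.2.map (List.cons p.1))
      Primrec.id (Primrec.const _) ?_
    refine Primrec.list_append.comp (Primrec.snd.comp Primrec.snd) ?_
    refine Primrec.list_map (Primrec.snd.comp Primrec.snd) ?_
    exact Primrec.list_cons.comp (Primrec.fst.comp (Primrec.snd.comp Primrec.fst)) Primrec.snd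
  refine h.of_eq (fun l => ?_)
  induction l with
  | nil => rfl
  | cons a l ih => rw [List.foldr_cons, List.sublists'_cons, ih]

/-- Stage form of recursive enumerability: p is the increasing union of a primitive recursive
relation. -/
def Staged (p : α → Prop) : Prop :=
  ∃ Q : α → ℕ → Prop, PrimrecRel Q ∧ (∀ a s t, s ≤ t → Q a s → Q a t) ∧ ∀ a, p a ↔ ∃ s, Q a s

theorem Staged.of_re {p : α → Prop} (h : REPred p) : Staged p := by
  unfold REPred at h
  unfold Partrec at h
  obtain ⟨cf, hcf⟩ := Nat.Partrec.Code.exists_code.1 h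
  refine ⟨fun a s => (Nat.Partrec.Code.evaln s cf (Encodable.encode a)).isSome = true, ?_, ?_, ?_⟩
  · refine Primrec.eq.comp ?_ (Primrec.const true)
    refine Primrec.option_isSome.comp ?_
    exact Nat.Partrec.Code.primrec_evaln.comp
      ((Primrec.snd.pair (Primrec.const cf)).pair (Primrec.encode.comp Primrec.fst))
  · intro a s t hst hs
    obtain ⟨x, hx⟩ := Option.isSome_iff_exists.1 hs
    exact Option.isSome_iff_exists.2 ⟨x, Nat.Partrec.Code.evaln_mono hst hx⟩
  · intro a
    have h1 : p a ↔ (Nat.Partrec.Code.eval cf (Encodable.encode a)).Dom := by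
      rw [hcf]
      simp only [Encodable.encodek, Part.coe_some, Part.bind_some, Part.map_Dom]
      constructor
      · intro h
        exact ⟨h, trivial⟩
      · rintro ⟨h, -⟩
        exact h
    rw [h1, Part.dom_iff_mem]
    constructor
    · rintro ⟨x, hx⟩
      obtain ⟨s, hs⟩ := Nat.Partrec.Code.evaln_complete.1 hx
      exact ⟨s, Option.isSome_iff_exists.2 ⟨x, hs⟩⟩
    · rintro ⟨s, hs⟩
      obtain ⟨x, hx⟩ := Option.isSome_iff_exists.1 hs
      exact ⟨x, Nat.Partrec.Code.evaln_sound hx⟩

theorem Staged.of_pp {p : α → Prop} (h : PrimrecPred p) : Staged p :=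
  ⟨fun a _ => p a, h.comp Primrec.fst, fun _ _ _ _ h => h, fun a => by simp⟩

theorem Staged.and {p q : α → Prop} (hp : Staged p) (hq : Staged q) :
    Staged (fun a => p a ∧ q a) := by
  obtain ⟨P, hP, hPm, hPe⟩ := hp
  obtain ⟨Q, hQ, hQm, hQe⟩ := hq
  refine ⟨fun a s => P a s ∧ Q a s, PrimrecPred.and hP hQ,
    fun a s t hst h => ⟨hPm a s t hst h.1, hQm a s t hst h.2⟩, fun a => ?_⟩
  change p a ∧ q a ↔ ∃ s, P a s ∧ Q a s
  rw [hPe, hQe]
  constructor
  · rintro ⟨⟨s, hs⟩, ⟨t, ht⟩⟩
    exact ⟨max s t, hPm a _ _ (le_max_left _ _) hs, hQm a _ _ (le_max_right _ _) ht⟩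
  · rintro ⟨s, hs⟩
    exact ⟨⟨s, hs.1⟩, ⟨s, hs.2⟩⟩

theorem Staged.comp {p : β → Prop} (hp : Staged p) {f : α → β} (hf : Primrec f) :
    Staged (fun a => p (f a)) := by
  obtain ⟨P, hP, hPm, hPe⟩ := hp
  exact ⟨fun a s => P (f a) s, PrimrecRel.comp₂ hP (hf.comp Primrec.fst) Primrec.snd,
    fun a s t hst h => hPm _ s t hst h, fun a => hPe _⟩

/-- Search. -/
theorem exists_computable_choice {δ : Type*} [Primcodable δ] [Inhabited δ]
    {R : α → δ → Prop} (hR : PrimrecPred (fun x : α × δ => R x.1 x.2))
    (hex : ∀ a, ∃ d, R a d) :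
    ∃ f : α → δ, Computable f ∧ ∀ a, R a (f a) := by
  classical
  have hP : PrimrecPred (fun x : α × ℕ => (Option.casesOn (Encodable.decode (α := δ) x.2) false
      (fun d => decide (R x.1 d)) : Bool) = true) := by
    refine Primrec.eq.comp ?_ (Primrec.const true)
    refine Primrec.option_casesOn (Primrec.decode.comp Primrec.snd) (Primrec.const false) ?_
    exact hR.decide.comp (Primrec.pair (Primrec.fst.comp Primrec.fst) Primrec.snd)
  have hex' : ∀ a, ∃ n : ℕ, (Option.casesOn (Encodable.decode (α := δ) n) false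
      (fun d => decide (R a d)) : Bool) = true := by
    intro a
    obtain ⟨d, hd⟩ := hex a
    refine ⟨Encodable.encode d, ?_⟩
    rw [Encodable.encodek]
    simpa using hd
  have h := Computable.find (P := fun a n => (Option.casesOn (Encodable.decode (α := δ) n) false
      (fun d => decide (R a d)) : Bool) = true) hP.computablePred hex'
  refine ⟨fun a => ((Encodable.decode (α := δ) (Nat.find (hex' a))).getD default),
    (Primrec.option_getD_default.to_comp.comp (Computable.decode.comp h)), fun a => ?_⟩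
  have h2 := Nat.find_spec (hex' a)
  rcases h3 : Encodable.decode (α := δ) (Nat.find (hex' a)) with - | d
  · rw [h3] at h2
    simp at h2
  · rw [h3] at h2
    change R a ((Encodable.decode (α := δ) (Nat.find (hex' a))).getD default)
    rw [h3]
    simpa using h2

end Pool.Agent.SC
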