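import Pool.Agent.SC.Types
import Pool.Agent.SC.PrimAux

namespace Pool.Agent.SC

open SimpleGraph

theorem gr_adj {c : Code} {a b : Fin c.1} :
    (gr c).Adj a b ↔ a ≠ b ∧ (((a : ℕ), (b : ℕ)) ∈ c.2 ∨ ((b : ℕ), (a : ℕ)) ∈ c.2) := by
  unfold gr
  rw [fromRel_adj]

theorem sep_gr {c : Code} {a b : Fin c.1} :
    (gr c)ᶜ.Adj a b ↔ (a : ℕ) ≠ b ∧ ¬ (((a : ℕ), (b : ℕ)) ∈ c.2 ∨ ((b : ℕ), (a : ℕ)) ∈ c.2) := by
  rw [compl_adj, gr_adj]
  constructor
  · rintro ⟨h1, h2⟩
    refine ⟨fun e => h1 (Fin.ext e), fun h => h2 ⟨h1, h⟩⟩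
  · rintro ⟨h1, h2⟩
    exact ⟨fun e => h1 (by rw [e]), fun h => h2 h.2⟩

/-- Separation of vertices given as numbers. -/
def esep (c : Code) (a b : ℕ) : Prop := a ≠ b ∧ ¬ ((a, b) ∈ c.2 ∨ (b, a) ∈ c.2)

/-- Separation of words given as numbers, written in base c.1. -/
def wsep (c : Code) (M x y : ℕ) : Prop :=
  ∃ i < M, esep c (x / c.1 ^ i % c.1) (y / c.1 ^ i % c.1)

/-- The word with number x. -/
def wd (N : ℕ) (hN : 0 < N) (M : ℕ) (x : ℕ) : Fin M → Fin N :=
  fun i => ⟨x / N ^ (i : ℕ) % N, Nat.mod_lt _ hN⟩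

theorem sep_wd {c : Code} (hc : 0 < c.1) (M x y : ℕ) :
    (spow (gr c) (Fin M))ᶜ.Adj (wd c.1 hc M x) (wd c.1 hc M y) ↔ wsep c M x y := by
  rw [sep_spow]
  constructor
  · rintro ⟨i, hi⟩
    exact ⟨i, i.2, sep_gr.1 hi⟩
  · rintro ⟨i, hi, h⟩
    exact ⟨⟨i, hi⟩, sep_gr.2 h⟩

theorem exists_wd {N : ℕ} (hN : 0 < N) {M : ℕ} (u : Fin M → Fin N) :
    ∃ x < N ^ M, wd N hN M x = u := by
  refine ⟨(finFunctionFinEquiv u : Fin (N ^ M)), Fin.is_lt _, ?_⟩
  have h := finFunctionFinEquiv.symm_apply_apply u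
  funext i
  have h2 := congrFun h i
  rw [← h2]
  apply Fin.ext
  rfl

theorem wd_injOn {N : ℕ} (hN : 0 < N) {M x y : ℕ} (hx : x < N ^ M) (hy : y < N ^ M)
    (h : wd N hN M x = wd N hN M y) : x = y := by
  have h1 : ∀ z (hz : z < N ^ M), wd N hN M z = finFunctionFinEquiv.symm ⟨z, hz⟩ := by
    intro z hz
    funext i
    apply Fin.ext
    rfl
  rw [h1 x hx, h1 y hy] at h
  have := finFunctionFinEquiv.symm.injective h
  simpa using this

/-- The number x is the number of a permutation. -/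
def isPermN (n x : ℕ) : Prop := ∀ i < n, ∀ j < n, x / n ^ i % n = x / n ^ j % n → i = j

open Classical in
/-- The numbers of the permutations of n letters. -/
noncomputable def plist (n : ℕ) : List ℕ := (List.range (n ^ n)).filter (fun x => isPermN n x)

open Classical in
/-- Code of a graph from its adjacency relation. -/
noncomputable def mkc (v : ℕ) (A : ℕ → ℕ → Prop) : Code :=
  (v, ((List.range v).flatMap (fun a => (List.range v).map (fun b => (a, b)))).filter
    (fun p => A p.1 p.2))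

theorem mem_mkc {v : ℕ} {A : ℕ → ℕ → Prop} {a b : ℕ} :
    (a, b) ∈ (mkc v A).2 ↔ a < v ∧ b < v ∧ A a b := by
  unfold mkc
  simp only [List.mem_filter, List.mem_flatMap, List.mem_range, List.mem_map, Prod.mk.injEq,
    decide_eq_true_eq]
  constructor
  · rintro ⟨⟨a', ha, b', hb, rfl, rfl⟩, h⟩
    exact ⟨ha, hb, h⟩
  · rintro ⟨ha, hb, h⟩
    exact ⟨⟨a, ha, b, hb, rfl, rfl⟩, h⟩

/-- Image of k under the permutation number s of the element with number x. -/
noncomputable def pdig (n x s k : ℕ) : ℕ :=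
  (plist n).getD (x / (plist n).length ^ s % (plist n).length) 0 / n ^ k % n

/-- Separation of the elements x and y of the group in the graph of the word with number w. -/
def bsep (c : Code) (n t w x y : ℕ) : Prop :=
  ∃ s < t, ∃ k < n, esep c (w / c.1 ^ (pdig n x s k + n * s) % c.1)
    (w / c.1 ^ (pdig n y s k + n * s) % c.1)

/-- Adjacency relation of the join of the Cayley graph and p isolated vertices. -/
def jadj (c : Code) (n t w : ℕ) (a b : ℕ) : Prop :=
  (a < (plist n).length ^ t ∧ b < (plist n).length ^ t ∧ ¬ bsep c n t w a b) ∨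
  (a < (plist n).length ^ t ∧ (plist n).length ^ t ≤ b)

/-- Code of the join of the Cayley graph of the word with number w, with t blocks of length n,
and an edgeless graph on p vertices. -/
noncomputable def jc (c : Code) (n t w p : ℕ) : Code :=
  mkc ((plist n).length ^ t + p) (jadj c n t w)

/-! ### Primitive recursiveness -/

open Primrec

variable {α : Type*} [Primcodable α]

theorem pp_esep {fc : α → Code} {fa fb : α → ℕ} (hc : Primrec fc) (ha : Primrec fa)
    (hb : Primrec fb) : PrimrecPred (fun x => esep (fc x) (fa x) (fb x)) := by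
  refine PrimrecPred.and (pp_eq ha hb).not (PrimrecPred.not (PrimrecPred.or ?_ ?_))
  · exact pp_mem (Primrec.pair ha hb) (Primrec.snd.comp hc)
  · exact pp_mem (Primrec.pair hb ha) (Primrec.snd.comp hc)

theorem pr_dig {fN fi fx : α → ℕ} (hN : Primrec fN) (hi : Primrec fi) (hx : Primrec fx) :
    Primrec (fun a => fx a / fN a ^ fi a % fN a) :=
  Primrec.nat_mod.comp (Primrec.nat_div.comp hx (pr_pow.comp hN hi)) hN

theorem pp_wsep {fc : α → Code} {fM fx fy : α → ℕ} (hc : Primrec fc) (hM : Primrec fM)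
    (hx : Primrec fx) (hy : Primrec fy) :
    PrimrecPred (fun a => wsep (fc a) (fM a) (fx a) (fy a)) := by
  refine pp_ex_lt (R := fun a i => esep (fc a) (fx a / (fc a).1 ^ i % (fc a).1)
    (fy a / (fc a).1 ^ i % (fc a).1)) ?_ hM
  have hc' : Primrec (fun p : α × ℕ => fc p.1) := hc.comp Primrec.fst
  exact pp_esep hc'
    (pr_dig (Primrec.fst.comp hc') Primrec.snd (hx.comp Primrec.fst))
    (pr_dig (Primrec.fst.comp hc') Primrec.snd (hy.comp Primrec.fst))

theorem pr_plist {fn : α → ℕ} (hn : Primrec fn) : Primrec (fun a => plist (fn a)) := by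
  unfold plist
  refine pr_filter (R := fun a x => isPermN (fn a) x) _ ?_
    (Primrec.list_range.comp (pr_pow.comp hn hn))
  refine pp_all_lt (R := fun (p : α × ℕ) i => ∀ j < fn p.1,
    p.2 / fn p.1 ^ i % fn p.1 = p.2 / fn p.1 ^ j % fn p.1 → i = j) ?_ (hn.comp Primrec.fst)
  refine pp_all_lt (R := fun (p : (α × ℕ) × ℕ) j =>
    p.1.2 / fn p.1.1 ^ p.2 % fn p.1.1 = p.1.2 / fn p.1.1 ^ j % fn p.1.1 → p.2 = j) ?_
    (hn.comp (Primrec.fst.comp Primrec.fst))
  have h0 : Primrec (fun q : ((α × ℕ) × ℕ) × ℕ => fn q.1.1.1) :=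
    hn.comp (Primrec.fst.comp (Primrec.fst.comp Primrec.fst))
  have h1 : Primrec (fun q : ((α × ℕ) × ℕ) × ℕ => q.1.1.2) :=
    Primrec.snd.comp (Primrec.fst.comp Primrec.fst)
  have h2 : Primrec (fun q : ((α × ℕ) × ℕ) × ℕ => q.1.2) := Primrec.snd.comp Primrec.fst
  have h3 : Primrec (fun q : ((α × ℕ) × ℕ) × ℕ => q.2) := Primrec.snd
  exact pp_imp (pp_eq (pr_dig h0 h2 h1) (pr_dig h0 h3 h1)) (pp_eq h2 h3)

theorem pr_plen {fn : α → ℕ} (hn : Primrec fn) : Primrec (fun a => (plist (fn a)).length) :=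
  Primrec.list_length.comp (pr_plist hn)

theorem pr_pdig {fn fx fs fk : α → ℕ} (hn : Primrec fn) (hx : Primrec fx) (hs : Primrec fs)
    (hk : Primrec fk) : Primrec (fun a => pdig (fn a) (fx a) (fs a) (fk a)) := by
  unfold pdig
  exact pr_dig hn hk ((Primrec.list_getD 0).comp (pr_plist hn) (pr_dig (pr_plen hn) hs hx))

theorem pp_bsep {fc : α → Code} {fn ft fw fx fy : α → ℕ} (hc : Primrec fc) (hn : Primrec fn)
    (ht : Primrec ft) (hw : Primrec fw) (hx : Primrec fx) (hy : Primrec fy) :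
    PrimrecPred (fun a => bsep (fc a) (fn a) (ft a) (fw a) (fx a) (fy a)) := by
  refine pp_ex_lt (R := fun a s => ∃ k < fn a,
    esep (fc a) (fw a / (fc a).1 ^ (pdig (fn a) (fx a) s k + fn a * s) % (fc a).1)
      (fw a / (fc a).1 ^ (pdig (fn a) (fy a) s k + fn a * s) % (fc a).1)) ?_ ht
  refine pp_ex_lt (R := fun (p : α × ℕ) k =>
    esep (fc p.1) (fw p.1 / (fc p.1).1 ^ (pdig (fn p.1) (fx p.1) p.2 k + fn p.1 * p.2) %
        (fc p.1).1)
      (fw p.1 / (fc p.1).1 ^ (pdig (fn p.1) (fy p.1) p.2 k + fn p.1 * p.2) % (fc p.1).1)) ?_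
    (hn.comp Primrec.fst)
  have h0 : Primrec (fun q : (α × ℕ) × ℕ => q.1.1) := Primrec.fst.comp Primrec.fst
  have hs : Primrec (fun q : (α × ℕ) × ℕ => q.1.2) := Primrec.snd.comp Primrec.fst
  have hk : Primrec (fun q : (α × ℕ) × ℕ => q.2) := Primrec.snd
  have hN : Primrec (fun q : (α × ℕ) × ℕ => (fc q.1.1).1) := Primrec.fst.comp (hc.comp h0)
  have hns : Primrec (fun q : (α × ℕ) × ℕ => fn q.1.1 * q.1.2) :=
    Primrec.nat_mul.comp (hn.comp h0) hs
  exact pp_esep (hc.comp h0)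
    (pr_dig hN (Primrec.nat_add.comp (pr_pdig (hn.comp h0) (hx.comp h0) hs hk) hns) (hw.comp h0))
    (pr_dig hN (Primrec.nat_add.comp (pr_pdig (hn.comp h0) (hy.comp h0) hs hk) hns) (hw.comp h0))

theorem pr_mkc {fv : α → ℕ} {A : α → ℕ → ℕ → Prop} (hv : Primrec fv)
    (hA : PrimrecPred (fun p : α × (ℕ × ℕ) => A p.1 p.2.1 p.2.2)) :
    Primrec (fun a => mkc (fv a) (A a)) := by
  unfold mkc
  refine Primrec.pair hv ?_
  refine pr_filter (R := fun a (p : ℕ × ℕ) => A a p.1 p.2) _ hA ?_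
  refine Primrec.list_flatMap (Primrec.list_range.comp hv) ?_
  refine Primrec.list_map (Primrec.list_range.comp (hv.comp Primrec.fst)) ?_
  exact Primrec.pair (Primrec.snd.comp Primrec.fst) Primrec.snd

theorem pr_jc {fc : α → Code} {fn ft fw fp : α → ℕ} (hc : Primrec fc) (hn : Primrec fn)
    (ht : Primrec ft) (hw : Primrec fw) (hp : Primrec fp) :
    Primrec (fun a => jc (fc a) (fn a) (ft a) (fw a) (fp a)) := by
  unfold jc
  have hlen : Primrec (fun a => (plist (fn a)).length ^ (ft a)) := pr_pow.comp (pr_plen hn) ht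
  refine pr_mkc (A := fun a => jadj (fc a) (fn a) (ft a) (fw a))
    (Primrec.nat_add.comp hlen hp) ?_
  have hlen' : Primrec (fun p : α × (ℕ × ℕ) => (plist (fn p.1)).length ^ (ft p.1)) :=
    hlen.comp Primrec.fst
  have ha : Primrec (fun p : α × (ℕ × ℕ) => p.2.1) := Primrec.fst.comp Primrec.snd
  have hb : Primrec (fun p : α × (ℕ × ℕ) => p.2.2) := Primrec.snd.comp Primrec.snd
  refine PrimrecPred.or (PrimrecPred.and (pp_lt ha hlen') (PrimrecPred.and (pp_lt hb hlen')
    (PrimrecPred.not ?_))) (PrimrecPred.and (pp_lt ha hlen') (pp_le hlen' hb))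
  exact pp_bsep (hc.comp Primrec.fst) (hn.comp Primrec.fst) (ht.comp Primrec.fst)
    (hw.comp Primrec.fst) ha hb

end Pool.Agent.SC
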