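import Mathlib

/-!
# Definitions used in the statement

Strong powers, Shannon capacity, joins with edgeless graphs, Cayley graphs, codes of finite
graphs, computability of the capacity, and the
problems to which it is reduced.
-/

namespace Pool.Agent.SC

variable {V : Type*}

/-- The strong power of G with coordinates indexed by I: two distinct words are adjacent when in
every coordinate their letters are equal or adjacent in G. -/
def spow (G : SimpleGraph V) (I : Type*) : SimpleGraph (I → V) where
  Adj x y := x ≠ y ∧ ∀ i, x i = y i ∨ G.Adj (x i) (y i)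
  symm := ⟨fun _ _ h => ⟨h.1.symm, fun i => (h.2 i).imp Eq.symm (fun e => e.symm)⟩⟩
  loopless := ⟨fun _ h => h.1 rfl⟩

/-- The Shannon capacity of G: the supremum over n ≥ 1 of the n-th root of the independence
number of the n-th strong power. -/
noncomputable def theta (G : SimpleGraph V) : ℝ :=
  ⨆ n : ℕ, ((spow G (Fin (n + 1))).indepNum : ℝ) ^ (1 / ((n : ℝ) + 1))

/-- The join of G with an edgeless graph on m vertices: the disjoint union of the two, with all
edges between the two parts added. -/
def joinE (G : SimpleGraph V) (m : ℕ) : SimpleGraph (V ⊕ Fin m) where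
  Adj a b := match a, b with
    | Sum.inl v, Sum.inl w => G.Adj v w
    | Sum.inl _, Sum.inr _ => True
    | Sum.inr _, Sum.inl _ => True
    | Sum.inr _, Sum.inr _ => False
  symm := ⟨fun a b h => by
    rcases a with a | a <;> rcases b with b | b <;> simp_all [G.adj_comm]⟩
  loopless := ⟨fun a h => by rcases a with a | a <;> simp_all⟩

/-- The Cayley graph of a group with connection set S: two distinct elements are adjacent when
one is obtained from the other by left multiplication with an element of S. -/
def cayley {Γ : Type} [Group Γ] (S : Set Γ) : SimpleGraph Γ :=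
  SimpleGraph.fromRel (fun a b => a * b⁻¹ ∈ S)

/-- Cayley graphs of finite groups, up to isomorphism. -/
def IsCayley (G : SimpleGraph V) : Prop :=
  ∃ (Γ : Type) (_ : Group Γ) (_ : Finite Γ) (S : Set Γ), Nonempty (G ≃g cayley S)

/-- Joins of a Cayley graph of a finite group and an edgeless graph. -/
def IsCayleyJoin (G : SimpleGraph V) : Prop :=
  ∃ (a m : ℕ) (X : SimpleGraph (Fin a)), IsCayley X ∧ Nonempty (G ≃g joinE X m)

/-- A code of a finite graph: the number of vertices and a list of edges. -/
abbrev Code := ℕ × List (ℕ × ℕ)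

/-- The graph with code c: vertices 0, ..., c.1 - 1, two distinct vertices being adjacent when
one of the two ordered pairs is in the list. -/
def gr (c : Code) : SimpleGraph (Fin c.1) :=
  SimpleGraph.fromRel (fun a b => ((a : ℕ), (b : ℕ)) ∈ c.2)

/-- The Shannon capacity is computable: from the code of a graph and k, a computable function
returns the numerator and the denominator (minus one) of a rational within 2^(-k) of the
capacity. -/
def ThetaComputable : Prop :=
  ∃ f : Code × ℕ → ℕ × ℕ, Computable f ∧ ∀ (c : Code) (k : ℕ),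
    |((f (c, k)).1 : ℝ) / (((f (c, k)).2 : ℝ) + 1) - theta (gr c)| ≤ 1 / 2 ^ k

/-- R grows slower than every positive power: for every e there is C with
R(v)^e ≤ C (v + 1) for all v. -/
def Subpoly (R : ℕ → ℕ) : Prop := ∀ e : ℕ, ∃ C : ℕ, ∀ v : ℕ, R v ^ e ≤ C * (v + 1)

/-- A class of finite graphs. -/
abbrev GraphClass := (v : ℕ) → SimpleGraph (Fin v) → Prop

/-- All finite graphs. -/
def allGraphs : GraphClass := fun _ _ => True

/-- All Cayley graphs of finite groups. -/
def cayleyGraphs : GraphClass := fun _ G => IsCayley G

/-- All joins of a Cayley graph of a finite group and an edgeless graph. -/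
def cayleyJoins : GraphClass := fun _ G => IsCayleyJoin G

/-- For graphs in the class (with v ≥ 1 vertices) and integers m ≥ 1, P tells capacity at most m
from capacity at least R(v) m. -/
def SolvesThreshold (R : ℕ → ℕ) (C : GraphClass) (P : Code × ℕ → Prop) : Prop :=
  ∀ (c : Code) (m : ℕ), 0 < c.1 → 0 < m → C c.1 (gr c) →
    (theta (gr c) ≤ m → P (c, m)) ∧ ((R c.1 : ℝ) * m ≤ theta (gr c) → ¬ P (c, m))

/-- For graphs in the class (with v ≥ 1 vertices), P tells capacity at most the square root of v
from capacity at least R(v) times the square root of v. -/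
def SolvesSqrt (R : ℕ → ℕ) (C : GraphClass) (P : Code → Prop) : Prop :=
  ∀ c : Code, 0 < c.1 → C c.1 (gr c) →
    (theta (gr c) ≤ Real.sqrt c.1 → P c) ∧
      ((R c.1 : ℝ) * Real.sqrt c.1 ≤ theta (gr c) → ¬ P c)

/-- For graphs in the class (with v ≥ 1 vertices), P tells capacity equal to the independence
number from capacity at least R(v) times the independence number. -/
def SolvesIndep (R : ℕ → ℕ) (C : GraphClass) (P : Code → Prop) : Prop :=
  ∀ c : Code, 0 < c.1 → C c.1 (gr c) →
    (theta (gr c) = (gr c).indepNum → P c) ∧
      ((R c.1 : ℝ) * (gr c).indepNum ≤ theta (gr c) → ¬ P c)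

/-- For graphs G in the class with v ≥ 1 vertices, some n with 1 ≤ n ≤ B(v) satisfies
Θ(G) < R(v) α(G^n)^(1/n). -/
def BoundsRate (R : ℕ → ℕ) (C : GraphClass) (B : ℕ → ℕ) : Prop :=
  ∀ (v : ℕ) (G : SimpleGraph (Fin v)), 0 < v → C v G → ∃ n : ℕ, 0 < n ∧ n ≤ B v ∧
    theta G ^ n < (R v : ℝ) ^ n * ((spow G (Fin n)).indepNum : ℝ)

/-- Every graph G in the class with v ≥ 1 vertices and with capacity at least R(v) α(G) has
α(G^n) > α(G)^n for some n ≤ B(v). -/
def BoundsFirstGain (R : ℕ → ℕ) (C : GraphClass) (B : ℕ → ℕ) : Prop :=
  ∀ (v : ℕ) (G : SimpleGraph (Fin v)), 0 < v → C v G → (R v : ℝ) * G.indepNum ≤ theta G →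
    ∃ n ≤ B v, G.indepNum ^ n < (spow G (Fin n)).indepNum

end Pool.Agent.SC
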