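import Pool.Agent.SC.Rate

namespace Pool.Agent.SC

open SimpleGraph

variable {α : Type*} [Primcodable α]

theorem al_pow_le {V : Type*} [Finite V] (G : SimpleGraph V) {m : ℝ} (h : theta G ≤ m) (n : ℕ) :
    (al G n : ℝ) ≤ m ^ n :=
  le_trans (al_le_theta G n) (pow_le_pow_left₀ (theta_nonneg G) h n)

/-- A computable blocklength yields a decision procedure for the threshold problem. -/
theorem threshold_of_rate {R : ℕ → ℕ} {C : GraphClass} {B : ℕ → ℕ} (hB : Computable B)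
    (h : BoundsRate R C B) :
    ∃ P : Code × ℕ → Prop, ComputablePred P ∧ SolvesThreshold R C P := by
  refine ⟨fun x => ∀ n < B x.1.1 + 1, (gr (powc x.1 n)).indepNum ≤ x.2 ^ n, ?_, ?_⟩
  · have hp : PrimrecPred (fun y : ℕ × (Code × ℕ) =>
        ∀ n < y.1 + 1, (gr (powc y.2.1 n)).indepNum ≤ y.2.2 ^ n) := by
      refine pp_all_lt (R := fun (y : ℕ × (Code × ℕ)) n =>
        (gr (powc y.2.1 n)).indepNum ≤ y.2.2 ^ n) ?_ (Primrec.succ.comp Primrec.fst)
      have a1 : Primrec (fun z : (ℕ × (Code × ℕ)) × ℕ => z.1.2.1) :=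
        Primrec.fst.comp (Primrec.snd.comp Primrec.fst)
      have a2 : Primrec (fun z : (ℕ × (Code × ℕ)) × ℕ => z.1.2.2) :=
        Primrec.snd.comp (Primrec.snd.comp Primrec.fst)
      exact pp_le (pr_indepNum.comp (pr_powc a1 Primrec.snd)) (pr_pow.comp a2 Primrec.snd)
    have hc : Computable (fun x : Code × ℕ => (B x.1.1, x)) :=
      Computable.pair (hB.comp (Primrec.fst.comp Primrec.fst).to_comp) Computable.id
    exact cp_comp hp hc
  · intro c m hc hm hC
    constructor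
    · intro hth n _
      change (gr (powc c n)).indepNum ≤ m ^ n
      rw [indepNum_powc c hc]
      exact_mod_cast al_pow_le (gr c) hth n
    · intro hth hP
      obtain ⟨n, hn0, hn, hlt⟩ := h c.1 (gr c) hc hC
      have h1 : (gr (powc c n)).indepNum ≤ m ^ n := hP n (Nat.lt_succ_of_le hn)
      rw [indepNum_powc c hc] at h1
      have h2 : ((R c.1 : ℝ) * m) ^ n ≤ theta (gr c) ^ n :=
        pow_le_pow_left₀ (by positivity) hth n
      have h3 : (R c.1 : ℝ) ^ n * ((spow (gr c) (Fin n)).indepNum : ℝ) ≤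
          ((R c.1 : ℝ) * m) ^ n := by
        rw [mul_pow]
        apply mul_le_mul_of_nonneg_left _ (by positivity)
        exact_mod_cast h1
      linarith

/-- A computable bound for the first gain yields a decision procedure. -/
theorem indep_of_gain {R : ℕ → ℕ} {C : GraphClass} {B : ℕ → ℕ} (hB : Computable B)
    (h : BoundsFirstGain R C B) :
    ∃ P : Code → Prop, ComputablePred P ∧ SolvesIndep R C P := by
  refine ⟨fun x => ∀ n < B x.1 + 1, (gr (powc x n)).indepNum ≤ (gr x).indepNum ^ n, ?_, ?_⟩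
  · have hp : PrimrecPred (fun y : ℕ × Code =>
        ∀ n < y.1 + 1, (gr (powc y.2 n)).indepNum ≤ (gr y.2).indepNum ^ n) := by
      refine pp_all_lt (R := fun (y : ℕ × Code) n =>
        (gr (powc y.2 n)).indepNum ≤ (gr y.2).indepNum ^ n) ?_ (Primrec.succ.comp Primrec.fst)
      have a1 : Primrec (fun z : (ℕ × Code) × ℕ => z.1.2) := Primrec.snd.comp Primrec.fst
      exact pp_le (pr_indepNum.comp (pr_powc a1 Primrec.snd))
        (pr_pow.comp (pr_indepNum.comp a1) Primrec.snd)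
    have hc : Computable (fun x : Code => (B x.1, x)) :=
      Computable.pair (hB.comp Primrec.fst.to_comp) Computable.id
    exact cp_comp hp hc
  · intro c hc hC
    constructor
    · intro hth n _
      rw [indepNum_powc c hc]
      exact_mod_cast al_pow_le (gr c) hth.le n
    · intro hth hP
      obtain ⟨n, hn, hlt⟩ := h c.1 (gr c) hc hC hth
      have h1 : (gr (powc c n)).indepNum ≤ (gr c).indepNum ^ n := hP n (Nat.lt_succ_of_le hn)
      rw [indepNum_powc c hc] at h1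
      exact absurd h1 (not_le.2 hlt)

theorem BoundsRate.gain {R : ℕ → ℕ} {C : GraphClass} {B : ℕ → ℕ}
    (h : BoundsRate R C B) : BoundsFirstGain R C B := by
  intro v G hv hC hth
  obtain ⟨n, hn0, hn, hlt⟩ := h v G hv hC
  refine ⟨n, hn, ?_⟩
  by_contra hcon
  push Not at hcon
  have h2 : ((R v : ℝ) * G.indepNum) ^ n ≤ theta G ^ n :=
    pow_le_pow_left₀ (by positivity) hth n
  have h3 : (R v : ℝ) ^ n * ((spow G (Fin n)).indepNum : ℝ) ≤
      ((R v : ℝ) * G.indepNum) ^ n := by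
    rw [mul_pow]
    apply mul_le_mul_of_nonneg_left _ (by positivity)
    exact_mod_cast hcon
  linarith

theorem rate_of_computable (h : ThetaComputable) {R : ℕ → ℕ} (hR : ∀ v, 2 ≤ R v) :
    ∃ B : ℕ → ℕ, Computable B ∧ BoundsRate R allGraphs B := by
  obtain ⟨B, hB, hBr⟩ := rate_two h
  refine ⟨B, hB, fun v G hv _ => ?_⟩
  obtain ⟨n, hn0, hn, hlt⟩ := hBr v G hv
  refine ⟨n, hn0, hn, lt_of_lt_of_le hlt ?_⟩
  apply mul_le_mul_of_nonneg_right _ (by positivity)
  apply pow_le_pow_left₀ (by norm_num)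
  exact_mod_cast hR v

/-- The threshold for R is recursively enumerable. -/
theorem staged_R {R : ℕ → ℕ} (hR : Computable R) {f g h : α → ℕ} (hf : Primrec f)
    (hg : Primrec g) (hh : Primrec h) : Staged (fun a => R (f a) * g a ≤ h a) := by
  have hp : PrimrecPred (fun y : ℕ × (ℕ × ℕ) => y.1 * y.2.1 ≤ y.2.2) :=
    pp_le (Primrec.nat_mul.comp Primrec.fst (Primrec.fst.comp Primrec.snd))
      (Primrec.snd.comp Primrec.snd)
  have hc : Computable (fun y : ℕ × (ℕ × ℕ) => (R y.1, y.2)) :=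
    Computable.pair (hR.comp Computable.fst) Computable.snd
  have h1 : Staged (fun y : ℕ × (ℕ × ℕ) => R y.1 * y.2.1 ≤ y.2.2) :=
    Staged.of_re (cp_comp hp hc).to_re
  exact Staged.comp (p := fun y : ℕ × (ℕ × ℕ) => R y.1 * y.2.1 ≤ y.2.2)
    (f := fun a => (f a, (g a, h a))) h1 (Primrec.pair hf (Primrec.pair hg hh))

theorem computable_of_threshold {R : ℕ → ℕ} (hR : Computable R) (hRs : Subpoly R)
    {P : Code × ℕ → Prop} (hP : REPred P) (h : SolvesThreshold R cayleyGraphs P) :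
    ThetaComputable := by
  have a1 : Primrec (fun x : Code × ℕ × ℕ × ℕ × ℕ × ℕ => x.1) := Primrec.fst
  have a2 : Primrec (fun x : Code × ℕ × ℕ × ℕ × ℕ × ℕ => x.2.1) := Primrec.fst.comp Primrec.snd
  have a3 : Primrec (fun x : Code × ℕ × ℕ × ℕ × ℕ × ℕ => x.2.2.1) :=
    Primrec.fst.comp (Primrec.snd.comp Primrec.snd)
  have a4 : Primrec (fun x : Code × ℕ × ℕ × ℕ × ℕ × ℕ => x.2.2.2.1) :=
    Primrec.fst.comp (Primrec.snd.comp (Primrec.snd.comp Primrec.snd))
  have a5 : Primrec (fun x : Code × ℕ × ℕ × ℕ × ℕ × ℕ => x.2.2.2.2.1) :=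
    Primrec.fst.comp (Primrec.snd.comp (Primrec.snd.comp (Primrec.snd.comp Primrec.snd)))
  have a6 : Primrec (fun x : Code × ℕ × ℕ × ℕ × ℕ × ℕ => x.2.2.2.2.2) :=
    Primrec.snd.comp (Primrec.snd.comp (Primrec.snd.comp (Primrec.snd.comp Primrec.snd)))
  have hj : Primrec (fun x : Code × ℕ × ℕ × ℕ × ℕ × ℕ => jc x.1 x.2.1 x.2.2.1 x.2.2.2.1 0) :=
    pr_jc a1 a2 a3 a4 (Primrec.const 0)
  have hU : Staged (fun x : Code × ℕ × ℕ × ℕ × ℕ × ℕ =>
      0 < x.2.2.2.2.1 ∧ P (jc x.1 x.2.1 x.2.2.1 x.2.2.2.1 0, x.2.2.2.2.1) ∧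
        R (jc x.1 x.2.1 x.2.2.1 x.2.2.2.1 0).1 * x.2.2.2.2.1 ≤ x.2.2.2.2.2) := by
    refine Staged.and (Staged.of_pp (pp_lt (Primrec.const 0) a5)) (Staged.and ?_ ?_)
    · exact Staged.comp (p := P) (f := fun x : Code × ℕ × ℕ × ℕ × ℕ × ℕ =>
        (jc x.1 x.2.1 x.2.2.1 x.2.2.2.1 0, x.2.2.2.2.1)) (Staged.of_re hP) (Primrec.pair hj a5)
    · exact staged_R hR (Primrec.fst.comp hj) a5 a6
  refine gen hU hRs ?_ ?_
  · rintro c n t w m b hc ⟨hm, hPm, hRm⟩
    have h1 := (h (jc c n t w 0) m (jc_pos c n t w 0) hm (cayley_jc_zero c hc n t w)).2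
    have h2 : theta (gr (jc c n t w 0)) < (R (jc c n t w 0).1 : ℝ) * m := by
      by_contra hcon
      exact h1 (not_lt.1 hcon) hPm
    refine le_trans h2.le ?_
    exact_mod_cast hRm
  · intro c n t w m b hc hm hth hb
    refine ⟨hm, ?_, ?_⟩
    · exact (h (jc c n t w 0) m (jc_pos c n t w 0) hm (cayley_jc_zero c hc n t w)).1 hth
    · apply hb
      change (plist n).length ^ t + 0 ≤ (plist n).length ^ t + m
      omega

theorem computable_of_indep {R : ℕ → ℕ} (hR : Computable R) (hRs : Subpoly R)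
    {P : Code → Prop} (hP : REPred P) (h : SolvesIndep R cayleyJoins P) :
    ThetaComputable := by
  have a1 : Primrec (fun x : Code × ℕ × ℕ × ℕ × ℕ × ℕ => x.1) := Primrec.fst
  have a2 : Primrec (fun x : Code × ℕ × ℕ × ℕ × ℕ × ℕ => x.2.1) := Primrec.fst.comp Primrec.snd
  have a3 : Primrec (fun x : Code × ℕ × ℕ × ℕ × ℕ × ℕ => x.2.2.1) :=
    Primrec.fst.comp (Primrec.snd.comp Primrec.snd)
  have a4 : Primrec (fun x : Code × ℕ × ℕ × ℕ × ℕ × ℕ => x.2.2.2.1) :=
    Primrec.fst.comp (Primrec.snd.comp (Primrec.snd.comp Primrec.snd))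
  have a5 : Primrec (fun x : Code × ℕ × ℕ × ℕ × ℕ × ℕ => x.2.2.2.2.1) :=
    Primrec.fst.comp (Primrec.snd.comp (Primrec.snd.comp (Primrec.snd.comp Primrec.snd)))
  have a6 : Primrec (fun x : Code × ℕ × ℕ × ℕ × ℕ × ℕ => x.2.2.2.2.2) :=
    Primrec.snd.comp (Primrec.snd.comp (Primrec.snd.comp (Primrec.snd.comp Primrec.snd)))
  have hj : Primrec (fun x : Code × ℕ × ℕ × ℕ × ℕ × ℕ =>
      jc x.1 x.2.1 x.2.2.1 x.2.2.2.1 x.2.2.2.2.1) := pr_jc a1 a2 a3 a4 a5
  have hj0 : Primrec (fun x : Code × ℕ × ℕ × ℕ × ℕ × ℕ => jc x.1 x.2.1 x.2.2.1 x.2.2.2.1 0) :=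
    pr_jc a1 a2 a3 a4 (Primrec.const 0)
  have hU : Staged (fun x : Code × ℕ × ℕ × ℕ × ℕ × ℕ =>
      (gr (jc x.1 x.2.1 x.2.2.1 x.2.2.2.1 0)).indepNum ≤ x.2.2.2.2.1 ∧
        P (jc x.1 x.2.1 x.2.2.1 x.2.2.2.1 x.2.2.2.2.1) ∧
        R (jc x.1 x.2.1 x.2.2.1 x.2.2.2.1 x.2.2.2.2.1).1 * x.2.2.2.2.1 ≤ x.2.2.2.2.2) := by
    refine Staged.and (Staged.of_pp (pp_le (pr_indepNum.comp hj0) a5)) (Staged.and ?_ ?_)
    · exact Staged.comp (p := P) (f := fun x : Code × ℕ × ℕ × ℕ × ℕ × ℕ =>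
        jc x.1 x.2.1 x.2.2.1 x.2.2.2.1 x.2.2.2.2.1) (Staged.of_re hP) hj
    · exact staged_R hR (Primrec.fst.comp hj) a5 a6
  refine gen hU hRs ?_ ?_
  · rintro c n t w m b hc ⟨hm, hPm, hRm⟩
    have hal : (gr (jc c n t w m)).indepNum = m := by
      rw [indepNum_jc c hc]
      exact max_eq_right hm
    have h1 := (h (jc c n t w m) (jc_pos c n t w m) (cayleyJoin_jc c hc n t w m)).2
    rw [hal] at h1
    have h2 : theta (gr (jc c n t w m)) < (R (jc c n t w m).1 : ℝ) * m := by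
      by_contra hcon
      exact h1 (not_lt.1 hcon) hPm
    have h3 : theta (gr (jc c n t w 0)) ≤ theta (gr (jc c n t w m)) := by
      rw [theta_jc c hc n t w m]
      exact le_max_left _ _
    refine le_trans h3 (le_trans h2.le ?_)
    exact_mod_cast hRm
  · intro c n t w m b hc hm hth hb
    have hal0 : (gr (jc c n t w 0)).indepNum ≤ m := by
      exact_mod_cast le_trans (indepNum_le_theta (gr (jc c n t w 0))) hth
    have hal : (gr (jc c n t w m)).indepNum = m := by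
      rw [indepNum_jc c hc]
      exact max_eq_right hal0
    refine ⟨hal0, ?_, ?_⟩
    · refine (h (jc c n t w m) (jc_pos c n t w m) (cayleyJoin_jc c hc n t w m)).1 ?_
      rw [hal, theta_jc c hc n t w m]
      exact max_eq_right hth
    · apply hb
      change (plist n).length ^ t + m ≤ (plist n).length ^ t + m
      omega

theorem one_le_indepNum {V : Type*} [Finite V] [Nonempty V] (G : SimpleGraph V) :
    1 ≤ G.indepNum := by
  obtain ⟨v⟩ := ‹Nonempty V›
  have h : ({v} : Finset V).card ≤ G.indepNum := by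
    refine card_le _ id ?_
    intro x hx y hy hxy
    rw [Finset.mem_singleton] at hx hy
    exact absurd (hx.trans hy.symm) hxy
  rw [Finset.card_singleton] at h
  exact h

end Pool.Agent.SC
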