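import Pool.Agent.SC.CodeIso

namespace Pool.Agent.SC

open SimpleGraph

theorem upper_exists (N : ℕ) (hN : 1 ≤ N) {th lam : ℝ} (h1 : 1 ≤ th) (hthN : th ≤ N)
    (hlt : th < lam) {R : ℕ → ℕ} (hR : Subpoly R) (W : ℕ → ℕ) (hW : ∀ n, 1 ≤ W n) :
    ∃ n t m b : ℕ, 0 < m ∧ th ^ ((t + 1) * (n + 1)) ≤ m ∧
      (∀ v ≤ W n ^ (t + 1) + m, R v * m ≤ b) ∧
      (((n : ℝ) + 2) ^ N) ^ (t + 1) * (N : ℝ) ^ ((n + 1) * (n + 2) ^ N) * b ≤
        lam ^ ((t + 1) * (n + 1)) := by
  have hth : 0 < th := by linarith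
  have hlam : 0 < lam := by linarith
  set σ : ℝ := (lam / th) ^ (1 / (3 : ℕ) : ℝ) with hσ
  have hratio : 1 < lam / th := by rwa [one_lt_div hth]
  have hσ1 : 1 < σ := Real.one_lt_rpow hratio (by positivity)
  have hσ0 : 0 < σ := by linarith
  have hσ3 : σ ^ 3 * th = lam := by
    rw [hσ, one_div, Real.rpow_inv_natCast_pow (by positivity) (by norm_num)]
    field_simp
  -- n
  obtain ⟨n, hn⟩ : ∃ n : ℕ, ((n : ℝ) + 2) ^ N ≤ σ ^ (n + 1) := by
    have h := tendsto_pow_const_div_const_pow_of_one_lt N hσ1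
    have h2 : ∀ᶠ x : ℕ in Filter.atTop, (x : ℝ) ^ N / σ ^ x < 1 / σ :=
      h.eventually (gt_mem_nhds (by positivity))
    obtain ⟨x, hx, hx2⟩ := (h2.and (Filter.eventually_ge_atTop 2)).exists
    obtain ⟨n, rfl⟩ := Nat.exists_eq_add_of_le' hx2
    refine ⟨n, ?_⟩
    rw [div_lt_div_iff₀ (by positivity) hσ0, one_mul] at hx
    have h3 : σ ^ (n + 2) = σ ^ (n + 1) * σ := by ring
    rw [h3] at hx
    have h4 := lt_of_mul_lt_mul_right hx hσ0.le
    push_cast at h4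
    exact h4.le
  -- e
  have hW1 : (1 : ℝ) ≤ W n := by exact_mod_cast hW n
  have hN1 : (1 : ℝ) ≤ (N : ℝ) ^ (n + 1) := one_le_pow₀ (by exact_mod_cast hN)
  obtain ⟨e0, he0⟩ := pow_unbounded_of_one_lt ((W n : ℝ) * (N : ℝ) ^ (n + 1)) hσ1
  set e := e0 + 1 with he
  have heN : (W n : ℝ) * (N : ℝ) ^ (n + 1) ≤ σ ^ (e * (n + 1)) :=
    le_trans he0.le (pow_le_pow_right₀ hσ1.le (by rw [he]; nlinarith))
  obtain ⟨C, hC⟩ := hR e
  set D : ℕ := 4 * (C + 1) with hD
  -- t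
  set A : ℝ := 2 * D * (N : ℝ) ^ ((n + 1) * (n + 2) ^ N) with hA
  obtain ⟨t, ht⟩ := pow_unbounded_of_one_lt A hσ1
  set T := (t + 1) * (n + 1) with hT
  have hAT : A ≤ σ ^ T := by
    refine le_trans ht.le (pow_le_pow_right₀ hσ1.le ?_)
    rw [hT]
    nlinarith
  -- m
  have hthT : 1 ≤ th ^ T := one_le_pow₀ h1
  set m : ℕ := ⌈th ^ T⌉₊ with hm
  have hm1 : th ^ T ≤ m := Nat.le_ceil _
  have hm2 : (m : ℝ) ≤ 2 * th ^ T := by
    have := Nat.ceil_lt_add_one (show (0 : ℝ) ≤ th ^ T by positivity)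
    linarith
  have hmpos : 0 < m := by
    have : (0 : ℝ) < m := lt_of_lt_of_le (by positivity) hm1
    exact_mod_cast this
  set B : ℕ := (Finset.range (W n ^ (t + 1) + m + 1)).sup R with hB
  have hBb : ∀ v ≤ W n ^ (t + 1) + m, R v ≤ B := fun v hv =>
    Finset.le_sup (f := R) (Finset.mem_range.2 (Nat.lt_succ_of_le hv))
  have hBe : (B : ℝ) ≤ D * σ ^ T := by
    obtain ⟨v, hv, hBv⟩ := Finset.exists_mem_eq_sup (Finset.range (W n ^ (t + 1) + m + 1))
      ⟨0, by simp⟩ R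
    rw [Finset.mem_range] at hv
    have h2 : B ^ e ≤ C * (v + 1) := by rw [hB, hBv]; exact hC v
    have hNT : th ^ T ≤ ((N : ℝ) ^ (n + 1)) ^ (t + 1) := by
      rw [← pow_mul, mul_comm (n + 1) (t + 1)]
      exact pow_le_pow_left₀ hth.le hthN T
    have hWT1 : (1 : ℝ) ≤ (W n : ℝ) ^ (t + 1) := one_le_pow₀ hW1
    have hNT1 : (1 : ℝ) ≤ ((N : ℝ) ^ (n + 1)) ^ (t + 1) := one_le_pow₀ hN1
    have h3 : ((v : ℝ) + 1) ≤ 4 * ((W n : ℝ) * (N : ℝ) ^ (n + 1)) ^ (t + 1) := by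
      have h5 : (v : ℝ) ≤ (W n : ℝ) ^ (t + 1) + m := by
        have : v ≤ W n ^ (t + 1) + m := Nat.lt_succ_iff.1 hv
        exact_mod_cast this
      rw [mul_pow]
      have h6 : (m : ℝ) ≤ 2 * ((N : ℝ) ^ (n + 1)) ^ (t + 1) := by linarith
      nlinarith [mul_nonneg (sub_nonneg.2 hWT1) (sub_nonneg.2 hNT1)]
    have h4 : ((B : ℝ)) ^ e ≤ (D * σ ^ T) ^ e := by
      calc ((B : ℝ)) ^ e ≤ C * ((v : ℝ) + 1) := by exact_mod_cast h2
        _ ≤ C * (4 * ((W n : ℝ) * (N : ℝ) ^ (n + 1)) ^ (t + 1)) :=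
            mul_le_mul_of_nonneg_left h3 (by positivity)
        _ ≤ D * ((W n : ℝ) * (N : ℝ) ^ (n + 1)) ^ (t + 1) := by
            rw [hD]
            push_cast
            have : (0 : ℝ) ≤ ((W n : ℝ) * (N : ℝ) ^ (n + 1)) ^ (t + 1) := by positivity
            nlinarith
        _ ≤ (D : ℝ) ^ e * (σ ^ (e * (n + 1))) ^ (t + 1) := by
            apply mul_le_mul _ (pow_le_pow_left₀ (by positivity) heN _) (by positivity)
              (by positivity)
            apply le_self_pow₀ _ (by omega)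
            have : 1 ≤ D := by omega
            exact_mod_cast this
        _ = (D * σ ^ T) ^ e := by
            rw [mul_pow, ← pow_mul, ← pow_mul]
            congr 2
            rw [hT]
            ring
    exact le_of_pow_le_pow_left₀ (by omega) (by positivity) h4
  refine ⟨n, t, m, B * m, hmpos, hm1, fun v hv => Nat.mul_le_mul_right m (hBb v hv), ?_⟩
  push_cast
  calc (((n : ℝ) + 2) ^ N) ^ (t + 1) * (N : ℝ) ^ ((n + 1) * (n + 2) ^ N) * (B * m)
      ≤ (σ ^ (n + 1)) ^ (t + 1) * (N : ℝ) ^ ((n + 1) * (n + 2) ^ N) *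
        ((D * σ ^ T) * (2 * th ^ T)) := by
        apply mul_le_mul
        · exact mul_le_mul_of_nonneg_right (pow_le_pow_left₀ (by positivity) hn _)
            (by positivity)
        · exact mul_le_mul hBe hm2 (by positivity) (by positivity)
        · positivity
        · positivity
    _ = σ ^ T * σ ^ T * th ^ T * A := by
        rw [← pow_mul, hA, hT, mul_comm (n + 1) (t + 1)]
        ring
    _ ≤ σ ^ T * σ ^ T * th ^ T * σ ^ T := mul_le_mul_of_nonneg_left hAT (by positivity)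
    _ = lam ^ T := by
        rw [← hσ3, mul_pow, ← pow_mul]
        ring

/-- Certificate for a lower bound. -/
def lowOK (c : Code) (k j M : ℕ) (I : List ℕ) : Prop :=
  (∀ a < I.length, ∀ b < I.length, a ≠ b → wsep c (M + 1) (I.getD a 0) (I.getD b 0)) ∧
    (j - 1) ^ (M + 1) ≤ I.length * (2 ^ k) ^ (M + 1)

theorem low_sound {c : Code} (hc : 0 < c.1) {k j M : ℕ} {I : List ℕ} (h : lowOK c k j M I) :
    ((j : ℝ) - 1) / 2 ^ k ≤ theta (gr c) := by
  have h1 : I.length ≤ al (gr c) (M + 1) := by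
    have h2 : (Finset.univ : Finset (Fin I.length)).card ≤ (spow (gr c) (Fin (M + 1))).indepNum := by
      refine card_le _ (fun a => wd c.1 hc (M + 1) (I.getD a 0)) ?_
      intro a _ b _ hab
      rw [sep_wd]
      exact h.1 a a.2 b b.2 (fun e => hab (Fin.ext e))
    simpa [al] using h2
  have h3 : (((j - 1 : ℕ) : ℝ)) ^ (M + 1) ≤ (theta (gr c) * 2 ^ k) ^ (M + 1) := by
    calc (((j - 1 : ℕ) : ℝ)) ^ (M + 1) ≤ (I.length : ℝ) * (2 ^ k) ^ (M + 1) := by
          exact_mod_cast h.2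
      _ ≤ theta (gr c) ^ (M + 1) * (2 ^ k) ^ (M + 1) := by
          apply mul_le_mul_of_nonneg_right _ (by positivity)
          exact le_trans (by exact_mod_cast h1) (al_le_theta (gr c) (M + 1))
      _ = (theta (gr c) * 2 ^ k) ^ (M + 1) := by rw [mul_pow]
  have h4 := le_of_pow_le_pow_left₀ (Nat.succ_ne_zero M)
    (mul_nonneg (theta_nonneg _) (by positivity)) h3
  rw [div_le_iff₀ (by positivity)]
  refine le_trans ?_ h4
  rcases Nat.eq_zero_or_pos j with rfl | hj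
  · simp
  · rw [Nat.cast_sub hj]
    simp

theorem low_exists {c : Code} (hc : 0 < c.1) {k j : ℕ}
    (h : ((j - 1 : ℕ) : ℝ) / 2 ^ k < theta (gr c)) : ∃ M I, lowOK c k j M I := by
  obtain ⟨M, hM⟩ := exists_lt_al (gr c) (by positivity) h
  obtain ⟨C, hC, hC2⟩ := exists_code (spow (gr c) (Fin (M + 1)))
  choose num _ hnum using fun u : Fin (M + 1) → Fin c.1 => exists_wd hc u
  refine ⟨M, C.toList.map num, ?_, ?_⟩
  · intro a ha b hb hab
    rw [List.length_map] at ha hb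
    have hga : (C.toList.map num).getD a 0 = num (C.toList[a]) := by
      rw [List.getD_eq_getElem _ _ (by simpa using ha), List.getElem_map]
    have hgb : (C.toList.map num).getD b 0 = num (C.toList[b]) := by
      rw [List.getD_eq_getElem _ _ (by simpa using hb), List.getElem_map]
    rw [hga, hgb, ← sep_wd hc, hnum, hnum]
    apply hC2
    · exact Finset.mem_toList.1 (List.getElem_mem _)
    · exact Finset.mem_toList.1 (List.getElem_mem _)
    · intro e
      exact hab ((List.Nodup.getElem_inj_iff C.nodup_toList).1 e)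
  · rw [List.length_map, Finset.length_toList, hC]
    rw [div_pow, div_lt_iff₀ (by positivity)] at hM
    have h2 : (((j - 1 : ℕ) : ℝ)) ^ (M + 1) ≤
        ((spow (gr c) (Fin (M + 1))).indepNum : ℝ) * (2 ^ k) ^ (M + 1) := hM.le
    exact_mod_cast h2

/-- Certificate for an upper bound. -/
def upOK (Q : Code × ℕ × ℕ × ℕ × ℕ × ℕ → ℕ → Prop) (c : Code) (k j n t m b s : ℕ) : Prop :=
  (∀ t' < t + 2, ∀ w < c.1 ^ (t' * (n + 1)), Q (c, n + 1, t', w, m, b) s) ∧
    ((n + 2) ^ c.1) ^ (t + 1) * c.1 ^ ((n + 1) * (n + 2) ^ c.1) * b *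
      (2 ^ k) ^ ((t + 1) * (n + 1)) ≤ (j + 1) ^ ((t + 1) * (n + 1))

theorem up_sound {c : Code} (hc : 0 < c.1) {Q : Code × ℕ × ℕ × ℕ × ℕ × ℕ → ℕ → Prop}
    {k j n t m b s : ℕ}
    (hQ : ∀ n t w, Q (c, n, t, w, m, b) s → theta (gr (jc c n t w 0)) ≤ b)
    (h : upOK Q c k j n t m b s) : theta (gr c) ≤ ((j : ℝ) + 1) / 2 ^ k := by
  have hne : Nonempty (Fin c.1) := ⟨⟨0, hc⟩⟩
  have h1 := types_bound (gr c) (n + 1) (t + 1) (Nat.succ_pos _) (Nat.succ_pos _)
    (b := (b : ℝ)) (by positivity) ?_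
  · have h2 : theta (gr c) ^ ((t + 1) * (n + 1)) ≤
        (((j : ℝ) + 1) / 2 ^ k) ^ ((t + 1) * (n + 1)) := by
      refine le_trans h1 ?_
      rw [div_pow, le_div_iff₀ (by positivity)]
      have h3 := h.2
      rw [Fintype.card_fin]
      have h4 : ((((n + 2) ^ c.1) ^ (t + 1) * c.1 ^ ((n + 1) * (n + 2) ^ c.1) * b *
        (2 ^ k) ^ ((t + 1) * (n + 1)) : ℕ) : ℝ) ≤ (((j + 1) ^ ((t + 1) * (n + 1)) : ℕ) : ℝ) := by
        exact_mod_cast h3
      push_cast at h4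
      refine le_trans (le_of_eq ?_) h4
      push_cast
      have : (n : ℝ) + 1 + 1 = n + 2 := by ring
      rw [this]
    exact le_of_pow_le_pow_left₀ (by positivity) (by positivity) h2
  · intro t' ht' u
    obtain ⟨w, hw, rfl⟩ := exists_wd2 hc u
    rw [← theta_jc_zero c hc]
    exact hQ (n + 1) t' w (h.1 t' (by omega) w hw)

theorem up_exists {c : Code} (hc : 0 < c.1) {U : Code × ℕ × ℕ × ℕ × ℕ × ℕ → Prop}
    {Q : Code × ℕ × ℕ × ℕ × ℕ × ℕ → ℕ → Prop} (hmono : ∀ a s t, s ≤ t → Q a s → Q a t)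
    (hQ : ∀ a, U a ↔ ∃ s, Q a s) {R : ℕ → ℕ} (hR : Subpoly R)
    (complete : ∀ n t w m b : ℕ, 0 < m → theta (gr (jc c n t w 0)) ≤ m →
      (∀ v : ℕ, v ≤ (plist n).length ^ t + m → R v * m ≤ b) → U (c, n, t, w, m, b))
    {k j : ℕ} (h : theta (gr c) < ((j : ℝ) + 1) / 2 ^ k) :
    ∃ n t m b s, upOK Q c k j n t m b s := by
  have hne : Nonempty (Fin c.1) := ⟨⟨0, hc⟩⟩
  have hthN : theta (gr c) ≤ c.1 := by
    apply theta_le _ (by positivity)
    intro n
    have := al_le_card (gr c) (n + 1)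
    rw [Fintype.card_fin] at this
    exact_mod_cast this
  have h1 := one_le_theta (gr c)
  obtain ⟨n, t, m, b, hm, hth, hb, hfin⟩ := upper_exists c.1 hc h1 hthN h hR
    (fun n => (plist (n + 1)).length) (fun n => plen_pos _)
  have hU : ∀ t' < t + 2, ∀ w < c.1 ^ (t' * (n + 1)), ∃ s, Q (c, n + 1, t', w, m, b) s := by
    intro t' ht' w _
    rw [← hQ]
    apply complete (n + 1) t' w m b hm
    · refine le_trans (theta_jc_le c hc (n + 1) t' w) (le_trans ?_ hth)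
      exact pow_le_pow_right₀ h1 (Nat.mul_le_mul_right _ (by omega))
    · intro v hv
      apply hb v
      refine le_trans hv (Nat.add_le_add_right (Nat.pow_le_pow_right (plen_pos _) (by omega)) m)
  choose! S hS using hU
  refine ⟨n, t, m, b, (Finset.range (t + 2)).sup
    (fun t' => (Finset.range (c.1 ^ (t' * (n + 1)))).sup (fun w => S t' w)), ?_, ?_⟩
  · intro t' ht' w hw
    refine hmono _ _ _ ?_ (hS t' ht' w hw)
    refine le_trans ?_ (Finset.le_sup (f := fun t' => (Finset.range (c.1 ^ (t' * (n + 1)))).sup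
      (fun w => S t' w)) (Finset.mem_range.2 ht'))
    exact Finset.le_sup (f := fun w => S t' w) (Finset.mem_range.2 hw)
  · rw [div_pow, le_div_iff₀ (by positivity)] at hfin
    exact_mod_cast hfin

end Pool.Agent.SC
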