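import Pool.Agent.SC.Gen

namespace Pool.Agent.SC

open SimpleGraph

variable {α : Type*} [Primcodable α]

theorem pp_lowOK {fc : α → Code} {fk fj fM : α → ℕ} {fI : α → List ℕ} (hc : Primrec fc)
    (hk : Primrec fk) (hj : Primrec fj) (hM : Primrec fM) (hI : Primrec fI) :
    PrimrecPred (fun x => lowOK (fc x) (fk x) (fj x) (fM x) (fI x)) := by
  have hlen : Primrec (fun x => (fI x).length) := Primrec.list_length.comp hI
  have hM1 : Primrec (fun x => fM x + 1) := Primrec.succ.comp hM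
  refine PrimrecPred.and ?_ ?_
  · refine pp_all_lt (R := fun x a => ∀ b < (fI x).length, a ≠ b →
      wsep (fc x) (fM x + 1) ((fI x).getD a 0) ((fI x).getD b 0)) ?_ hlen
    refine pp_all_lt (R := fun (x : α × ℕ) b => x.2 ≠ b →
      wsep (fc x.1) (fM x.1 + 1) ((fI x.1).getD x.2 0) ((fI x.1).getD b 0)) ?_
      (hlen.comp Primrec.fst)
    have h1 : Primrec (fun x : (α × ℕ) × ℕ => x.1.1) := Primrec.fst.comp Primrec.fst
    have h2 : Primrec (fun x : (α × ℕ) × ℕ => x.1.2) := Primrec.snd.comp Primrec.fst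
    have h3 : Primrec (fun x : (α × ℕ) × ℕ => x.2) := Primrec.snd
    refine pp_imp (pp_eq h2 h3).not ?_
    exact pp_wsep (hc.comp h1) (hM1.comp h1)
      ((Primrec.list_getD 0).comp (hI.comp h1) h2) ((Primrec.list_getD 0).comp (hI.comp h1) h3)
  · refine pp_le (pr_pow.comp (Primrec.nat_sub.comp hj (Primrec.const 1)) hM1) ?_
    exact Primrec.nat_mul.comp hlen (pr_pow.comp (pr_pow.comp (Primrec.const 2) hk) hM1)

theorem pp_upOK {Q : Code × ℕ × ℕ × ℕ × ℕ × ℕ → ℕ → Prop} (hQ : PrimrecRel Q)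
    {fc : α → Code} {fk fj fn ft fm fb fs : α → ℕ} (hc : Primrec fc)
    (hk : Primrec fk) (hj : Primrec fj) (hn : Primrec fn) (ht : Primrec ft) (hm : Primrec fm)
    (hb : Primrec fb) (hs : Primrec fs) :
    PrimrecPred (fun x => upOK Q (fc x) (fk x) (fj x) (fn x) (ft x) (fm x) (fb x) (fs x)) := by
  have hT : Primrec (fun x => (ft x + 1) * (fn x + 1)) :=
    Primrec.nat_mul.comp (Primrec.succ.comp ht) (Primrec.succ.comp hn)
  have hN : Primrec (fun x => (fc x).1) := Primrec.fst.comp hc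
  have hn1 : Primrec (fun x => fn x + 1) := Primrec.succ.comp hn
  have hn2 : Primrec (fun x => fn x + 2) := Primrec.succ.comp (Primrec.succ.comp hn)
  refine PrimrecPred.and ?_ ?_
  · refine pp_all_lt (R := fun x t' => ∀ w < (fc x).1 ^ (t' * (fn x + 1)),
      Q (fc x, fn x + 1, t', w, fm x, fb x) (fs x)) ?_ (Primrec.succ.comp (Primrec.succ.comp ht))
    refine pp_all_lt (R := fun (x : α × ℕ) w =>
      Q (fc x.1, fn x.1 + 1, x.2, w, fm x.1, fb x.1) (fs x.1)) ?_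
      (pr_pow.comp (hN.comp Primrec.fst) (Primrec.nat_mul.comp Primrec.snd
        (hn1.comp Primrec.fst)))
    have h1 : Primrec (fun x : (α × ℕ) × ℕ => x.1.1) := Primrec.fst.comp Primrec.fst
    have h2 : Primrec (fun x : (α × ℕ) × ℕ => x.1.2) := Primrec.snd.comp Primrec.fst
    have h3 : Primrec (fun x : (α × ℕ) × ℕ => x.2) := Primrec.snd
    exact hQ.comp (Primrec.pair (hc.comp h1) (Primrec.pair (hn1.comp h1) (Primrec.pair h2
      (Primrec.pair h3 (Primrec.pair (hm.comp h1) (hb.comp h1)))))) (hs.comp h1)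
  · refine pp_le ?_ (pr_pow.comp (Primrec.succ.comp hj) hT)
    refine Primrec.nat_mul.comp (Primrec.nat_mul.comp (Primrec.nat_mul.comp ?_ ?_) hb) ?_
    · exact pr_pow.comp (pr_pow.comp hn2 hN) (Primrec.succ.comp ht)
    · exact pr_pow.comp hN (Primrec.nat_mul.comp (Primrec.succ.comp hn) (pr_pow.comp hn2 hN))
    · exact pr_pow.comp (pr_pow.comp (Primrec.const 2) hk) hT

theorem theta_empty {V : Type*} [IsEmpty V] (G : SimpleGraph V) : theta G = 0 := by
  apply le_antisymm _ (theta_nonneg G)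
  have := Finite.of_subsingleton (α := V)
  apply theta_le G le_rfl
  intro n
  have h0 : al G (n + 1) = 0 := by
    obtain ⟨C, hC, -⟩ := exists_code (spow G (Fin (n + 1)))
    unfold al
    rw [← hC, Finset.card_eq_zero]
    apply Finset.eq_empty_of_forall_notMem
    intro x _
    exact isEmptyElim (x 0)
  rw [h0]
  simp

theorem gen {U : Code × ℕ × ℕ × ℕ × ℕ × ℕ → Prop} (hU : Staged U) {R : ℕ → ℕ}
    (hR : Subpoly R)
    (sound : ∀ (c : Code) (n t w m b : ℕ), 0 < c.1 → U (c, n, t, w, m, b) →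
      theta (gr (jc c n t w 0)) ≤ b)
    (complete : ∀ (c : Code) (n t w m b : ℕ), 0 < c.1 → 0 < m →
      theta (gr (jc c n t w 0)) ≤ m →
      (∀ v : ℕ, v ≤ (plist n).length ^ t + m → R v * m ≤ b) → U (c, n, t, w, m, b)) :
    ThetaComputable := by
  obtain ⟨Q, hQp, hQm, hQe⟩ := hU
  let Rel : Code × ℕ → (ℕ × List ℕ) × (ℕ × ℕ × ℕ × ℕ × ℕ) × ℕ → Prop := fun a d =>
    (a.1.1 = 0 ∧ d.2.2 = 0) ∨ (0 < a.1.1 ∧ lowOK a.1 a.2 d.2.2 d.1.1 d.1.2 ∧
      upOK Q a.1 a.2 d.2.2 d.2.1.1 d.2.1.2.1 d.2.1.2.2.1 d.2.1.2.2.2.1 d.2.1.2.2.2.2)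
  have hRel : PrimrecPred (fun x : (Code × ℕ) × ((ℕ × List ℕ) × (ℕ × ℕ × ℕ × ℕ × ℕ) × ℕ) =>
      Rel x.1 x.2) := by
    have hc : Primrec (fun x : (Code × ℕ) × ((ℕ × List ℕ) × (ℕ × ℕ × ℕ × ℕ × ℕ) × ℕ) => x.1.1) :=
      Primrec.fst.comp Primrec.fst
    have hk : Primrec (fun x : (Code × ℕ) × ((ℕ × List ℕ) × (ℕ × ℕ × ℕ × ℕ × ℕ) × ℕ) => x.1.2) :=
      Primrec.snd.comp Primrec.fst
    have hMI : Primrec (fun x : (Code × ℕ) × ((ℕ × List ℕ) × (ℕ × ℕ × ℕ × ℕ × ℕ) × ℕ) =>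
      x.2.1) := Primrec.fst.comp Primrec.snd
    have h5 : Primrec (fun x : (Code × ℕ) × ((ℕ × List ℕ) × (ℕ × ℕ × ℕ × ℕ × ℕ) × ℕ) =>
      x.2.2.1) := Primrec.fst.comp (Primrec.snd.comp Primrec.snd)
    have hj : Primrec (fun x : (Code × ℕ) × ((ℕ × List ℕ) × (ℕ × ℕ × ℕ × ℕ × ℕ) × ℕ) =>
      x.2.2.2) := Primrec.snd.comp (Primrec.snd.comp Primrec.snd)
    have hN := Primrec.fst.comp hc
    have h51 := Primrec.snd.comp h5
    have h52 := Primrec.snd.comp h51
    have h53 := Primrec.snd.comp h52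
    refine PrimrecPred.or (PrimrecPred.and (pp_eq hN (Primrec.const 0))
      (pp_eq hj (Primrec.const 0))) (PrimrecPred.and (pp_lt (Primrec.const 0) hN)
      (PrimrecPred.and ?_ ?_))
    · exact pp_lowOK hc hk hj (Primrec.fst.comp hMI) (Primrec.snd.comp hMI)
    · exact pp_upOK hQp hc hk hj (Primrec.fst.comp h5) (Primrec.fst.comp h51)
        (Primrec.fst.comp h52) (Primrec.fst.comp h53) (Primrec.snd.comp h53)
  have hex : ∀ a, ∃ d, Rel a d := by
    rintro ⟨c, k⟩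
    rcases Nat.eq_zero_or_pos c.1 with h0 | hc
    · exact ⟨((0, []), (0, 0, 0, 0, 0), 0), Or.inl ⟨h0, rfl⟩⟩
    · have hne : Nonempty (Fin c.1) := ⟨⟨0, hc⟩⟩
      have h1 := one_le_theta (gr c)
      have hpos : 0 < theta (gr c) * 2 ^ k := by positivity
      set j := ⌈theta (gr c) * 2 ^ k⌉₊ with hj
      have hj0 : 0 < j := Nat.ceil_pos.2 hpos
      have hj1 : theta (gr c) * 2 ^ k ≤ j := Nat.le_ceil _
      have hj2 : (j : ℝ) < theta (gr c) * 2 ^ k + 1 := Nat.ceil_lt_add_one hpos.le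
      have hlow : ((j - 1 : ℕ) : ℝ) / 2 ^ k < theta (gr c) := by
        rw [div_lt_iff₀ (by positivity), Nat.cast_sub hj0]
        push_cast
        linarith
      have hup : theta (gr c) < ((j : ℝ) + 1) / 2 ^ k := by
        rw [lt_div_iff₀ (by positivity)]
        linarith
      obtain ⟨M, I, hMI⟩ := low_exists hc hlow
      obtain ⟨n, t, m, b, s, hu⟩ := up_exists hc hQm hQe hR
        (fun n t w m b hm h1 h2 => complete c n t w m b hc hm h1 h2) hup
      exact ⟨((M, I), (n, t, m, b, s), j), Or.inr ⟨hc, hMI, hu⟩⟩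
  obtain ⟨f, hf, hfR⟩ := exists_computable_choice hRel hex
  refine ⟨fun a => ((f a).2.2, 2 ^ a.2 - 1), ?_, ?_⟩
  · refine Computable.pair ((Primrec.snd.comp Primrec.snd).to_comp.comp hf) ?_
    exact (Primrec.nat_sub.comp (pr_pow.comp (Primrec.const 2) Primrec.snd)
      (Primrec.const 1)).to_comp
  · intro c k
    have hden : (((2 ^ k - 1 : ℕ) : ℝ)) + 1 = 2 ^ k := by
      have : 1 ≤ 2 ^ k := Nat.one_le_two_pow
      rw [Nat.cast_sub this]
      push_cast
      ring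
    change |(((f (c, k)).2.2 : ℕ) : ℝ) / (((2 ^ k - 1 : ℕ) : ℝ) + 1) - theta (gr c)| ≤ 1 / 2 ^ k
    rw [hden]
    rcases hfR (c, k) with ⟨h0, hj⟩ | ⟨hc, hlow, hup⟩
    · have h0' : c.1 = 0 := h0
      have hj' : (f (c, k)).2.2 = 0 := hj
      have hemp : IsEmpty (Fin c.1) := by rw [h0']; infer_instance
      rw [hj', theta_empty]
      simp
    · have h1 := low_sound hc hlow
      have h2 := up_sound hc (fun n t w hq => sound c n t w _ _ hc ((hQe _).2 ⟨_, hq⟩)) hup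
      rw [abs_le]
      have h3 : ((((f (c, k)).2.2 : ℕ) : ℝ) - 1) / 2 ^ k =
        (((f (c, k)).2.2 : ℕ) : ℝ) / 2 ^ k - 1 / 2 ^ k := by ring
      have h4 : ((((f (c, k)).2.2 : ℕ) : ℝ) + 1) / 2 ^ k =
        (((f (c, k)).2.2 : ℕ) : ℝ) / 2 ^ k + 1 / 2 ^ k := by ring
      change ((((f (c, k)).2.2 : ℕ) : ℝ) - 1) / 2 ^ k ≤ theta (gr c) at h1
      change theta (gr c) ≤ ((((f (c, k)).2.2 : ℕ) : ℝ) + 1) / 2 ^ k at h2
      rw [h3] at h1
      rw [h4] at h2
      constructor <;> linarith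

/-! ### The independence number -/

/-- The independence number of the graph with code c is at least a. -/
def AlphaGe (c : Code) (a : ℕ) : Prop :=
  ∃ I ∈ (List.range c.1).sublists', a ≤ I.length ∧
    ∀ x ∈ I, ∀ y ∈ I, x ≠ y → ¬ ((x, y) ∈ c.2 ∨ (y, x) ∈ c.2)

theorem alphaGe_iff {c : Code} {a : ℕ} : AlphaGe c a ↔ a ≤ (gr c).indepNum := by
  constructor
  · rintro ⟨I, hI, ha, hind⟩
    rw [List.mem_sublists'] at hI
    have hnd : I.Nodup := hI.nodup List.nodup_range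
    have hlt : ∀ x ∈ I, x < c.1 := fun x hx => List.mem_range.1 (hI.subset hx)
    refine le_trans ha ?_
    have h1 : I.length = I.toFinset.card := (List.toFinset_card_of_nodup hnd).symm
    rw [h1]
    refine card_le_attach I.toFinset (fun x => ⟨x.1, hlt x.1 (List.mem_toFinset.1 x.2)⟩) ?_
    intro x y hxy
    rw [sep_gr]
    have hne : x.1 ≠ y.1 := fun e => hxy (Subtype.ext e)
    exact ⟨hne, hind x.1 (List.mem_toFinset.1 x.2) y.1 (List.mem_toFinset.1 y.2) hne⟩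
  · intro ha
    classical
    obtain ⟨C, hC, hC2⟩ := exists_code (gr c)
    refine ⟨(List.range c.1).filter (fun x => ∃ v ∈ C, (v : ℕ) = x), ?_, ?_, ?_⟩
    · rw [List.mem_sublists']
      exact List.filter_sublist
    · refine le_trans ha ?_
      rw [← hC]
      have h1 : ((List.range c.1).filter (fun x => ∃ v ∈ C, (v : ℕ) = x)).length =
          ((Finset.range c.1).filter (fun x => ∃ v ∈ C, (v : ℕ) = x)).card := by
        rw [Finset.card_def]
        rfl
      rw [h1]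
      refine Finset.card_le_card_of_injOn (fun v => (v : ℕ)) ?_ ?_
      · intro v hv
        simp only [Finset.coe_filter, Finset.mem_range, Set.mem_ofPred_eq]
        exact ⟨v.2, v, hv, rfl⟩
      · intro v _ w _ h
        exact Fin.ext h
    · intro x hx y hy hxy
      rw [List.mem_filter] at hx hy
      simp only [decide_eq_true_eq] at hx hy
      obtain ⟨-, v, hv, rfl⟩ := hx
      obtain ⟨-, w, hw, rfl⟩ := hy
      exact (sep_gr.1 (hC2 v hv w hw (fun e => hxy (by rw [e])))).2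

theorem pp_alphaGe : PrimrecRel AlphaGe := by
  refine pp_ex_mem (l := fun p : Code × ℕ => (List.range p.1.1).sublists')
    (R := fun p I => p.2 ≤ I.length ∧
      ∀ x ∈ I, ∀ y ∈ I, x ≠ y → ¬ ((x, y) ∈ p.1.2 ∨ (y, x) ∈ p.1.2)) ?_
    (pr_sublists'.comp (Primrec.list_range.comp (Primrec.fst.comp Primrec.fst)))
  refine PrimrecPred.and (pp_le (Primrec.snd.comp Primrec.fst)
    (Primrec.list_length.comp Primrec.snd)) ?_
  refine pp_all_mem (l := fun p : (Code × ℕ) × List ℕ => p.2)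
    (R := fun p x => ∀ y ∈ p.2, x ≠ y → ¬ ((x, y) ∈ p.1.1.2 ∨ (y, x) ∈ p.1.1.2)) ?_ Primrec.snd
  refine pp_all_mem (l := fun p : ((Code × ℕ) × List ℕ) × ℕ => p.1.2)
    (R := fun p y => p.2 ≠ y → ¬ ((p.2, y) ∈ p.1.1.1.2 ∨ (y, p.2) ∈ p.1.1.1.2)) ?_
    (Primrec.snd.comp Primrec.fst)
  have hx : Primrec (fun q : (((Code × ℕ) × List ℕ) × ℕ) × ℕ => q.1.2) :=
    Primrec.snd.comp Primrec.fst
  have hy : Primrec (fun q : (((Code × ℕ) × List ℕ) × ℕ) × ℕ => q.2) := Primrec.snd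
  have hl : Primrec (fun q : (((Code × ℕ) × List ℕ) × ℕ) × ℕ => q.1.1.1.1.2) :=
    Primrec.snd.comp (Primrec.fst.comp (Primrec.fst.comp (Primrec.fst.comp Primrec.fst)))
  refine pp_imp (pp_eq hx hy).not (PrimrecPred.not (PrimrecPred.or ?_ ?_))
  · exact pp_mem (Primrec.pair hx hy) hl
  · exact pp_mem (Primrec.pair hy hx) hl

theorem pr_indepNum : Primrec (fun c : Code => (gr c).indepNum) := by
  classical
  have h := Primrec.nat_findGreatest (f := fun c : Code => c.1) (p := AlphaGe) Primrec.fst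
    pp_alphaGe
  refine h.of_eq (fun c => ?_)
  have hle : (gr c).indepNum ≤ c.1 := by
    obtain ⟨C, hC, -⟩ := exists_code (gr c)
    rw [← hC]
    simpa using Finset.card_le_univ C
  apply le_antisymm
  · have h2 := Nat.findGreatest_spec (P := AlphaGe c) (Nat.zero_le c.1)
      (alphaGe_iff.2 (Nat.zero_le _))
    exact alphaGe_iff.1 h2
  · exact Nat.le_findGreatest hle (alphaGe_iff.2 le_rfl)

end Pool.Agent.SC
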