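import Pool.Agent.SC.Join

namespace Pool.Agent.SC

open SimpleGraph

variable {V W X Y I J K : Type*}

/-- The Cayley graph attached to the word w, divided into blocks indexed by ι: its vertices are
the families of permutations of the positions inside the blocks. -/
def bcay (G : SimpleGraph V) {ι K : Type*} (w : ι → K → V) : SimpleGraph (ι → Equiv.Perm K) :=
  SimpleGraph.fromRel (fun σ τ => ∀ s k,
    w s (σ s k) = w s (τ s k) ∨ G.Adj (w s (σ s k)) (w s (τ s k)))

theorem sep_bcay {G : SimpleGraph V} {ι K : Type*} {w : ι → K → V}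
    {σ τ : ι → Equiv.Perm K} :
    (bcay G w)ᶜ.Adj σ τ ↔ ∃ s k, Gᶜ.Adj (w s (σ s k)) (w s (τ s k)) := by
  rw [compl_adj]
  unfold bcay
  rw [fromRel_adj]
  constructor
  · rintro ⟨h1, h2⟩
    by_contra hcon
    push Not at hcon
    apply h2
    refine ⟨h1, Or.inl (fun s k => ?_)⟩
    have := hcon s k
    rw [compl_adj] at this
    by_contra h3
    push Not at h3
    exact this ⟨h3.1, h3.2⟩
  · rintro ⟨s, k, h⟩
    rw [compl_adj] at h
    refine ⟨fun e => h.1 (by rw [e]), ?_⟩
    rintro ⟨-, h2 | h2⟩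
    · rcases h2 s k with h3 | h3
      · exact h.1 h3
      · exact h.2 h3
    · rcases h2 s k with h3 | h3
      · exact h.1 h3.symm
      · exact h.2 h3.symm

theorem theta_bcay_reindex {ι ι' : Type*} [Finite V] [Finite K] [Finite ι] [Finite ι']
    (G : SimpleGraph V) (e : ι ≃ ι') (w : ι → K → V) :
    theta (bcay G w) ≤ theta (bcay G (fun s => w (e.symm s))) := by
  refine theta_mono (fun σ s => σ (e.symm s)) ?_
  intro σ τ h
  rw [sep_bcay] at h ⊢
  obtain ⟨s, k, h⟩ := h
  exact ⟨e s, k, by simpa using h⟩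

theorem theta_bcay_le [Finite V] (G : SimpleGraph V) (t n : ℕ) (w : Fin t → Fin n → V) :
    theta (bcay G w) ≤ theta G ^ (t * n) := by
  refine theta_le_pow_of_map G (t * n) (fun σ p => w (finProdFinEquiv.symm p).1
    (σ (finProdFinEquiv.symm p).1 (finProdFinEquiv.symm p).2)) ?_
  intro σ τ h
  rw [sep_bcay] at h
  rw [sep_spow]
  obtain ⟨s, k, h⟩ := h
  exact ⟨finProdFinEquiv (s, k), by simpa using h⟩

theorem bcay_isCayley (G : SimpleGraph V) (t n : ℕ) (w : Fin t → Fin n → V) :
    IsCayley (bcay G w) := by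
  refine ⟨Fin t → Equiv.Perm (Fin n), inferInstance, inferInstance,
    {π | ∀ s k, w s (π s k) = w s k ∨ G.Adj (w s (π s k)) (w s k)}, ?_⟩
  have h : bcay G w = cayley {π : Fin t → Equiv.Perm (Fin n) |
      ∀ s k, w s (π s k) = w s k ∨ G.Adj (w s (π s k)) (w s k)} := by
    unfold bcay cayley
    congr 1
    funext σ τ
    apply propext
    constructor
    · intro h s k
      have := h s ((τ s)⁻¹ k)
      simpa using this
    · intro h s k
      have := h s (τ s k)
      simpa using this
  rw [h]
  exact ⟨Iso.refl⟩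

/-- Two words with the same composition differ by a permutation of the positions. -/
theorem exists_perm [DecidableEq V] [Fintype K] {u w : K → V}
    (h : ∀ v, (Finset.univ.filter (fun k => u k = v)).card =
      (Finset.univ.filter (fun k => w k = v)).card) :
    ∃ σ : K ≃ K, ∀ k, w (σ k) = u k := by
  classical
  have h1 : ∀ v, Nonempty ({k // u k = v} ≃ {k // w k = v}) := by
    intro v
    apply Fintype.card_eq.1
    rw [Fintype.card_subtype, Fintype.card_subtype]
    exact h v
  exact ⟨Equiv.ofFiberEquiv (fun v => (h1 v).some), fun k => Equiv.ofFiberEquiv_map _ k⟩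

/-- Embedding of blocks. -/
theorem exists_blocks {ι J : Type*} [Fintype ι] [Fintype J] [DecidableEq ι] [DecidableEq J]
    (p : J → ι) (L : ℕ) (hL : 0 < L) :
    ∃ q : ι → ℕ, ∃ e : Fin L × (Σ i : ι, Fin (q i)) → J, Function.Injective e ∧
      (∀ l s, p (e (l, s)) = s.1) ∧
      L * Fintype.card (Σ i : ι, Fin (q i)) ≤ Fintype.card J ∧
      Fintype.card J ≤ L * Fintype.card (Σ i : ι, Fin (q i)) + L * Fintype.card ι := by
  classical
  let q : ι → ℕ := fun i => Fintype.card {j // p j = i} / L
  have hemb : ∀ i, Nonempty (Fin L × Fin (q i) ↪ {j // p j = i}) := by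
    intro i
    apply Function.Embedding.nonempty_of_card_le
    rw [Fintype.card_prod, Fintype.card_fin, Fintype.card_fin]
    exact Nat.mul_div_le _ _
  let em : ∀ i, Fin L × Fin (q i) ↪ {j // p j = i} := fun i => (hemb i).some
  have hsum : Fintype.card J = ∑ i : ι, Fintype.card {j // p j = i} := by
    rw [← Fintype.card_sigma]
    exact Fintype.card_congr (Equiv.sigmaFiberEquiv p).symm
  have hq : Fintype.card (Σ i : ι, Fin (q i)) = ∑ i : ι, q i := by
    rw [Fintype.card_sigma]
    simp
  refine ⟨q, fun x => (em x.2.1 (x.1, x.2.2)).1, ?_, ?_, ?_, ?_⟩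
  · rintro ⟨l, i, j⟩ ⟨l', i', j'⟩ h
    have h1 : i = i' := by
      have a := (em i (l, j)).2
      have b := (em i' (l', j')).2
      dsimp only at h
      rw [h] at a
      exact a.symm.trans b
    subst h1
    have h2 := (em i).injective (Subtype.ext h)
    simp only [Prod.mk.injEq] at h2
    rw [h2.1, h2.2]
  · intro l s
    exact (em s.1 (l, s.2)).2
  · rw [hq, hsum, Finset.mul_sum]
    exact Finset.sum_le_sum (fun i _ => Nat.mul_div_le _ _)
  · rw [hq, hsum, Finset.mul_sum]
    have : L * Fintype.card ι = ∑ i : ι, L := by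
      rw [Finset.sum_const, Finset.card_univ, smul_eq_mul, mul_comm]
    rw [this, ← Finset.sum_add_distrib]
    refine Finset.sum_le_sum (fun i _ => ?_)
    have h1 := Nat.div_add_mod (Fintype.card {j // p j = i}) L
    have h2 := Nat.mod_lt (Fintype.card {j // p j = i}) hL
    change _ ≤ L * (Fintype.card {j // p j = i} / L) + L
    omega

/-- One fibre of the block decomposition. -/
theorem fibre_bound [Fintype V] [DecidableEq V] (G : SimpleGraph V) (n L : ℕ) (hL : 0 < L)
    {ι : Type*} [Fintype ι] (ty : ι → V → ℕ) (q : ι → ℕ)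
    {J : Type*} [Fintype J] (e : Fin L × (Σ i : ι, Fin (q i)) → J)
    (C : Finset (J → Fin n → V))
    (hC : ∀ x ∈ C, ∀ y ∈ C, x ≠ y → ∃ l s k, Gᶜ.Adj (x (e (l, s)) k) (y (e (l, s)) k))
    (hty : ∀ x ∈ C, ∀ l s v, (Finset.univ.filter (fun k => x (e (l, s)) k = v)).card = ty s.1 v)
    {b : ℝ} (hb0 : 0 ≤ b) (hb : ∀ t : ℕ, t ≤ Fintype.card (Σ i : ι, Fin (q i)) →
      ∀ w : Fin t → Fin n → V, theta (bcay G w) ≤ b) :
    (C.card : ℝ) ≤ b ^ L := by
  classical
  rcases C.eq_empty_or_nonempty with rfl | ⟨x0, hx0⟩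
  · simp only [Finset.card_empty, Nat.cast_zero]
    positivity
  let w : (Σ i : ι, Fin (q i)) → Fin n → V := fun s => x0 (e (⟨0, hL⟩, s))
  have hex : ∀ x : {x // x ∈ C}, ∀ l s, ∃ σ : Equiv.Perm (Fin n), ∀ k,
      w s (σ k) = x.1 (e (l, s)) k := by
    intro x l s
    apply exists_perm
    intro v
    rw [hty x.1 x.2 l s v]
    exact (hty x0 hx0 _ s v).symm
  choose f hf using hex
  have h1 : C.card ≤ (spow (bcay G w) (Fin L)).indepNum := by
    refine card_le_attach C (fun x l s => f x l s) ?_
    intro x y hxy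
    obtain ⟨l, s, k, h⟩ := hC x.1 x.2 y.1 y.2 (fun e => hxy (Subtype.ext e))
    rw [sep_spow]
    refine ⟨l, ?_⟩
    rw [sep_bcay]
    refine ⟨s, k, ?_⟩
    rw [hf, hf]
    exact h
  have h2 : ((spow (bcay G w) (Fin L)).indepNum : ℝ) ≤ theta (bcay G w) ^ L := al_le_theta _ L
  have h3 : theta (bcay G w) ≤ b :=
    le_trans (theta_bcay_reindex G (Fintype.equivFin _) w) (hb _ le_rfl _)
  calc (C.card : ℝ) ≤ _ := by exact_mod_cast h1
    _ ≤ _ := h2
    _ ≤ b ^ L := pow_le_pow_left₀ (theta_nonneg _) h3 L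

/-- **Effective reduction to words with a fixed composition.** -/
theorem types_bound [Fintype V] [DecidableEq V] [Nonempty V] (G : SimpleGraph V) (n t : ℕ)
    (hn : 0 < n) (ht : 0 < t) {b : ℝ} (hb0 : 0 ≤ b)
    (hb : ∀ t' : ℕ, t' ≤ t → ∀ w : Fin t' → Fin n → V, theta (bcay G w) ≤ b) :
    theta G ^ (t * n) ≤
      (((n : ℝ) + 1) ^ Fintype.card V) ^ t *
        ((Fintype.card V : ℝ) ^ (n * (n + 1) ^ Fintype.card V)) * b := by
  classical
  set N := Fintype.card V with hN
  set r := (n + 1) ^ N with hr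
  have hNpos : 0 < N := Fintype.card_pos
  apply theta_pow_le G (by positivity) (by positivity)
  intro L0
  set L := L0 + 1 with hL
  have hLpos : 0 < L := Nat.succ_pos _
  obtain ⟨C, hC, hC2⟩ := exists_code (spow (spow G (Fin n)) (Fin L × Fin t))
  have hCal : (C.card : ℝ) = al G (t * n * L) := by
    rw [hC, indepNum_curry, indepNum_spow]
    congr 2
    simp only [Fintype.card_prod, Fintype.card_fin]
    ring
  rw [← hCal]
  -- types of blocks
  let ι := V → Fin (n + 1)
  have hι : Fintype.card ι = r := by simp [ι, hr, hN]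
  let ty : (Fin n → V) → ι := fun w v =>
    ⟨(Finset.univ.filter (fun k => w k = v)).card, Nat.lt_succ_of_le
      (le_trans (Finset.card_le_univ _) (by simp))⟩
  have hJ : Fintype.card (Fin L × Fin t) = L * t := by simp
  -- fibres over the patterns
  have step1 : C.card ≤ ⌊(N : ℝ) ^ (n * r * L) * b ^ L⌋₊ *
      (Finset.univ : Finset (Fin L × Fin t → ι)).card := by
    refine Finset.card_le_mul_card_image_of_maps_to (f := fun x j => ty (x j))
      (fun _ _ => Finset.mem_univ _) _ ?_
    intro p _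
    set Cp := C.filter (fun x => (fun j => ty (x j)) = p) with hCp
    apply Nat.le_floor
    obtain ⟨q, e, hinj, hpe, hle1, hle2⟩ := exists_blocks p L hLpos
    set Q := Fintype.card (Σ i : ι, Fin (q i)) with hQ
    have hQt : Q ≤ t := by
      rw [hJ] at hle1
      exact Nat.le_of_mul_le_mul_left hle1 hLpos
    -- leftover positions
    let S : Finset (Fin L × Fin t) := Finset.univ \ (Finset.univ.image e)
    have hScard : S.card ≤ r * L := by
      have h1 : S.card = L * t - L * Q := by
        rw [Finset.card_sdiff_of_subset (Finset.subset_univ _), Finset.card_univ, hJ,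
          Finset.card_image_of_injective _ hinj, Finset.card_univ, Fintype.card_prod,
          Fintype.card_fin]
      rw [hJ, hι] at hle2
      rw [h1]
      have : L * r = r * L := mul_comm _ _
      omega
    have step2 : Cp.card ≤ ⌊b ^ L⌋₊ * (Finset.univ : Finset (S → Fin n → V)).card := by
      refine Finset.card_le_mul_card_image_of_maps_to (f := fun x s => x s.1)
        (fun _ _ => Finset.mem_univ _) _ ?_
      intro z _
      apply Nat.le_floor
      refine fibre_bound G n L hLpos (fun i v => (i v : ℕ)) q e _ ?_ ?_ hb0 ?_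
      · intro x hx y hy hxy
        simp only [Cp, Finset.mem_filter] at hx hy
        obtain ⟨j, hj⟩ := sep_spow.1 (hC2 x hx.1.1 y hy.1.1 hxy)
        obtain ⟨k, hk⟩ := sep_spow.1 hj
        by_cases hjS : j ∈ S
        · exfalso
          have h1 := congrFun hx.2 ⟨j, hjS⟩
          have h2 := congrFun hy.2 ⟨j, hjS⟩
          dsimp only at h1 h2
          rw [h1, h2] at hk
          exact hk.ne rfl
        · simp only [S, Finset.mem_sdiff, Finset.mem_univ, true_and, not_not,
            Finset.mem_image] at hjS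
          obtain ⟨⟨l, s⟩, hls⟩ := hjS
          refine ⟨l, s, k, ?_⟩
          rw [hls]
          exact hk
      · intro x hx l s v
        simp only [Cp, Finset.mem_filter] at hx
        have h1 := congrFun hx.1.2 (e (l, s))
        rw [hpe] at h1
        have h2 := congrArg Fin.val (congrFun h1 v)
        exact h2
      · intro t' ht' w
        exact hb t' (le_trans ht' hQt) w
    have h4 : (Finset.univ : Finset (S → Fin n → V)).card ≤ N ^ (n * r * L) := by
      rw [Finset.card_univ, Fintype.card_fun, Fintype.card_fun, Fintype.card_coe, Fintype.card_fin,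
        ← pow_mul]
      apply Nat.pow_le_pow_right hNpos
      calc n * S.card ≤ n * (r * L) := Nat.mul_le_mul_left n hScard
        _ = n * r * L := by ring
    calc (Cp.card : ℝ) ≤ (⌊b ^ L⌋₊ * (Finset.univ : Finset (S → Fin n → V)).card : ℕ) := by
          exact_mod_cast step2
      _ = (⌊b ^ L⌋₊ : ℝ) * ((Finset.univ : Finset (S → Fin n → V)).card : ℝ) := by push_cast; rfl
      _ ≤ b ^ L * (N : ℝ) ^ (n * r * L) := by
          apply mul_le_mul (Nat.floor_le (by positivity)) _ (by positivity) (by positivity)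
          exact_mod_cast h4
      _ = (N : ℝ) ^ (n * r * L) * b ^ L := mul_comm _ _
  have h5 : (Finset.univ : Finset (Fin L × Fin t → ι)).card = r ^ (L * t) := by
    rw [Finset.card_univ, Fintype.card_fun, hι, hJ]
  rw [h5] at step1
  calc (C.card : ℝ) ≤ ((⌊(N : ℝ) ^ (n * r * L) * b ^ L⌋₊ * r ^ (L * t) : ℕ) : ℝ) := by
        exact_mod_cast step1
    _ = (⌊(N : ℝ) ^ (n * r * L) * b ^ L⌋₊ : ℝ) * (r : ℝ) ^ (L * t) := by push_cast; rfl
    _ ≤ ((N : ℝ) ^ (n * r * L) * b ^ L) * (r : ℝ) ^ (L * t) :=
        mul_le_mul_of_nonneg_right (Nat.floor_le (by positivity)) (by positivity)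
    _ = ((((n : ℝ) + 1) ^ N) ^ t * (N : ℝ) ^ (n * r) * b) ^ L := by
        have h6 : (((n : ℝ) + 1) ^ N) = (r : ℝ) := by rw [hr]; push_cast; rfl
        rw [h6, mul_pow, mul_pow, ← pow_mul, ← pow_mul, mul_comm L t]
        ring

end Pool.Agent.SC
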